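import Pool.Agent.CGA.CpG

/-!
# CGA/AccG: exits near `T` give accessible boundary edges

`acc_ge`: let `F = G.off Λ T ∪ A`. Over `F`, the increasing events `A ⊆ ω` (probability `p^|A|`,
`pr_contain`) and `Exit Λ ω {z ∉ T} y` (probability `gx`, `Gr.dep_exit`, `pr_dep`) occur together with
probability `≥ p^|A| gx` (`harris_pr`; `Exit.mono`). Then `w` is joined to `y` and `y` exits `Λ`, off `T`:
`Exit Λ ω {z ∉ T} w` (`Reach.mono`, `Reach.trans`), and with `x = w` the event in `acc` (whose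
probability over `F` is the one over `off Λ T`: for `x ∉ T`, `Gr.dep_exit`; `acc` is the probability of
`∃ x, x ∉ T ∧ (a e = x ∨ b e = x) ∧ Exit ..`; compare `Pool/Agent/DLP/LineB.lean`, `acc_line`).

`path_to`: `y ∈ nb S T n`: `t ∈ T` with `t⁻¹ y ∈ bl S n`, so `y⁻¹ t ∈ bl S n` (`inv_mem_bl`); `path_edges`
from `y` to `t` inside the ball around `y`; reverse it and take the last exit from `T`
(`Reach.last_exit`, start `t ∈ T`, end `y ∉ T`): an edge `e ∈ A` from `u ∈ T` to `w ∉ T`, both in the ball,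
and `w` is joined to `y` off `T` with edges of `A`.

`sum_gx_le`: to every `y` (`y ∉ T`, `y ∈ nb S T n`) associate `e(y)` of `path_to`:
`p^n gx y ≤ p^|A| gx y ≤ acc e(y)`; for every edge `e` at most `|bl S n|` points `y` have
`a e ∈ sh y (bl S n)` (`y = (a e) h⁻¹`). Sum (`Finset.sum_fiberwise` or
`Finset.sum_comm'`), `acc ≥ 0` (`pr_nonneg`).
-/

namespace Pool.Agent.CGA

open Finset Pool.Agent.DLP

private theorem gx_over {V E : Type} [DecidableEq V] [DecidableEq E] (G : Gr V E) (p : ℝ)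
    (Λ T : Finset V) (x : V) {F : Finset E} (hF : G.off Λ T ⊆ F) :
    pr p F (fun ω : Finset E => G.Exit Λ (↑ω : Set E) {z | z ∉ T} x) =
      pr p (G.off Λ T) (fun ω : Finset E => G.Exit Λ (↑ω : Set E) {z | z ∉ T} x) := by
  refine pr_dep (Gr.dep_exit G Λ T x) fun i hi => ?_
  have hi' : i ∈ G.off Λ T := by
    rw [Gr.mem_off]
    obtain ⟨hi1, hi2, hi3⟩ := hi
    rw [Gr.mem_touch] at hi1
    exact ⟨hi1, hi2, hi3⟩
  exact ⟨fun _ => hi', fun _ => hF hi'⟩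

theorem acc_ge {V E : Type} [DecidableEq V] [DecidableEq E] (G : Gr V E) {p : ℝ} (h0 : 0 ≤ p)
    (h1 : p ≤ 1) {Λ T : Finset V} {e : E} {w y : V} (hw : w ∉ T) (hew : G.a e = w ∨ G.b e = w)
    {A : Finset E} (hA : G.Reach (↑A : Set E) {z | z ∉ T} w y) :
    p ^ A.card * gx G p Λ T y ≤ G.acc p Λ T e := by
  have hoff : G.off Λ T ⊆ G.off Λ T ∪ A := subset_union_left
  have s2 : pr p (G.off Λ T ∪ A) (fun ω => A ⊆ ω) = p ^ A.card :=
    pr_contain p subset_union_right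
  have s3 := gx_over G p Λ T y hoff
  have s4 := harris_pr h0 h1 (G.off Λ T ∪ A) (A := fun ω => A ⊆ ω)
    (B := fun ω : Finset E => G.Exit Λ (↑ω : Set E) {z | z ∉ T} y)
    (fun ω ω' h h' => h'.trans h)
    (fun ω ω' h h' => h'.mono (Subset.refl _) (coe_subset.2 h) (Set.Subset.refl _))
  have s5 : pr p (G.off Λ T ∪ A) (fun ω => A ⊆ ω ∧ G.Exit Λ (↑ω : Set E) {z | z ∉ T} y) ≤
      pr p (G.off Λ T ∪ A) (fun ω : Finset E => G.Exit Λ (↑ω : Set E) {z | z ∉ T} w) := by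
    refine pr_mono h0 h1 fun ω _ hω => ?_
    obtain ⟨z, hz, hr⟩ := hω.2
    exact ⟨z, hz, Gr.Reach.trans (hA.mono (coe_subset.2 hω.1) (Set.Subset.refl _)) hr⟩
  have s6 := gx_over G p Λ T w hoff
  have s7 : pr p (G.off Λ T) (fun ω : Finset E => G.Exit Λ (↑ω : Set E) {z | z ∉ T} w) ≤
      G.acc p Λ T e := by
    refine pr_mono h0 h1 fun ω _ hω => ?_
    exact ⟨w, hw, hew, hω⟩
  calc p ^ A.card * gx G p Λ T y
      = pr p (G.off Λ T ∪ A) (fun ω => A ⊆ ω) *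
          pr p (G.off Λ T ∪ A) (fun ω : Finset E => G.Exit Λ (↑ω : Set E) {z | z ∉ T} y) := by
        rw [s2, s3, gx]
    _ ≤ _ := s4
    _ ≤ _ := s5
    _ = _ := s6
    _ ≤ _ := s7

variable {Γ E : Type} [Group Γ] [DecidableEq Γ] [DecidableEq E] {G : Gr Γ E} {S : Finset Γ}

theorem path_to (hG : IsCay G S) {T : Finset Γ} {y : Γ} {n : ℕ} (hy : y ∉ T)
    (hyn : y ∈ nb S T n) :
    ∃ e ∈ G.cut T, ∃ w, w ∉ T ∧ (G.a e = w ∨ G.b e = w) ∧ G.a e ∈ sh y (bl S n) ∧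
      ∃ A : Finset E, A.card ≤ n ∧ G.Reach (↑A : Set E) {z | z ∉ T} w y := by
  obtain ⟨t, ht, hty⟩ := mem_nb.1 hyn
  have h1 : y⁻¹ * t ∈ bl S n := by
    have := inv_mem_bl hG.symm hty
    rwa [mul_inv_rev, inv_inv] at this
  obtain ⟨A, hAc, hAsub, hr⟩ := path_edges hG y h1
  rw [mul_inv_cancel_left] at hr
  obtain ⟨e, he, u, w, hu, hw, hab, huU, hwU, -, hr2⟩ := hr.symm.last_exit ht hy
  refine ⟨e, ?_, w, hw, ?_, ?_, A, hAc, hr2.mono (Set.Subset.refl _) Set.inter_subset_right⟩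
  · rw [Gr.mem_cut]
    rcases hab with ⟨rfl, rfl⟩ | ⟨rfl, rfl⟩
    · exact Or.inl ⟨hu, hw⟩
    · exact Or.inr ⟨hw, hu⟩
  · rcases hab with ⟨rfl, rfl⟩ | ⟨rfl, rfl⟩
    · exact Or.inr rfl
    · exact Or.inl rfl
  · rcases hab with ⟨rfl, rfl⟩ | ⟨rfl, rfl⟩
    · exact mem_coe.1 huU
    · exact mem_coe.1 hwU

theorem sum_gx_le (hG : IsCay G S) {p : ℝ} (h0 : 0 < p) (h1 : p ≤ 1) (Λ T : Finset Γ)
    (n : ℕ) :
    ∑ y ∈ (nb S T n).filter (fun y => y ∉ T), gx G p Λ T y ≤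
      p⁻¹ ^ n * ((bl S n).card : ℝ) * ∑ e ∈ G.cut T, G.acc p Λ T e := by
  classical
  have hacc : ∀ e, 0 ≤ G.acc p Λ T e := fun e => pr_nonneg h0.le h1 _ _
  have hp : 0 < p ^ n := pow_pos h0 n
  have hpi : (0 : ℝ) ≤ p⁻¹ ^ n := by positivity
  have key : ∀ y ∈ (nb S T n).filter (fun y => y ∉ T), gx G p Λ T y ≤
      p⁻¹ ^ n * ∑ e ∈ G.cut T, (if G.a e ∈ sh y (bl S n) then G.acc p Λ T e else 0) := by
    intro y hy
    rw [mem_filter] at hy
    obtain ⟨e, he, w, hw, hew, hae, A, hAc, hr⟩ := path_to hG hy.2 hy.1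
    have h2 := acc_ge G h0.le h1 (Λ := Λ) hw hew hr
    have h3 : p ^ n * gx G p Λ T y ≤ G.acc p Λ T e :=
      (mul_le_mul_of_nonneg_right (pow_le_pow_of_le_one h0.le h1 hAc)
        (gx_nonneg G h0.le h1 Λ T y)).trans h2
    have h4 : G.acc p Λ T e ≤
        ∑ e ∈ G.cut T, (if G.a e ∈ sh y (bl S n) then G.acc p Λ T e else 0) := by
      have h5 := single_le_sum (f := fun e => if G.a e ∈ sh y (bl S n) then G.acc p Λ T e else 0)
        (fun e _ => by
          show 0 ≤ if G.a e ∈ sh y (bl S n) then G.acc p Λ T e else 0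
          split_ifs
          · exact hacc e
          · exact le_rfl) he
      simpa only [if_pos hae] using h5
    have h6 : gx G p Λ T y ≤ p⁻¹ ^ n * G.acc p Λ T e := by
      rw [inv_pow, inv_mul_eq_div, le_div_iff₀ hp, mul_comm]
      exact h3
    exact h6.trans (mul_le_mul_of_nonneg_left h4 hpi)
  have hcount : ∀ e ∈ G.cut T,
      ∑ y ∈ (nb S T n).filter (fun y => y ∉ T),
        (if G.a e ∈ sh y (bl S n) then G.acc p Λ T e else 0) ≤
      ((bl S n).card : ℝ) * G.acc p Λ T e := by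
    intro e _
    rw [← sum_filter, sum_const, nsmul_eq_mul]
    refine mul_le_mul_of_nonneg_right ?_ (hacc e)
    have h7 : (((nb S T n).filter (fun y => y ∉ T)).filter
        (fun y => G.a e ∈ sh y (bl S n))).card ≤ (bl S n).card := by
      refine card_le_card_of_injOn (fun y => y⁻¹ * G.a e) ?_ ?_
      · intro y hy
        rw [mem_coe, mem_filter] at hy
        exact mem_coe.2 (mem_sh.1 hy.2)
      · intro y _ y' _ h
        exact inv_injective (mul_right_cancel h)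
    exact_mod_cast h7
  calc ∑ y ∈ (nb S T n).filter (fun y => y ∉ T), gx G p Λ T y
      ≤ ∑ y ∈ (nb S T n).filter (fun y => y ∉ T),
          p⁻¹ ^ n * ∑ e ∈ G.cut T, (if G.a e ∈ sh y (bl S n) then G.acc p Λ T e else 0) :=
        sum_le_sum key
    _ = p⁻¹ ^ n * ∑ e ∈ G.cut T, ∑ y ∈ (nb S T n).filter (fun y => y ∉ T),
          (if G.a e ∈ sh y (bl S n) then G.acc p Λ T e else 0) := by
        rw [← mul_sum, sum_comm]
    _ ≤ p⁻¹ ^ n * ∑ e ∈ G.cut T, ((bl S n).card : ℝ) * G.acc p Λ T e :=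
        mul_le_mul_of_nonneg_left (sum_le_sum hcount) hpi
    _ = _ := by rw [← mul_sum, mul_assoc]

end Pool.Agent.CGA
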