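import Pool.Agent.CGA.Defs

/-!
# CGA/AutS: invariance under automorphisms which may exchange the end points of an edge

Same proofs as `Pool/Agent/DLP/Aut.lean` (finished file; there the end points are not exchanged).
* `step_autS`: `φ.h`, both cases; `Step` is symmetric in the two end points.
* `reach_autS`: `Relation.ReflTransGen.lift` for `φ` and for the inverse (or induction).
* `inn_mapS`, `touch_mapS`, `cut_mapS`: extensionality with `Gr.mem_inn`, `Gr.mem_touch`, `Gr.mem_cut`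
  (every edge is `φ.e e'`; both cases of `φ.h`; the conditions are symmetric in `a`, `b`).
* `pr_inn_autS`, `pr_touch_autS`: `pr_map`.
-/

namespace Pool.Agent.CGA

open Finset Pool.Agent.DLP

variable {V E : Type} [DecidableEq V] [DecidableEq E] {G : Gr V E}

theorem step_autS (φ : AutS G) (ω : Set E) (x y : V) :
    G.Step (φ.e '' ω) (φ.v x) (φ.v y) ↔ G.Step ω x y := by
  unfold Gr.Step
  constructor
  · rintro ⟨e, ⟨e', he', rfl⟩, h⟩
    refine ⟨e', he', ?_⟩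
    rcases φ.h e' with ⟨ha, hb⟩ | ⟨ha, hb⟩ <;> rw [ha, hb] at h <;>
      rcases h with ⟨h1, h2⟩ | ⟨h1, h2⟩
    · exact Or.inl ⟨φ.v.injective h1, φ.v.injective h2⟩
    · exact Or.inr ⟨φ.v.injective h1, φ.v.injective h2⟩
    · exact Or.inr ⟨φ.v.injective h2, φ.v.injective h1⟩
    · exact Or.inl ⟨φ.v.injective h2, φ.v.injective h1⟩
  · rintro ⟨e', he', h⟩
    refine ⟨φ.e e', ⟨e', he', rfl⟩, ?_⟩
    rcases φ.h e' with ⟨ha, hb⟩ | ⟨ha, hb⟩ <;> rw [ha, hb] <;>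
      rcases h with ⟨rfl, rfl⟩ | ⟨rfl, rfl⟩
    · exact Or.inl ⟨rfl, rfl⟩
    · exact Or.inr ⟨rfl, rfl⟩
    · exact Or.inr ⟨rfl, rfl⟩
    · exact Or.inl ⟨rfl, rfl⟩

theorem reach_autS (φ : AutS G) (ω : Set E) (U : Set V) (x y : V) :
    G.Reach (φ.e '' ω) (φ.v '' U) (φ.v x) (φ.v y) ↔ G.Reach ω U x y := by
  unfold Gr.Reach
  constructor
  · intro h
    have h2 : Relation.ReflTransGen (fun x y => G.Step ω x y ∧ x ∈ U ∧ y ∈ U)
        (φ.v.symm (φ.v x)) (φ.v.symm (φ.v y)) := by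
      refine Relation.ReflTransGen.lift φ.v.symm ?_ _ _ h
      rintro a b ⟨h1, ⟨a', ha', rfl⟩, ⟨b', hb', rfl⟩⟩
      show G.Step ω (φ.v.symm (φ.v a')) (φ.v.symm (φ.v b')) ∧ φ.v.symm (φ.v a') ∈ U ∧
        φ.v.symm (φ.v b') ∈ U
      rw [Equiv.symm_apply_apply, Equiv.symm_apply_apply]
      exact ⟨(step_autS φ ω _ _).1 h1, ha', hb'⟩
    rwa [Equiv.symm_apply_apply, Equiv.symm_apply_apply] at h2
  · intro h
    refine Relation.ReflTransGen.lift φ.v ?_ _ _ h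
    rintro a b ⟨h1, ha, hb⟩
    exact ⟨(step_autS φ ω _ _).2 h1, ⟨a, ha, rfl⟩, ⟨b, hb, rfl⟩⟩

private theorem mem_mapv (φ : AutS G) (B : Finset V) (z : V) :
    φ.v z ∈ B.map φ.v.toEmbedding ↔ z ∈ B :=
  Finset.mem_map' φ.v.toEmbedding

private theorem mem_mape (φ : AutS G) (B : Finset E) (z : E) :
    φ.e z ∈ B.map φ.e.toEmbedding ↔ z ∈ B :=
  Finset.mem_map' φ.e.toEmbedding

theorem inn_mapS (φ : AutS G) (B : Finset V) :
    G.inn (B.map φ.v.toEmbedding) = (G.inn B).map φ.e.toEmbedding := by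
  ext e
  obtain ⟨e, rfl⟩ := φ.e.surjective e
  rcases φ.h e with ⟨ha, hb⟩ | ⟨ha, hb⟩
  · rw [mem_mape, Gr.mem_inn, Gr.mem_inn, ha, hb, mem_mapv, mem_mapv]
  · rw [mem_mape, Gr.mem_inn, Gr.mem_inn, ha, hb, mem_mapv, mem_mapv, and_comm]

theorem touch_mapS (φ : AutS G) (B : Finset V) :
    G.touch (B.map φ.v.toEmbedding) = (G.touch B).map φ.e.toEmbedding := by
  ext e
  obtain ⟨e, rfl⟩ := φ.e.surjective e
  rcases φ.h e with ⟨ha, hb⟩ | ⟨ha, hb⟩
  · rw [mem_mape, Gr.mem_touch, Gr.mem_touch, ha, hb, mem_mapv, mem_mapv]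
  · rw [mem_mape, Gr.mem_touch, Gr.mem_touch, ha, hb, mem_mapv, mem_mapv, or_comm]

theorem cut_mapS (φ : AutS G) (B : Finset V) :
    G.cut (B.map φ.v.toEmbedding) = (G.cut B).map φ.e.toEmbedding := by
  ext e
  obtain ⟨e, rfl⟩ := φ.e.surjective e
  rw [mem_mape]
  unfold Gr.cut
  rw [Finset.mem_filter, Finset.mem_filter, touch_mapS, mem_mape]
  rcases φ.h e with ⟨ha, hb⟩ | ⟨ha, hb⟩
  · rw [ha, hb, mem_mapv, mem_mapv]
  · rw [ha, hb, mem_mapv, mem_mapv, and_comm (a := G.b e ∈ B)]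

theorem inc_mapS (φ : AutS G) (x : V) : G.inc (φ.v x) = (G.inc x).map φ.e.toEmbedding := by
  ext e
  obtain ⟨e, rfl⟩ := φ.e.surjective e
  rw [mem_mape, G.mem_inc, G.mem_inc]
  rcases φ.h e with ⟨ha, hb⟩ | ⟨ha, hb⟩
  · rw [ha, hb, φ.v.injective.eq_iff, φ.v.injective.eq_iff]
  · rw [ha, hb, φ.v.injective.eq_iff, φ.v.injective.eq_iff, or_comm]

theorem pr_inn_autS (φ : AutS G) (p : ℝ) (B : Finset V) (A : Finset E → Prop) :
    pr p (G.inn (B.map φ.v.toEmbedding)) A =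
      pr p (G.inn B) (fun ω => A (ω.map φ.e.toEmbedding)) := by
  rw [inn_mapS, pr_map]

theorem pr_touch_autS (φ : AutS G) (p : ℝ) (B : Finset V) (A : Finset E → Prop) :
    pr p (G.touch (B.map φ.v.toEmbedding)) A =
      pr p (G.touch B) (fun ω => A (ω.map φ.e.toEmbedding)) := by
  rw [touch_mapS, pr_map]

end Pool.Agent.CGA
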