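import Pool.Agent.CGA.Defs

/-!
# CGA/Ball: balls and translates in the group (no percolation)

All elementary. `bl S (n+1) = bl S n ∪ bl S n * S`.
* `mul_mem_bl`: induction on `n` (radius of `h`): `h = h' s`, associativity.
* `inv_mem_bl`: induction on `n`: `(g s)⁻¹ = s⁻¹ g⁻¹ ∈ bl 1 * bl n`, `mul_mem_bl`, `n + 1 = 1 + n`.
* `card_bl_le`: `|A ∪ A * S| ≤ |A| + |A| |S|`.
* `notMem_nb_iff`: `z` is at distance `> n` from `T` iff the ball of radius `n` around `z` does not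
  meet `T`; needs `inv_mem_bl`.
* `meet_ball`: `w = x g = y h`, `x⁻¹ y = g h⁻¹`.
* `exit_ball`: induction on `n`: `b = b₁ s` with `b₁ ∈ bl S n`, `s ∈ S` (or `b ∈ bl S n`): if
  `g b₁ ∈ R` then `g b₁ ∈ bd S R`, otherwise the induction hypothesis for `b₁`. For `n = 0`, `b = 1` is
  impossible.
-/

namespace Pool.Agent.CGA

open Finset Pool.Agent.DLP

variable {Γ : Type} [Group Γ] [DecidableEq Γ] {S : Finset Γ}

private theorem mem_succ {n : ℕ} {g : Γ} :
    g ∈ bl S (n + 1) ↔ g ∈ bl S n ∨ ∃ a ∈ bl S n, ∃ s ∈ S, a * s = g := by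
  rw [bl, mem_union, mem_image₂]

theorem one_mem_bl (S : Finset Γ) (n : ℕ) : (1 : Γ) ∈ bl S n := by
  induction n with
  | zero => simp [bl]
  | succ n ih => exact mem_succ.2 (Or.inl ih)

theorem bl_mono {m n : ℕ} (h : m ≤ n) : bl S m ⊆ bl S n := by
  induction h with
  | refl => exact Subset.refl _
  | step _ ih => exact ih.trans (fun _ hx => mem_succ.2 (Or.inl hx))

theorem mem_bl_one {s : Γ} (hs : s ∈ S) : s ∈ bl S 1 :=
  mem_succ.2 (Or.inr ⟨1, one_mem_bl S 0, s, hs, one_mul s⟩)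

theorem mul_mem_bl {m n : ℕ} {g h : Γ} (hg : g ∈ bl S m) (hh : h ∈ bl S n) :
    g * h ∈ bl S (m + n) := by
  induction n generalizing h with
  | zero =>
    rw [bl, mem_singleton] at hh
    rw [hh, mul_one, add_zero]
    exact hg
  | succ n ih =>
    rw [← add_assoc]
    rcases mem_succ.1 hh with h1 | ⟨a, ha, s, hs, rfl⟩
    · exact mem_succ.2 (Or.inl (ih h1))
    · exact mem_succ.2 (Or.inr ⟨g * a, ih ha, s, hs, mul_assoc _ _ _⟩)

theorem inv_mem_bl (hS : ∀ s ∈ S, s⁻¹ ∈ S) {n : ℕ} {g : Γ} (hg : g ∈ bl S n) :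
    g⁻¹ ∈ bl S n := by
  induction n generalizing g with
  | zero =>
    rw [bl, mem_singleton] at hg ⊢
    rw [hg, inv_one]
  | succ n ih =>
    rcases mem_succ.1 hg with h1 | ⟨a, ha, s, hs, rfl⟩
    · exact mem_succ.2 (Or.inl (ih h1))
    · rw [mul_inv_rev, add_comm]
      exact mul_mem_bl (mem_bl_one (hS s hs)) (ih ha)

theorem card_bl_le (S : Finset Γ) (n : ℕ) : (bl S n).card ≤ (S.card + 1) ^ n := by
  induction n with
  | zero => simp [bl]
  | succ n ih =>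
    rw [bl]
    calc (bl S n ∪ image₂ (fun g s => g * s) (bl S n) S).card
        ≤ (bl S n).card + (image₂ (fun g s => g * s) (bl S n) S).card := card_union_le _ _
      _ ≤ (bl S n).card + (bl S n).card * S.card := by
          gcongr
          exact card_image₂_le _ _ _
      _ = (bl S n).card * (S.card + 1) := by ring
      _ ≤ (S.card + 1) ^ n * (S.card + 1) := by gcongr
      _ = (S.card + 1) ^ (n + 1) := (pow_succ _ _).symm

theorem mem_sh {g x : Γ} {B : Finset Γ} : x ∈ sh g B ↔ g⁻¹ * x ∈ B := by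
  rw [sh, mem_image]
  constructor
  · rintro ⟨a, ha, rfl⟩
    rw [inv_mul_cancel_left]
    exact ha
  · intro h
    exact ⟨_, h, mul_inv_cancel_left g x⟩

theorem mul_mem_sh {g x : Γ} {B : Finset Γ} : g * x ∈ sh g B ↔ x ∈ B := by
  rw [mem_sh, inv_mul_cancel_left]

theorem card_sh (g : Γ) (B : Finset Γ) : (sh g B).card = B.card :=
  card_image_of_injective _ (mul_right_injective g)

theorem sh_sh (g h : Γ) (B : Finset Γ) : sh g (sh h B) = sh (g * h) B := by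
  ext x
  rw [mem_sh, mem_sh, mem_sh, mul_inv_rev, mul_assoc]

theorem sh_one (B : Finset Γ) : sh 1 B = B := by
  ext x
  rw [mem_sh, inv_one, one_mul]

theorem sh_mono (g : Γ) {A B : Finset Γ} (h : A ⊆ B) : sh g A ⊆ sh g B :=
  fun _ hx => mem_sh.2 (h (mem_sh.1 hx))

theorem mem_nb {T : Finset Γ} {n : ℕ} {z : Γ} :
    z ∈ nb S T n ↔ ∃ t ∈ T, t⁻¹ * z ∈ bl S n := by
  rw [nb, mem_biUnion]
  simp only [mem_sh]

theorem subset_nb (S T : Finset Γ) (n : ℕ) : T ⊆ nb S T n := by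
  intro t ht
  refine mem_nb.2 ⟨t, ht, ?_⟩
  rw [inv_mul_cancel]
  exact one_mem_bl S n

theorem nb_mono {T : Finset Γ} {m n : ℕ} (h : m ≤ n) : nb S T m ⊆ nb S T n := by
  intro z hz
  obtain ⟨t, ht, h1⟩ := mem_nb.1 hz
  exact mem_nb.2 ⟨t, ht, bl_mono h h1⟩

theorem nb_mul {T : Finset Γ} {m n : ℕ} {z g : Γ} (hz : z ∈ nb S T m) (hg : g ∈ bl S n) :
    z * g ∈ nb S T (m + n) := by
  obtain ⟨t, ht, h1⟩ := mem_nb.1 hz
  refine mem_nb.2 ⟨t, ht, ?_⟩
  rw [← mul_assoc]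
  exact mul_mem_bl h1 hg

theorem notMem_nb_iff (hS : ∀ s ∈ S, s⁻¹ ∈ S) {T : Finset Γ} {n : ℕ} {z : Γ} :
    z ∉ nb S T n ↔ Disjoint (sh z (bl S n)) T := by
  rw [disjoint_left, mem_nb]
  constructor
  · intro h t ht hT
    refine h ⟨t, hT, ?_⟩
    have := inv_mem_bl hS (mem_sh.1 ht)
    rwa [mul_inv_rev, inv_inv] at this
  · rintro h ⟨t, ht, h1⟩
    refine h (mem_sh.2 ?_) ht
    have := inv_mem_bl hS h1
    rwa [mul_inv_rev, inv_inv] at this

theorem meet_ball (hS : ∀ s ∈ S, s⁻¹ ∈ S) {x y : Γ} {m n : ℕ}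
    (h : ¬ Disjoint (sh x (bl S m)) (sh y (bl S n))) : x⁻¹ * y ∈ bl S (m + n) := by
  rw [not_disjoint_iff] at h
  obtain ⟨w, h1, h2⟩ := h
  have h3 := inv_mem_bl hS (mem_sh.1 h2)
  have h4 := mul_mem_bl (mem_sh.1 h1) h3
  rwa [mul_inv_rev, inv_inv, mul_assoc, mul_inv_cancel_left] at h4

theorem exit_ball {R : Finset Γ} {g b : Γ} {n : ℕ} (hg : g ∈ R) (hb : b ∈ bl S n)
    (hgb : g * b ∉ R) : ∃ b' ∈ bl S n, g * b' ∈ bd S R := by
  induction n generalizing b with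
  | zero =>
    rw [bl, mem_singleton] at hb
    rw [hb, mul_one] at hgb
    exact absurd hg hgb
  | succ n ih =>
    rcases mem_succ.1 hb with h1 | ⟨a, ha, s, hs, rfl⟩
    · obtain ⟨b', hb', h2⟩ := ih h1 hgb
      exact ⟨b', bl_mono (Nat.le_succ n) hb', h2⟩
    · by_cases h3 : g * a ∈ R
      · refine ⟨a, bl_mono (Nat.le_succ n) ha, ?_⟩
        rw [bd, mem_filter]
        refine ⟨h3, s, hs, ?_⟩
        rw [mul_assoc]
        exact hgb
      · obtain ⟨b', hb', h2⟩ := ih ha h3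
        exact ⟨b', bl_mono (Nat.le_succ n) hb', h2⟩

theorem bd_subset (S R : Finset Γ) : bd S R ⊆ R := filter_subset _ _

theorem bd_sh (g : Γ) (S R : Finset Γ) : bd S (sh g R) = sh g (bd S R) := by
  ext x
  rw [mem_sh, bd, bd, mem_filter, mem_filter, mem_sh]
  simp only [mem_sh, mul_assoc]

end Pool.Agent.CGA
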