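import Pool.Agent.CGA.AutS
import Pool.Agent.CGA.Ball

/-!
# CGA/CayB: elementary facts on Cayley graphs `IsCay G S`

* `cay_countable`: `Γ = ⋃ n, bl S n`; `cay_countableE`: every edge is in `inc (a e)`.
* `inc_card`: the automorphism of `act g` maps `1` to `g` (`inc_mapS`).
* `bd_card_le`: for `x ∈ bd S R` choose `s ∈ S` with `x s ∉ R` and an edge joining `x` and `x s` (`edge`):
  it is in `cut R`, and `x` is its only end point in `R`, so the choice is injective
  (`Finset.card_le_card_of_injOn`).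
* `path_edges`: induction on `n`: `g = g' s`: the path to `x g'` inside the ball of radius `n`
  (`Reach.mono`, `inn_mono`, `bl_mono`) and one more edge (`edge`), whose end points are in the ball
  of radius `n + 1`. In the other case `g ∈ bl S n` use the induction hypothesis directly.
* `ball_conn`: all points of the ball are joined to `g` (`path_edges` gives `A ⊆ inn ⊆ ω`).
* `cut_pos`: `T ≠ univ`; choose `t ∈ T` and `y ∉ T`; `t⁻¹ y ∈ bl S n`; the path of `path_edges` leaves `T`
  through an edge of `cut T` (`Reach.exists_cut_edge`).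
* `card_cut_le`: `cut B ⊆ touch B = ⋃ inc v`.
-/

namespace Pool.Agent.CGA

open Finset Pool.Agent.DLP

variable {Γ E : Type} [Group Γ] [DecidableEq Γ] [DecidableEq E] {G : Gr Γ E} {S : Finset Γ}

theorem cay_adj' (hG : IsCay G S) (e : E) : (G.b e)⁻¹ * G.a e ∈ S := by
  have h := hG.symm _ (hG.adj e)
  rwa [mul_inv_rev, inv_inv] at h

theorem cay_countable (hG : IsCay G S) : Countable Γ := by
  have h : (Set.univ : Set Γ) ⊆ ⋃ n : ℕ, (↑(bl S n) : Set Γ) := fun g _ => by
    obtain ⟨n, hn⟩ := hG.gen g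
    exact Set.mem_iUnion.2 ⟨n, hn⟩
  exact Set.countable_univ_iff.1
    ((Set.countable_iUnion fun n => (bl S n).countable_toSet).mono h)

theorem cay_countableE (hG : IsCay G S) : Countable E := by
  have := cay_countable hG
  have h : (Set.univ : Set E) ⊆ ⋃ g : Γ, (↑(G.inc g) : Set E) := fun e _ =>
    Set.mem_iUnion.2 ⟨G.a e, by
      rw [Finset.mem_coe, G.mem_inc]
      exact Or.inl rfl⟩
  exact Set.countable_univ_iff.1
    ((Set.countable_iUnion fun n => (G.inc n).countable_toSet).mono h)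

theorem inc_card (hG : IsCay G S) (g : Γ) : (G.inc g).card = (G.inc 1).card := by
  obtain ⟨φ, hφ⟩ := hG.act g
  have h1 : φ.v 1 = g := by rw [hφ, mul_one]
  rw [← h1, inc_mapS, Finset.card_map]

theorem card_cut_le (hG : IsCay G S) (B : Finset Γ) :
    (G.cut B).card ≤ (G.inc 1).card * B.card := by
  refine (Finset.card_le_card (G.cut_subset_touch B)).trans ?_
  unfold Gr.touch
  refine Finset.card_biUnion_le.trans ?_
  rw [Finset.sum_congr rfl fun v _ => inc_card hG v, Finset.sum_const, smul_eq_mul, mul_comm]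

theorem bd_card_le (hG : IsCay G S) (R : Finset Γ) : (bd S R).card ≤ (G.cut R).card := by
  classical
  have h : ∀ x ∈ bd S R, ∃ e ∈ G.cut R,
      (G.a e = x ∧ G.b e ∉ R) ∨ (G.b e = x ∧ G.a e ∉ R) := by
    intro x hx
    unfold bd at hx
    rw [Finset.mem_filter] at hx
    obtain ⟨hxR, s, hs, hxs⟩ := hx
    obtain ⟨e, he⟩ := hG.edge x s hs
    rcases he with ⟨h1, h2⟩ | ⟨h1, h2⟩
    · refine ⟨e, ?_, Or.inl ⟨h1, ?_⟩⟩
      · rw [Gr.mem_cut, h1, h2]
        exact Or.inl ⟨hxR, hxs⟩
      · rw [h2]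
        exact hxs
    · refine ⟨e, ?_, Or.inr ⟨h2, ?_⟩⟩
      · rw [Gr.mem_cut, h1, h2]
        exact Or.inr ⟨hxs, hxR⟩
      · rw [h1]
        exact hxs
  rcases (bd S R).eq_empty_or_nonempty with h0 | ⟨x₀, hx₀⟩
  · rw [h0, Finset.card_empty]
    exact Nat.zero_le _
  have : Nonempty E := ⟨(h x₀ hx₀).choose⟩
  choose! f hf hf2 using h
  refine Finset.card_le_card_of_injOn f (fun x hx => hf x hx) ?_
  intro x hx y hy hxy
  have hxR : x ∈ R := bd_subset S R hx
  have hyR : y ∈ R := bd_subset S R hy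
  have h1 := hf2 x hx
  have h2 := hf2 y hy
  rw [← hxy] at h2
  rcases h1 with ⟨a1, b1⟩ | ⟨a1, b1⟩ <;> rcases h2 with ⟨a2, b2⟩ | ⟨a2, b2⟩
  · rw [← a1, a2]
  · exact absurd (by rw [a1]; exact hxR) b2
  · exact absurd (by rw [a1]; exact hxR) b2
  · rw [← a1, a2]

theorem path_edges (hG : IsCay G S) (x : Γ) {n : ℕ} {g : Γ} (hg : g ∈ bl S n) :
    ∃ A : Finset E, A.card ≤ n ∧ A ⊆ G.inn (sh x (bl S n)) ∧
      G.Reach (↑A : Set E) (↑(sh x (bl S n)) : Set Γ) x (x * g) := by
  induction n generalizing g with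
  | zero =>
    have h1 : g = 1 := by
      unfold bl at hg
      exact Finset.mem_singleton.1 hg
    refine ⟨∅, le_rfl, Finset.empty_subset _, ?_⟩
    rw [h1, mul_one]
    exact Gr.Reach.refl G _ _ _
  | succ n ih =>
    have hmono : sh x (bl S n) ⊆ sh x (bl S (n + 1)) := sh_mono x (bl_mono (Nat.le_succ n))
    have hg' := hg
    unfold bl at hg
    rw [Finset.mem_union, Finset.mem_image₂] at hg
    rcases hg with hg | ⟨g', hg1, s, hs, rfl⟩
    · obtain ⟨A, h1, h2, h3⟩ := ih hg
      exact ⟨A, h1.trans (Nat.le_succ n), h2.trans (G.inn_mono hmono),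
        h3.mono (subset_refl _) (Finset.coe_subset.2 hmono)⟩
    · obtain ⟨A, h1, h2, h3⟩ := ih hg1
      obtain ⟨e, he⟩ := hG.edge (x * g') s hs
      have m1 : x * g' ∈ sh x (bl S (n + 1)) := hmono (mul_mem_sh.2 hg1)
      have m2 : x * g' * s ∈ sh x (bl S (n + 1)) := by
        rw [mul_assoc]
        exact mul_mem_sh.2 hg'
      refine ⟨insert e A, (Finset.card_insert_le e A).trans (Nat.succ_le_succ h1), ?_, ?_⟩
      · refine Finset.insert_subset ?_ (h2.trans (G.inn_mono hmono))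
        rw [Gr.mem_inn]
        rcases he with ⟨a1, b1⟩ | ⟨a1, b1⟩ <;> rw [a1, b1]
        · exact ⟨m1, m2⟩
        · exact ⟨m2, m1⟩
      · have h4 : G.Reach (↑(insert e A) : Set E) (↑(sh x (bl S (n + 1))) : Set Γ) x (x * g') :=
          h3.mono (Finset.coe_subset.2 (Finset.subset_insert e A)) (Finset.coe_subset.2 hmono)
        refine h4.trans ?_
        have he1 : e ∈ (↑(insert e A) : Set E) := Finset.mem_coe.2 (Finset.mem_insert_self e A)
        rw [← mul_assoc]
        rcases he with ⟨a1, b1⟩ | ⟨a1, b1⟩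
        · have h5 := Gr.Reach.edge (G := G) (U := (↑(sh x (bl S (n + 1))) : Set Γ)) he1
            (by rw [a1]; exact m1) (by rw [b1]; exact m2)
          rwa [a1, b1] at h5
        · have h5 := Gr.Reach.edge (G := G) (U := (↑(sh x (bl S (n + 1))) : Set Γ)) he1
            (by rw [a1]; exact m2) (by rw [b1]; exact m1)
          rw [a1, b1] at h5
          exact h5.symm

theorem ball_conn (hG : IsCay G S) (g : Γ) (n : ℕ) {ω : Finset E}
    (hω : G.inn (sh g (bl S n)) ⊆ ω) {x y : Γ} (hx : x ∈ sh g (bl S n))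
    (hy : y ∈ sh g (bl S n)) :
    G.Reach (↑ω : Set E) (↑(sh g (bl S n)) : Set Γ) x y := by
  have key : ∀ z ∈ sh g (bl S n), G.Reach (↑ω : Set E) (↑(sh g (bl S n)) : Set Γ) g z := by
    intro z hz
    obtain ⟨A, -, h2, h3⟩ := path_edges hG g (mem_sh.1 hz)
    rw [mul_inv_cancel_left] at h3
    exact h3.mono (Finset.coe_subset.2 (h2.trans hω)) (subset_refl _)
  exact (key x hx).symm.trans (key y hy)

theorem cut_pos (hG : IsCay G S) [Infinite Γ] {T : Finset Γ} (hT : T.Nonempty) :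
    1 ≤ (G.cut T).card := by
  obtain ⟨t, ht⟩ := hT
  obtain ⟨y, hy⟩ := Infinite.exists_notMem_finset T
  obtain ⟨n, hn⟩ := hG.gen (t⁻¹ * y)
  obtain ⟨A, -, -, h3⟩ := path_edges hG t hn
  rw [mul_inv_cancel_left] at h3
  obtain ⟨e, he, -⟩ := h3.exists_cut_edge ht hy
  exact Finset.card_pos.2 ⟨e, he⟩

theorem deg_pos (hG : IsCay G S) [Infinite Γ] : 1 ≤ (G.inc 1).card := by
  have h1 := cut_pos hG (T := {1}) (Finset.singleton_nonempty 1)
  have h2 := card_cut_le hG {1}
  rw [Finset.card_singleton, mul_one] at h2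
  exact h1.trans h2

end Pool.Agent.CGA
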