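import Pool.Agent.CGA.Defs
import Pool.Agent.DLP.Trick
import Pool.Agent.DLP.Iso

/-!
# CGA/DiscG: disconnection probabilities; boundaries at `p = 1` (general graphs)

Same proofs as `disc_bound` in `Pool/Agent/DLP/Phi.lean` and `iso_lower` in `Pool/Agent/DLP/Iso.lean`.
* `disc_gen`: `Gr.trick` with `Φ = κ |T| / log (|T|+1)` (`div_log_mono` for the sets `H ⊇ T`), and
  `((1-p)/(1-p₁))^Φ = exp (-(κ log ((1-p₁)/(1-p))) |T| / log (|T|+1))`.
* `iso_gen`: `acc ≤ 1` with `Λ = T`.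
-/

namespace Pool.Agent.CGA

open Finset Pool.Agent.DLP

variable {V E : Type} [DecidableEq V] [DecidableEq E] (G : Gr V E)

private theorem dg_log {n : ℕ} (hn : 1 ≤ n) : 0 < Real.log ((n : ℝ) + 1) := by
  apply Real.log_pos
  have : (1 : ℝ) ≤ n := by exact_mod_cast hn
  linarith

private theorem dg_div_log_mono {m n : ℕ} (hm : 1 ≤ m) (hmn : m ≤ n) :
    (m : ℝ) / Real.log (m + 1) ≤ (n : ℝ) / Real.log (n + 1) := by
  have hm0 : (0 : ℝ) < m := by exact_mod_cast hm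
  have hn0 : (0 : ℝ) < n := by exact_mod_cast (hm.trans hmn)
  rw [div_le_div_iff₀ (dg_log hm) (dg_log (hm.trans hmn))]
  have h1 : 1 ≤ (n : ℝ) / m := by
    rw [le_div_iff₀ hm0, one_mul]
    exact_mod_cast hmn
  have h2 := one_add_mul_self_le_rpow_one_add (s := (m : ℝ)) (by linarith) h1
  rw [div_mul_cancel₀ _ hm0.ne'] at h2
  have h3 := Real.log_le_log (by linarith) h2
  rw [Real.log_rpow (by linarith)] at h3
  rw [add_comm 1 (n : ℝ), add_comm 1 (m : ℝ)] at h3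
  calc (m : ℝ) * Real.log (n + 1) ≤ m * ((n : ℝ) / m * Real.log (m + 1)) :=
        mul_le_mul_of_nonneg_left h3 hm0.le
    _ = n * Real.log (m + 1) := by
        rw [← mul_assoc, mul_div_cancel₀ _ hm0.ne']

theorem disc_gen {p₁ p κ : ℝ} (h0 : 0 ≤ p₁) (h01 : p₁ < p) (h1 : p < 1) (hκ : 0 < κ)
    (hΦ : ∀ Λ T : Finset V, T ⊆ Λ → T.Nonempty →
      κ * T.card / Real.log (T.card + 1) ≤ ∑ e ∈ G.cut T, G.acc p₁ Λ T e) :
    ∃ c : ℝ, 0 < c ∧ ∀ Λ T : Finset V, T.Nonempty →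
      pr p (G.touch Λ) (fun ω => G.Disc Λ T ω) ≤
        Real.exp (-(c * T.card / Real.log (T.card + 1))) := by
  have h2 : 0 < 1 - p := by linarith
  have h3 : 0 < 1 - p₁ := by linarith
  have hκ0 : 0 < (1 - p) / (1 - p₁) := div_pos h2 h3
  have hκ1 : (1 - p) / (1 - p₁) < 1 := by
    rw [div_lt_one h3]
    linarith
  have hlogκ : 0 < -Real.log ((1 - p) / (1 - p₁)) := by
    have := Real.log_neg hκ0 hκ1
    linarith
  refine ⟨κ * (-Real.log ((1 - p) / (1 - p₁))), mul_pos hκ hlogκ, ?_⟩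
  intro Λ T hT
  have hcard : 1 ≤ T.card := hT.card_pos
  have h4 := G.trick h0 h01 h1 (Λ := Λ) (T := T)
    (Φ := κ * T.card / Real.log (T.card + 1)) (by
      intro H hTH hHΛ
      refine le_trans ?_ (hΦ Λ H hHΛ (hT.mono hTH))
      rw [mul_div_assoc, mul_div_assoc]
      exact mul_le_mul_of_nonneg_left (dg_div_log_mono hcard (card_le_card hTH)) hκ.le)
  refine h4.trans (le_of_eq ?_)
  rw [Real.rpow_def_of_pos hκ0]
  congr 1
  ring

theorem iso_gen {κ : ℝ} (hΦ : ∀ Λ T : Finset V, T ⊆ Λ → T.Nonempty →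
      κ * T.card / Real.log (T.card + 1) ≤ ∑ e ∈ G.cut T, G.acc 1 Λ T e) (T : Finset V)
    (hT : T.Nonempty) : κ * T.card / Real.log (T.card + 1) ≤ ((G.cut T).card : ℝ) := by
  refine (hΦ T T (Subset.refl _) hT).trans ?_
  have h2 : ∑ e ∈ G.cut T, G.acc 1 T T e ≤ ∑ _e ∈ G.cut T, (1 : ℝ) :=
    sum_le_sum fun e _ => pr_le_one zero_le_one le_rfl _ _
  refine h2.trans (le_of_eq ?_)
  simp

end Pool.Agent.CGA
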