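import Pool.Agent.CGA.TransG
import Pool.Agent.DLP.Inf1

/-!
# CGA/ThetaG: consequences of `p > pcG`

* `pcG_set`: `p = 1` is in the set of the definition of `pcG`: almost surely all the edges are open
  (`perc_one`, `cay_countableE`), and then the cluster of `1` is `univ` (`path_edges`: the edges of
  `A` are open; `Reach.mono`), which is infinite; so the probability is `1 > 0`.
* `theta_gen`: `exists_lt_of_csInf_lt` (nonempty by `pcG_set`) gives `p' < p` with
  `0 < perc E p' {infinite}`. Let `θ` be this probability (`ENNReal.toReal`). For `x ∈ Λ`: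
  `xt p' Λ x = xt p' (sh x⁻¹ Λ) 1` (`xt_sh`), `1 ∈ sh x⁻¹ Λ`, and
  `perc {infinite} ≤ perc {Exit (sh x⁻¹ Λ) (opn ω) univ 1} = ofReal (xt ..)` (`Gr.infinite_iff`,
  `Gr.perc_exit`). `p' > 0`: for `p' = 0` the exit probability from `Λ = {1}` is `0` (no open edge;
  or: `xt 0 = 0` because over `p = 0` only `ω = ∅` has positive weight). Compare
  `theta_of_pc` in `Pool/Agent/DLP/Theta.lean` (finished).
* `tau_one`: at `p = 1`: `cp_path`-like: `cp G 1 (bl S n) 1 g = 1` for `g ∈ bl S n`; here only: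
  `path_edges` gives `A` and `pr_contain` with `p = 1`.
-/

namespace Pool.Agent.CGA

open Finset Pool.Agent.DLP MeasureTheory

variable {Γ E : Type} [Group Γ] [DecidableEq Γ] [DecidableEq E] {G : Gr Γ E} {S : Finset Γ}

omit [DecidableEq Γ] [DecidableEq E] in
/-- With `p = 0` no edge is open. -/
private theorem ex_zero_TG {ι : Type} [DecidableEq ι] (F : Finset ι) (f : Finset ι → ℝ) :
    ex 0 F f = f ∅ := by
  induction F using Finset.induction_on with
  | empty => exact ex_empty 0 f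
  | insert i F hi ih => rw [ex_insert 0 hi f, ih]; ring

theorem pcG_set (hG : IsCay G S) [Infinite Γ] :
    0 < perc E 1 {ω | (G.cluster ω 1).Infinite} := by
  have hcE : Countable E := cay_countableE hG
  have hprob : IsProbabilityMeasure (perc E 1) := by
    unfold perc
    infer_instance
  have h : ∀ᵐ ω ∂(perc E 1), (G.cluster ω 1).Infinite := by
    filter_upwards [perc_one (E := E)] with ω hω
    have h1 : G.cluster ω 1 = Set.univ := by
      rw [Set.eq_univ_iff_forall]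
      intro g
      obtain ⟨n, hn⟩ := hG.gen g
      obtain ⟨A, _, _, hA⟩ := path_edges hG 1 hn
      rw [one_mul] at hA
      exact hA.mono (fun e _ => hω e) (Set.subset_univ _)
    rw [h1]
    exact Set.infinite_univ
  rw [pos_iff_ne_zero]
  intro h0
  have h1 : ∀ᵐ ω ∂(perc E 1), ω ∉ {ω | (G.cluster ω 1).Infinite} :=
    measure_eq_zero_iff_ae_notMem.1 h0
  have h2 : ∀ᵐ ω ∂(perc E 1), False := by
    filter_upwards [h, h1] with ω a b
    exact b a
  rw [Filter.eventually_false_iff_eq_bot, ae_eq_bot] at h2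
  exact IsProbabilityMeasure.ne_zero _ h2

theorem theta_gen (hG : IsCay G S) [Infinite Γ] {p : unitInterval} (hp : pcG G 1 < p) :
    ∃ p' θ : ℝ, 0 < p' ∧ p' < p ∧ 0 < θ ∧ ∀ Λ : Finset Γ, ∀ x ∈ Λ, θ ≤ xt G p' Λ x := by
  classical
  have hne : {r : ℝ | ∃ p : unitInterval, (p : ℝ) = r ∧
      0 < perc E p {ω | (G.cluster ω 1).Infinite}}.Nonempty :=
    ⟨1, 1, rfl, pcG_set hG⟩
  obtain ⟨r, ⟨p', rfl, hpos⟩, hlt⟩ := exists_lt_of_csInf_lt hne hp
  have hprob : IsProbabilityMeasure (perc E p') := by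
    unfold perc
    infer_instance
  have hfin : perc E p' {ω | (G.cluster ω 1).Infinite} ≠ ⊤ := measure_ne_top _ _
  obtain ⟨θ, hθ⟩ : ∃ θ : ℝ, θ = (perc E p' {ω | (G.cluster ω 1).Infinite}).toReal := ⟨_, rfl⟩
  have hθ0 : 0 < θ := by
    rw [hθ]
    exact ENNReal.toReal_pos hpos.ne' hfin
  have h0' : (0 : ℝ) ≤ p' := p'.2.1
  have h1' : (p' : ℝ) ≤ 1 := p'.2.2
  have hbase : ∀ Λ : Finset Γ, 1 ∈ Λ → θ ≤ xt G (p' : ℝ) Λ 1 := by
    intro Λ hΛ
    have e1 : perc E p' {ω | (G.cluster ω 1).Infinite} ≤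
        perc E p' {ω | G.Exit Λ (Gr.opn ω) Set.univ 1} := by
      refine measure_mono fun ω hω => ?_
      exact (Gr.infinite_iff G ω 1).1 hω Λ hΛ
    rw [Gr.perc_exit] at e1
    rw [hθ]
    exact ENNReal.toReal_le_of_le_ofReal (pr_nonneg h0' h1' _ _) e1
  have hall : ∀ (Λ : Finset Γ), ∀ x ∈ Λ, θ ≤ xt G (p' : ℝ) Λ x := by
    intro Λ x hx
    rw [← xt_sh hG (p' : ℝ) x⁻¹ Λ x, inv_mul_cancel]
    refine hbase _ ?_
    unfold sh
    rw [Finset.mem_image]
    exact ⟨x, hx, inv_mul_cancel x⟩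
  refine ⟨p', θ, ?_, hlt, hθ0, hall⟩
  rcases h0'.eq_or_lt with h | h
  · exfalso
    have e1 := hall {1} 1 (mem_singleton_self _)
    rw [← h] at e1
    have e2 : xt G 0 {1} 1 = 0 := by
      unfold xt pr
      rw [ex_zero_TG]
      rw [if_neg]
      rintro ⟨y, hy, hr⟩
      obtain ⟨e, he, _⟩ := hr.first_exit (B := {(1 : Γ)}) (mem_singleton_self _) hy
      simp at he
    rw [e2] at e1
    linarith
  · exact h

theorem tau_one (hG : IsCay G S) (g : Γ) : ∃ Λ : Finset Γ, (1 : ℝ) ≤ cp G 1 Λ 1 g := by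
  obtain ⟨n, hn⟩ := hG.gen g
  obtain ⟨A, _, hA1, hA2⟩ := path_edges hG 1 hn
  rw [one_mul] at hA2
  refine ⟨sh 1 (bl S n), ?_⟩
  unfold cp
  have h1 := pr_contain (ι := E) (1 : ℝ) hA1
  rw [one_pow] at h1
  refine h1.symm.le.trans (pr_mono (ι := E) zero_le_one le_rfl fun ω _ hω => ?_)
  have h2 : (↑A : Set E) ⊆ (↑ω : Set E) := fun e he => hω he
  exact hA2.mono h2 subset_rfl

end Pool.Agent.CGA
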