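import Pool.Agent.CGA.PhiG
import Pool.Agent.CGA.DiscG
import Pool.Agent.CGA.ThetaG

/-!
# CGA/CoreG: anchored isoperimetry for vertex sets

Same proof as `core_sets` in `Pool/Agent/DLP/MainA.lean` (finished). Case `p < 1`: `theta_gen` gives
`0 < p' < p` and `θ`; `tau_pos` (at `p'`) gives `c`; `phi_gen` (at `p'`) gives `κ`; let `p₀ = (p' + p)/2`;
`disc_gen` (`p₁ = p'`, `p = p₀`) gives `c'`: `P_{p₀}(Disc Λ T) ≤ exp(-c' |T|/log(|T|+1))`.
`bad_prob` (`p₀ < p < 1`; `cay_countable`) gives `ε₁, C`. For `L = c' n / log (n+1)` the hypothesis of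
`bad_prob` holds (`div_log_mono` for `n ≥ 1`; for `n = 0`, `L = 0` and probabilities are `≤ 1`).
So with `ε = ε₁ c'`: `perc {Bad v ω n (ε n/log(n+1))} ≤ C exp(-ε n/log(n+1))`. Then
`bad_ae` with `y n = C exp(-ε n / log(n+1))` (`summable_log` in `Pool/Agent/DLP/Iso.lean`).
Case `p = 1`: `phi_gen` with `p = 1`, `c = 1` (`tau_one`) and `iso_gen` give `κ`, `ε = κ / 2`: if all the
edges are open (`perc_one`) then `Bad v ω n (ε n/log(n+1))` is impossible.
-/

namespace Pool.Agent.CGA

open Finset Pool.Agent.DLP MeasureTheory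

variable {Γ E : Type} [Group Γ] [DecidableEq Γ] [DecidableEq E] {G : Gr Γ E} {S : Finset Γ}

private theorem div_log_leG {n k : ℕ} (h : n ≤ k) :
    (n : ℝ) / Real.log (n + 1) ≤ (k : ℝ) / Real.log (k + 1) := by
  rcases Nat.eq_zero_or_pos n with hn | hn
  · rw [hn]
    simp only [Nat.cast_zero, zero_div]
    have : 0 ≤ Real.log ((k : ℝ) + 1) := Real.log_nonneg (by
      have := Nat.cast_nonneg (α := ℝ) k
      linarith)
    positivity
  · exact div_log_mono hn h

theorem core_gen (hG : IsCay G S) (hF : Fol G)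
    (hW : ∀ n : ℕ, ∃ W : Finset Γ, n ≤ W.card ∧ Free W) {p : unitInterval}
    (hp : pcG G 1 < p) :
    ∃ ε : ℝ, 0 < ε ∧ ∃ C : ℝ, 0 < C ∧ ∀ v : Γ,
      (∀ n : ℕ, perc E p {ω | G.Bad v ω n (ε * n / Real.log (n + 1))} ≤
        ENNReal.ofReal (C * Real.exp (-(ε * n / Real.log (n + 1))))) ∧
      ∀ᵐ ω ∂(perc E p), ∃ n₀ : ℕ, ∀ H : Finset Γ, v ∈ H → n₀ ≤ H.card →
        (∀ z ∈ H, G.Reach (Gr.opn ω) (↑H : Set Γ) v z) →
        ε * H.card / Real.log (H.card + 1) <
          (((G.cut H).filter (fun e => ω e = true)).card : ℝ) := by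
  have hInf : Infinite Γ := by
    by_contra hfin
    rw [not_infinite_iff_finite] at hfin
    have := Fintype.ofFinite Γ
    obtain ⟨W, hW1, _⟩ := hW (Fintype.card Γ + 1)
    have h2 := Finset.card_le_univ W
    omega
  have hCt : Countable Γ := cay_countable hG
  have hCtE : Countable E := cay_countableE hG
  -- it is enough to have the first part
  suffices hmain : ∃ ε : ℝ, 0 < ε ∧ ∃ C : ℝ, 0 < C ∧ ∀ v : Γ,
      ∀ n : ℕ, perc E p {ω | G.Bad v ω n (ε * n / Real.log (n + 1))} ≤
        ENNReal.ofReal (C * Real.exp (-(ε * n / Real.log (n + 1)))) by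
    obtain ⟨ε, hε, C, hC, h⟩ := hmain
    refine ⟨ε, hε, C, hC, fun v => ⟨h v, ?_⟩⟩
    exact G.bad_ae v p (fun n => ε * n / Real.log (n + 1))
      (fun n => C * Real.exp (-(ε * n / Real.log (n + 1))))
      ((summable_log hε).mul_left C) (fun n => by positivity) (h v)
  have hple : (p : ℝ) ≤ 1 := p.2.2
  rcases hple.eq_or_lt with hp1 | hp1
  · obtain ⟨c, hc, hiso⟩ := phi_gen hG hW (p := 1) (c := 1) one_pos le_rfl one_pos (tau_one hG)
    replace hiso := iso_gen G hiso
    refine ⟨c / 2, by positivity, 1, one_pos, fun v n => ?_⟩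
    have hpe : p = 1 := Subtype.ext hp1
    have hone := perc_one (E := E)
    rw [← hpe] at hone
    have hzero : perc E p {ω | G.Bad v ω n (c / 2 * n / Real.log (n + 1))} = 0 := by
      have hae : ∀ᵐ ω ∂(perc E p), ¬ G.Bad v ω n (c / 2 * n / Real.log (n + 1)) := by
        filter_upwards [hone] with ω hω
        rintro ⟨H, hvH, hnH, _, hcut⟩
        have h1 : (G.cut H).filter (fun e => ω e = true) = G.cut H :=
          Finset.filter_true_of_mem fun e _ => hω e
        rw [h1] at hcut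
        have h2 := hiso H ⟨v, hvH⟩
        have h3 := div_log_leG hnH
        have hH1 : (1 : ℝ) ≤ H.card := by
          exact_mod_cast Finset.card_pos.2 ⟨v, hvH⟩
        have h4 : 0 < (H.card : ℝ) / Real.log (H.card + 1) :=
          div_pos (by linarith) (Real.log_pos (by linarith))
        have h5 : c * H.card / Real.log (H.card + 1) =
            c * (H.card / Real.log (H.card + 1)) := by ring
        have h6 : c / 2 * n / Real.log (n + 1) = c / 2 * (n / Real.log (n + 1)) := by ring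
        rw [h5] at h2
        rw [h6] at hcut
        have h7 : c / 2 * (n / Real.log (n + 1)) ≤ c / 2 * (H.card / Real.log (H.card + 1)) :=
          mul_le_mul_of_nonneg_left h3 (by positivity)
        have h8 : 0 < c * (H.card / Real.log (H.card + 1)) := by positivity
        linarith
      rw [ae_iff] at hae
      simpa using hae
    rw [hzero]
    exact bot_le
  · obtain ⟨p', θ, hp'0, hp'p, hθ, hexit⟩ := theta_gen hG hp
    obtain ⟨c₀, hc₀, hτ⟩ := tau_pos hG hF hp'0 (by linarith) hθ hexit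
    obtain ⟨κ, hκ, hphi⟩ := phi_gen hG hW hp'0 (by linarith) hc₀ hτ
    obtain ⟨c, hc, hdisc⟩ := disc_gen G (p₁ := p') (p := (p' + p) / 2) hp'0.le
      (by linarith) (by linarith) hκ hphi
    obtain ⟨ε₁, hε₁, C, hC, hbad⟩ := Gr.bad_prob (p₀ := (p' + p) / 2) (p := p)
      (by linarith) (by linarith) hp1
    refine ⟨ε₁ * c, by positivity, C, hC, fun v n => ?_⟩
    have e : ε₁ * c * n / Real.log (n + 1) = ε₁ * (c * n / Real.log (n + 1)) := by ring
    rw [e]
    refine hbad Γ E G v n (c * n / Real.log (n + 1)) ?_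
    intro Λ H _ hvH hnH
    refine (hdisc Λ H ⟨v, hvH⟩).trans (Real.exp_le_exp.2 ?_)
    have h3 := div_log_leG hnH
    have h5 : c * H.card / Real.log (H.card + 1) =
        c * (H.card / Real.log (H.card + 1)) := by ring
    have h6 : c * n / Real.log (n + 1) = c * (n / Real.log (n + 1)) := by ring
    rw [h5, h6]
    have := mul_le_mul_of_nonneg_left h3 hc.le
    linarith

end Pool.Agent.CGA
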