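import Pool.Agent.CGA.CayB
import Pool.Agent.DLP.ExC

/-!
# CGA/CpG: connection probabilities inside finite sets

Compare `Pool/Agent/DLP/CpL.lean` (finished), same proofs.
* `cp_mono`: the event for `B` over `inn B'` has probability `cp B` (`Gr.dep_reach`, `pr_dep`,
  `Gr.inn_mono`) and implies the event for `B'` (`Reach.mono`); `pr_mono`.
* `cp_trans`: `cp B x y`, `cp B' y z` as probabilities over `inn D`; `harris_pr`; `Reach.trans`,
  `Reach.mono`.
* `cp_path`: `path_edges` gives `A ⊆ inn (ball)` with `|A| ≤ n`; `A ⊆ ω` implies the connection;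
  `pr_contain`; `p ^ n ≤ p ^ |A|`.
* `gx_nonneg` etc.: `pr_nonneg`, `pr_le_one`.
-/

namespace Pool.Agent.CGA

open Finset Pool.Agent.DLP

section general

variable {V E : Type} [DecidableEq V] [DecidableEq E] (G : Gr V E)

theorem cp_nonneg {p : ℝ} (h0 : 0 ≤ p) (h1 : p ≤ 1) (B : Finset V) (x y : V) :
    0 ≤ cp G p B x y :=
  pr_nonneg h0 h1 _ _

theorem cp_le_one {p : ℝ} (h0 : 0 ≤ p) (h1 : p ≤ 1) (B : Finset V) (x y : V) :
    cp G p B x y ≤ 1 :=
  pr_le_one h0 h1 _ _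

private theorem cp_eq (p : ℝ) {B B' : Finset V} (h : B' ⊆ B) (x y : V) :
    cp G p B' x y = pr p (G.inn B)
      (fun ω => G.Reach (↑ω : Set E) (↑B' : Set V) x y) := by
  unfold cp
  refine pr_dep (Gr.dep_reach G B' x y) fun i hi => ?_
  have hi' : i ∈ G.inn B' := mem_coe.1 hi
  exact ⟨fun _ => Gr.inn_mono G h hi', fun _ => hi'⟩

theorem cp_symm (p : ℝ) (B : Finset V) (x y : V) : cp G p B x y = cp G p B y x := by
  unfold cp
  congr 1
  funext ω
  exact propext ⟨fun h => h.symm, fun h => h.symm⟩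

theorem cp_mono {p : ℝ} (h0 : 0 ≤ p) (h1 : p ≤ 1) {B B' : Finset V} (h : B ⊆ B') (x y : V) :
    cp G p B x y ≤ cp G p B' x y := by
  rw [cp_eq G p h]
  unfold cp
  refine pr_mono h0 h1 fun ω _ hr => hr.mono (Set.Subset.refl _) ?_
  exact_mod_cast h

theorem cp_trans {p : ℝ} (h0 : 0 ≤ p) (h1 : p ≤ 1) {B B' D : Finset V} (hB : B ⊆ D)
    (hB' : B' ⊆ D) (x y z : V) : cp G p B x y * cp G p B' y z ≤ cp G p D x z := by
  rw [cp_eq G p hB, cp_eq G p hB']
  unfold cp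
  refine (harris_pr h0 h1 _ ?_ ?_).trans (pr_mono h0 h1 ?_)
  · intro ω ω' h hr
    exact hr.mono (by exact_mod_cast h) (Set.Subset.refl _)
  · intro ω ω' h hr
    exact hr.mono (by exact_mod_cast h) (Set.Subset.refl _)
  · rintro ω _ ⟨h2, h3⟩
    exact (h2.mono (Set.Subset.refl _) (by exact_mod_cast hB)).trans
      (h3.mono (Set.Subset.refl _) (by exact_mod_cast hB'))

theorem gx_nonneg {p : ℝ} (h0 : 0 ≤ p) (h1 : p ≤ 1) (Λ T : Finset V) (x : V) :
    0 ≤ gx G p Λ T x :=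
  pr_nonneg h0 h1 _ _

theorem gx_le_one {p : ℝ} (h0 : 0 ≤ p) (h1 : p ≤ 1) (Λ T : Finset V) (x : V) :
    gx G p Λ T x ≤ 1 :=
  pr_le_one h0 h1 _ _

end general

variable {Γ E : Type} [Group Γ] [DecidableEq Γ] [DecidableEq E] {G : Gr Γ E} {S : Finset Γ}

theorem cp_path (hG : IsCay G S) {p : ℝ} (h0 : 0 ≤ p) (h1 : p ≤ 1) (x : Γ) {n : ℕ} {g : Γ}
    (hg : g ∈ bl S n) : p ^ n ≤ cp G p (sh x (bl S n)) x (x * g) := by
  obtain ⟨A, hA, hAi, hr⟩ := path_edges hG x hg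
  unfold cp
  refine (pow_le_pow_of_le_one h0 h1 hA).trans ?_
  rw [← pr_contain p hAi]
  refine pr_mono h0 h1 fun ω _ hAω => hr.mono ?_ (Set.Subset.refl _)
  exact_mod_cast hAω

end Pool.Agent.CGA
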