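import Pool.Agent.DLP.Core
import Pool.Agent.DLP.ConvA

/-!
# CGA/CritInf: the criterion for arbitrary graphs, in infinite volume

If `Disc Λ H ω` then no `x ∈ H` exits `Λ` (`disc_iff`), so all the clusters of the points of `H` are
contained in `Λ`, hence finite. So the hypothesis on the clusters implies the finite volume
hypothesis of `bad_prob`.
-/

namespace Pool.Agent.CGA

open Finset Pool.Agent.DLP MeasureTheory

theorem disc_le_perc {V E : Type} [DecidableEq V] [DecidableEq E] (G : Gr V E)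
    (p : unitInterval) {Λ H : Finset V} (hH : H ⊆ Λ) :
    ENNReal.ofReal (pr (p : ℝ) (G.touch Λ) (fun ω => G.Disc Λ H ω)) ≤
      perc E p {ω | ∀ x ∈ H, (G.cluster ω x).Finite} := by
  rw [← perc_cyl p (G.touch Λ) (fun ω => G.Disc Λ H ω)]
  refine measure_mono fun ω hω => ?_
  simp only [Set.mem_ofPred_eq] at hω ⊢
  intro x hx
  have h1 := (Gr.disc_iff G hH _).1 hω x hx
  by_contra h2
  have h3 := (Gr.infinite_iff G ω x).1 h2 Λ (hH hx)
  exact h1 ((Gr.exit_cyl G ω Λ x).1 h3)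

/-- The criterion: the constants `ε`, `C` depend only on `p₀` and `p`. -/
theorem crit_inf {p₀ p : unitInterval} (h0 : (0 : ℝ) < p₀) (h01 : (p₀ : ℝ) < p)
    (h1 : (p : ℝ) < 1) :
    ∃ ε : ℝ, 0 < ε ∧ ∃ C : ℝ, 0 < C ∧
      ∀ (V E : Type) [DecidableEq V] [DecidableEq E] [Countable V] (G : Gr V E) (v : V)
        (φ : ℕ → ℝ), Monotone φ →
        (∀ U : Finset V, v ∈ U → perc E p₀ {ω | ∀ x ∈ U, (G.cluster ω x).Finite} ≤
          ENNReal.ofReal (Real.exp (-φ U.card))) →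
        ∀ n : ℕ, perc E p {ω | ∃ (U : Finset V) (A : Finset E), G.IsSub ω v U A ∧
            n ≤ U.card ∧ ((G.bdry ω U A).card : ℝ) ≤ ε * φ n} ≤
          ENNReal.ofReal (C * Real.exp (-(ε * φ n))) := by
  obtain ⟨ε, hε, C, hC, hbad⟩ := Gr.bad_prob (p := p) h0 h01 h1
  refine ⟨ε, hε, C, hC, ?_⟩
  intro V E _ _ _ G v φ hφ hU n
  refine le_trans (measure_mono ?_) (hbad V E G v n (φ n) ?_)
  · rintro ω ⟨U, A, hsub, hn, hb⟩
    refine ⟨U, hsub.1, hn, Gr.sub_reach G hsub, le_trans ?_ hb⟩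
    exact_mod_cast Finset.card_le_card (Gr.cut_subset_bdry G hsub)
  · intro Λ H hHΛ hv hn
    have h2 := (disc_le_perc G p₀ hHΛ).trans (hU H hv)
    rw [ENNReal.ofReal_le_ofReal_iff (Real.exp_nonneg _)] at h2
    exact h2.trans (Real.exp_le_exp.2 (neg_le_neg (hφ hn)))

end Pool.Agent.CGA
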