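import Pool.Agent.DLP.Core
import Pool.Agent.DLP.Tri

/-!
# Percolation on Cayley graphs of groups containing a free semigroup: definitions

COMPLETE FILE (MP_799d92_pr, general theorem). The library `Pool.Agent.DLP` (general graphs `Gr V E`,
finite volume expectations `ex`, `pr`, `Dep`, open paths `Reach`, `Exit`, ...) is used throughout.

* `bl S n`: the ball of radius `n` around `1`; `sh g B = g B` (so `sh x (bl S n)` is the ball
  around `x`); `nb S T n`: the `n`-neighbourhood of `T`; `bd S R`: inner vertex boundary.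
* `IsCay G S`: `G` is the Cayley graph of `Γ` for the symmetric generating set `S` (edges `g — g s`).
* `cp G p B x y`: probability that `x` and `y` are joined inside `B`; `xt G p Λ x`: probability
  that `x` is joined to the complement of `Λ`; `gx G p Λ T x`: the same with paths off `T`.
* `ls W K`: the lists of length `K` with entries in `W`; the line from `y` given by the list `L` visits
  the points `y * (L.take i).prod`.
* `OL`: all the steps of the line are open connections inside balls of radius `R`.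
* `NL C L`: the line leaves its starting point at speed `> 1/C`.
* `lns`: the non-lingering lines which avoid `nb S T R` and end outside `Λ`.
-/

namespace Pool.Agent.CGA

open Finset Pool.Agent.DLP

/-- Automorphisms of a graph; the two end points of an edge may be exchanged. -/
structure AutS {V E : Type} (G : Gr V E) where
  v : V ≃ V
  e : E ≃ E
  h : ∀ x, (G.a (e x) = v (G.a x) ∧ G.b (e x) = v (G.b x)) ∨
    (G.a (e x) = v (G.b x) ∧ G.b (e x) = v (G.a x))

section geometry

variable {Γ : Type} [Group Γ] [DecidableEq Γ]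

/-- The ball of radius `n` around `1`. -/
def bl (S : Finset Γ) : ℕ → Finset Γ
  | 0 => {1}
  | n + 1 => bl S n ∪ Finset.image₂ (fun g s => g * s) (bl S n) S

/-- Left translate. -/
def sh (g : Γ) (B : Finset Γ) : Finset Γ := B.image (fun x => g * x)

/-- The `n`-neighbourhood of `T`. -/
def nb (S T : Finset Γ) (n : ℕ) : Finset Γ := T.biUnion (fun t => sh t (bl S n))

/-- The inner vertex boundary of `R`. -/
def bd (S R : Finset Γ) : Finset Γ := R.filter (fun x => ∃ s ∈ S, x * s ∉ R)

/-- `G` is the Cayley graph of `Γ` for the symmetric generating set `S`. -/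
structure IsCay {E : Type} (G : Gr Γ E) (S : Finset Γ) : Prop where
  symm : ∀ s ∈ S, s⁻¹ ∈ S
  gen : ∀ g : Γ, ∃ n, g ∈ bl S n
  adj : ∀ e, (G.a e)⁻¹ * G.b e ∈ S
  edge : ∀ g, ∀ s ∈ S, ∃ e, (G.a e = g ∧ G.b e = g * s) ∨ (G.a e = g * s ∧ G.b e = g)
  act : ∀ γ : Γ, ∃ φ : AutS G, ∀ x, φ.v x = γ * x

/-- Lists of length `K` with entries in `W`. -/
def ls (W : Finset Γ) : ℕ → Finset (List Γ)
  | 0 => {[]}
  | K + 1 => Finset.image₂ (fun u L => u :: L) W (ls W K)

/-- Different lists of the same length have different products. -/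
def Free (W : Finset Γ) : Prop := ∀ K, ∀ L ∈ ls W K, ∀ L' ∈ ls W K, L.prod = L'.prod → L = L'

/-- The line given by `L` leaves its starting point at speed `> 1/C`. -/
def NL (S : Finset Γ) (C : ℕ) (L : List Γ) : Prop :=
  ∀ i, 1 ≤ i → i ≤ L.length → (L.take i).prod ∉ bl S (i / C)

open Classical in
/-- The non-lingering lines of length `K` from `y` which avoid the `R`-neighbourhood of `T` (except
possibly at their end point) and end outside `Λ`. -/
noncomputable def lns (S W : Finset Γ) (C R : ℕ) (Λ T : Finset Γ) (y : Γ) (K : ℕ) :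
    Finset (List Γ) :=
  (ls W K).filter (fun L => NL S C L ∧ (∀ i < K, y * (L.take i).prod ∉ nb S T R) ∧
    y * L.prod ∉ Λ)

end geometry

section perc

variable {V E : Type} [DecidableEq V] [DecidableEq E] (G : Gr V E)

/-- The probability that `x` and `y` are joined inside `B`. -/
noncomputable def cp (p : ℝ) (B : Finset V) (x y : V) : ℝ :=
  pr p (G.inn B) (fun ω => G.Reach (↑ω : Set E) (↑B : Set V) x y)

/-- The probability that `x` is joined to the complement of `Λ`. -/
noncomputable def xt (p : ℝ) (Λ : Finset V) (x : V) : ℝ :=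
  pr p (G.touch Λ) (fun ω => G.Exit Λ (↑ω : Set E) Set.univ x)

/-- The probability that `x` is joined to the complement of `Λ` off `T`. -/
noncomputable def gx (p : ℝ) (Λ T : Finset V) (x : V) : ℝ :=
  pr p (G.off Λ T) (fun ω => G.Exit Λ (↑ω : Set E) {z | z ∉ T} x)

/-- Følner condition: there are finite nonempty sets with arbitrarily small boundary. -/
def Fol : Prop := ∀ ε : ℝ, 0 < ε → ∃ K : Finset V, K.Nonempty ∧ ((G.cut K).card : ℝ) ≤ ε * K.card

/-- The critical probability (existence of an infinite cluster at `v`). -/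
noncomputable def pcG (v : V) : ℝ :=
  sInf {r : ℝ | ∃ p : unitInterval, (p : ℝ) = r ∧ 0 < perc E p {ω | (G.cluster ω v).Infinite}}

end perc

section arms

variable {Γ E : Type} [Group Γ] [DecidableEq Γ] [DecidableEq E] (G : Gr Γ E)

/-- `x` is joined inside `R` to the inner boundary of `R`. -/
def Arm (S R : Finset Γ) (ω : Finset E) (x : Γ) : Prop :=
  ∃ y ∈ bd S R, G.Reach (↑ω : Set E) (↑R : Set Γ) x y

/-- Three arms, pairwise not joined inside `R`. -/
def Three (S R : Finset Γ) (x₁ x₂ x₃ : Γ) (ω : Finset E) : Prop :=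
  Arm G S R ω x₁ ∧ Arm G S R ω x₂ ∧ Arm G S R ω x₃ ∧
    ¬ G.Reach (↑ω : Set E) (↑R : Set Γ) x₁ x₂ ∧ ¬ G.Reach (↑ω : Set E) (↑R : Set Γ) x₁ x₃ ∧
    ¬ G.Reach (↑ω : Set E) (↑R : Set Γ) x₂ x₃

/-- Joined by an edge of `ω` inside `R`. -/
def rel (R : Finset Γ) (ω : Finset E) (x y : Γ) : Prop :=
  G.Step (↑ω : Set E) x y ∧ x ∈ R ∧ y ∈ R

/-- `B` is a trifurcation set in `R`. -/
def TriE (S R B : Finset Γ) (ω : Finset E) : Prop :=
  G.inn B ⊆ ω ∧ ∃ x₁ ∈ bd S R, ∃ x₂ ∈ bd S R, ∃ x₃ ∈ bd S R,
    Att (rel G R ω) B x₁ ∧ Att (rel G R ω) B x₂ ∧ Att (rel G R ω) B x₃ ∧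
    ¬ OffR (rel G R ω) B x₁ x₂ ∧ ¬ OffR (rel G R ω) B x₁ x₃ ∧ ¬ OffR (rel G R ω) B x₂ x₃

end arms

section lines

variable {Γ E : Type} [Group Γ] [DecidableEq Γ] [DecidableEq E] (G : Gr Γ E)

/-- All the steps of the line from `y` given by `L` are open connections inside the balls of radius
`R` around the starting points of the steps. -/
def OL (S : Finset Γ) (R : ℕ) : Γ → List Γ → Finset E → Prop
  | _, [], _ => True
  | y, u :: L, ω => G.Reach (↑ω : Set E) (↑(sh y (bl S R)) : Set Γ) y (y * u) ∧
      OL S R (y * u) L ω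

/-- The union of the balls of radius `R` around the starting points of the steps. -/
def UL (S : Finset Γ) (R : ℕ) : Γ → List Γ → Finset Γ
  | _, [] => ∅
  | y, u :: L => sh y (bl S R) ∪ UL S R (y * u) L

/-- The probability of `OL`. -/
noncomputable def pL (p : ℝ) (S : Finset Γ) (R : ℕ) (y : Γ) (L : List Γ) : ℝ :=
  pr p (G.inn (UL S R y L)) (fun ω => OL G S R y L ω)

end lines

end Pool.Agent.CGA
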