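import Pool.Agent.CGA.Lists

/-!
# CGA/ExitL: last exit of a line, and the last slow return

Let `z_i = x * (L.take i).prod`, `z_0 = x ∈ T ⊆ nb S T R`, `z_K = x * L.prod ∉ nb S T R`. Let `κ` be the
largest `i ≤ K` with `z_i ∈ nb S T R` (`Nat.findGreatest` or the maximum of a filtered range);
`κ < K`. Put `m = κ + 1`: `z_i ∉ nb S T R` for `m ≤ i ≤ K`, and `z_m = z_κ * u ∈ nb S T (R + M)`
(`nb_mul`, `u = L[κ] ∈ W`, `hM`).
Let `j` be the largest `j ≤ K - m` with `((L.drop m).take j).prod ∈ bl S (j / C)` (`j = 0` works: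
`one_mem_bl`). Then `L'' = L.drop (m + j)` is in `lns`: it is in `ls W (K - m - j)` (`drop_mem_ls`);
its points `z_{m+j} * (L''.take i).prod = z_{m+j+i}` avoid `nb S T R`; the end point is `x * L.prod ∉ Λ`;
`NL`: for `1 ≤ i ≤ K - m - j`, if `(L''.take i).prod ∈ bl S (i / C)`, then
`((L.drop m).take (j + i)).prod = ((L.drop m).take j).prod * (L''.take i).prod`
`∈ bl S (j / C + i / C) ⊆ bl S ((j + i) / C)` (`mul_mem_bl`, `bl_mono`, `Nat.div_add_div_le_add_div`),
contradicting the choice of `j`.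
(List facts: `List.take_add`/`List.take_append_drop`, `List.drop_drop`, `List.prod_append`.)
-/

namespace Pool.Agent.CGA

open Finset Pool.Agent.DLP

variable {Γ : Type} [Group Γ] [DecidableEq Γ] {S W : Finset Γ}

theorem exit_list {M R C : ℕ} (hM : ∀ u ∈ W, u ∈ bl S M) (hC : 1 ≤ C) {Λ T : Finset Γ} {x : Γ}
    (hx : x ∈ T) {K : ℕ} {L : List Γ} (hL : L ∈ ls W K) (hΛ : x * L.prod ∉ Λ)
    (hT : x * L.prod ∉ nb S T R) :
    ∃ m j, 1 ≤ m ∧ m + j ≤ K ∧ x * (L.take m).prod ∈ nb S T (R + M) ∧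
      ((L.drop m).take j).prod ∈ bl S (j / C) ∧
      L.drop (m + j) ∈ lns S W C R Λ T (x * (L.take (m + j)).prod) (K - m - j) := by
  classical
  have hlen : L.length = K := (mem_ls.1 hL).1
  have hP0 : x * (L.take 0).prod ∈ nb S T R := by
    rw [List.take_zero, List.prod_nil, mul_one]
    exact subset_nb S T R hx
  have hPK : x * (L.take K).prod ∉ nb S T R := by
    rw [← hlen, List.take_length]
    exact hT
  obtain ⟨κ, hκ⟩ : ∃ κ, κ = Nat.findGreatest (fun i => x * (L.take i).prod ∈ nb S T R) K :=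
    ⟨_, rfl⟩
  have hκP : x * (L.take κ).prod ∈ nb S T R := by
    rw [hκ]
    exact Nat.findGreatest_spec (P := fun i => x * (L.take i).prod ∈ nb S T R) (Nat.zero_le K) hP0
  have hκK : κ ≤ K := by rw [hκ]; exact Nat.findGreatest_le K
  have hκlt : κ < K := by
    rcases hκK.lt_or_eq with h | h
    · exact h
    · rw [h] at hκP
      exact absurd hκP hPK
  have hgt : ∀ i, κ < i → i ≤ K → x * (L.take i).prod ∉ nb S T R := by
    intro i h1 h2
    exact Nat.findGreatest_is_greatest (P := fun i => x * (L.take i).prod ∈ nb S T R)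
      (by rw [← hκ]; exact h1) h2
  have hQ0 : ((L.drop (κ + 1)).take 0).prod ∈ bl S (0 / C) := by
    rw [List.take_zero, List.prod_nil]
    exact one_mem_bl S _
  obtain ⟨j, hj⟩ : ∃ j, j = Nat.findGreatest
      (fun j => ((L.drop (κ + 1)).take j).prod ∈ bl S (j / C)) (K - (κ + 1)) := ⟨_, rfl⟩
  have hjQ : ((L.drop (κ + 1)).take j).prod ∈ bl S (j / C) := by
    rw [hj]
    exact Nat.findGreatest_spec
      (P := fun j => ((L.drop (κ + 1)).take j).prod ∈ bl S (j / C)) (Nat.zero_le _) hQ0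
  have hjK : j ≤ K - (κ + 1) := by rw [hj]; exact Nat.findGreatest_le _
  have hjgt : ∀ i, j < i → i ≤ K - (κ + 1) → ((L.drop (κ + 1)).take i).prod ∉ bl S (i / C) := by
    intro i h1 h2
    exact Nat.findGreatest_is_greatest
      (P := fun j => ((L.drop (κ + 1)).take j).prod ∈ bl S (j / C))
      (by rw [← hj]; exact h1) h2
  refine ⟨κ + 1, j, Nat.le_add_left 1 κ, by omega, ?_, hjQ, ?_⟩
  · rw [List.take_add, List.prod_append, ← mul_assoc]
    refine nb_mul hκP ?_
    have h1 : (L.drop κ).take 1 ∈ ls W 1 := take_mem_ls (drop_mem_ls hL κ) (by omega)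
    have h2 := prod_mem_bl hM h1
    rwa [mul_one] at h2
  · have hsub : K - (κ + 1) - j = K - (κ + 1 + j) := by omega
    have hdl : (L.drop (κ + 1 + j)).length = K - (κ + 1 + j) := by
      rw [List.length_drop, hlen]
    rw [hsub, lns, Finset.mem_filter]
    refine ⟨drop_mem_ls hL _, ?_, ?_, ?_⟩
    · intro i h1 h2 h3
      rw [hdl] at h2
      refine hjgt (j + i) (by omega) (by omega) ?_
      rw [List.take_add, List.prod_append, List.drop_drop]
      exact bl_mono (Nat.add_div_le_add_div _ _ _) (mul_mem_bl hjQ h3)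
    · intro i hi
      rw [mul_assoc, ← List.prod_append, ← List.take_add]
      exact hgt _ (by omega) (by omega)
    · rw [mul_assoc, ← List.prod_append, List.take_append_drop]
      exact hΛ

end Pool.Agent.CGA
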