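import Pool.Agent.CGA.ExitL

/-!
# CGA/ExitS: counting lines by their last exit

The pairs `(x, L)`, `x ∈ T`, `L ∈ ls W K`, `x * L.prod ∉ Λ ∪ nb S T R`, are covered (`exit_list`; `m` there
is `m + 1` here) by the sets `A_{m,j}`, `m < K`, `j < K - m`, of the pairs with
`x * (L.take (m+1)).prod ∈ nb S T (R+M)`, `((L.drop (m+1)).take j).prod ∈ bl S (j/C)`,
`L.drop (m+1+j) ∈ lns (x * (L.take (m+1+j)).prod) (K-(m+1)-j)`. The map
`(x, L) ↦ (x, L₁ = L.take (m+1), L₂ = (L.drop (m+1)).take j, L₃ = L.drop (m+1+j))` is injective, so with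
`f y = |lns y (K-(m+1)-j)|`
`|A_{m,j}| ≤ ∑_{x ∈ T} ∑_{L₁ ∈ ls W (m+1), x L₁.prod ∈ nb (R+M)} ∑_{L₂ ∈ ls W j, L₂.prod ∈ bl (j/C)} f (x L₁.prod L₂.prod)`.
* `∑_{L₂ ∈ ls W j, L₂.prod ∈ bl (j/C)} f (y L₂.prod) ≤ ∑_{h ∈ bl (j/C)} f (y h)` (`L₂ ↦ L₂.prod` is injective
  on `ls W j` by `Free`).
* group the `(x, L₁)` by `y = x L₁.prod`: at most `min (b^(m+1)) |T|` pairs for each `y` (`count_end`).
* `∑_{y ∈ nb (R+M)} ∑_{h ∈ bl (j/C)} f (y h) ≤ |bl (j/C)| ∑_{y' ∈ nb (R+M+j/C)} f y'`: for every `h` the map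
  `y ↦ y h` is injective with values in `nb (R+M+j/C)` (`nb_mul`).
-/

namespace Pool.Agent.CGA

open Finset Pool.Agent.DLP

variable {Γ : Type} [Group Γ] [DecidableEq Γ] {S W : Finset Γ}

private theorem auxA (hfree : Free W) (j : ℕ) (B : Finset Γ) (f : Γ → ℝ) (hf : ∀ g, 0 ≤ f g) :
    ∑ L ∈ ls W j, (if L.prod ∈ B then f L.prod else 0) ≤ ∑ h ∈ B, f h := by
  rw [← Finset.sum_filter]
  have hinj : Set.InjOn List.prod (↑((ls W j).filter (fun L => L.prod ∈ B)) : Set (List Γ)) := by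
    intro L hL L' hL' h
    rw [Finset.mem_coe, Finset.mem_filter] at hL hL'
    exact hfree j L hL.1 L' hL'.1 h
  rw [← Finset.sum_image (f := f) hinj]
  refine Finset.sum_le_sum_of_subset_of_nonneg ?_ fun _ _ _ => hf _
  intro h hh
  obtain ⟨L, hL, rfl⟩ := Finset.mem_image.1 hh
  exact (Finset.mem_filter.1 hL).2

private theorem auxB (hfree : Free W) (n : ℕ) (T N : Finset Γ) (g : Γ → ℝ) (hg : ∀ y, 0 ≤ g y) :
    ∑ x ∈ T, ∑ L ∈ ls W n, (if x * L.prod ∈ N then g (x * L.prod) else 0) ≤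
      min ((W.card : ℝ) ^ n) (T.card : ℝ) * ∑ y ∈ N, g y := by
  rw [← Finset.sum_product' T (ls W n)
    (fun x L => if x * L.prod ∈ N then g (x * L.prod) else 0), ← Finset.sum_filter,
    ← Finset.sum_fiberwise_of_maps_to (t := N) (g := fun z : Γ × List Γ => z.1 * z.2.prod)
      (fun z hz => (Finset.mem_filter.1 hz).2), Finset.mul_sum]
  refine Finset.sum_le_sum fun y _ => ?_
  have h1 : ∀ z ∈ ((T ×ˢ ls W n).filter (fun z => z.1 * z.2.prod ∈ N)).filter
      (fun z => z.1 * z.2.prod = y), g (z.1 * z.2.prod) = g y := by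
    intro z hz
    rw [(Finset.mem_filter.1 hz).2]
  rw [Finset.sum_congr rfl h1, Finset.sum_const, nsmul_eq_mul]
  refine mul_le_mul_of_nonneg_right ?_ (hg y)
  have h2 : (((T ×ˢ ls W n).filter (fun z => z.1 * z.2.prod ∈ N)).filter
      (fun z => z.1 * z.2.prod = y)).card ≤ min (W.card ^ n) T.card := by
    refine le_trans (Finset.card_le_card ?_) (count_end hfree n T y)
    exact Finset.filter_subset_filter _ (Finset.filter_subset _ _)
  rw [le_min_iff] at h2 ⊢
  exact ⟨by exact_mod_cast h2.1, by exact_mod_cast h2.2⟩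

private theorem auxC (T : Finset Γ) (a b : ℕ) (f : Γ → ℝ) (hf : ∀ g, 0 ≤ f g) :
    ∑ y ∈ nb S T a, ∑ h ∈ bl S b, f (y * h) ≤
      ((bl S b).card : ℝ) * ∑ y ∈ nb S T (a + b), f y := by
  rw [Finset.sum_comm, ← nsmul_eq_mul, ← Finset.sum_const]
  refine Finset.sum_le_sum fun h hh => ?_
  have hinj : Set.InjOn (fun y => y * h) (↑(nb S T a) : Set Γ) := fun y _ y' _ e =>
    mul_right_cancel e
  rw [← Finset.sum_image (f := f) hinj]
  refine Finset.sum_le_sum_of_subset_of_nonneg ?_ fun _ _ _ => hf _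
  intro z hz
  obtain ⟨y, hy, rfl⟩ := Finset.mem_image.1 hz
  exact nb_mul hy hh

open Classical in
private theorem step {M R C : ℕ} (hfree : Free W) (Λ T : Finset Γ) (n j k : ℕ) :
    ∑ x ∈ T, ∑ L ∈ ls W (n + (j + k)),
      (if x * (L.take n).prod ∈ nb S T (R + M) ∧ ((L.drop n).take j).prod ∈ bl S (j / C) ∧
        L.drop (n + j) ∈ lns S W C R Λ T (x * (L.take (n + j)).prod) k then (1 : ℝ) else 0) ≤
        min ((W.card : ℝ) ^ n) (T.card : ℝ) * ((bl S (j / C)).card : ℝ) *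
          ∑ y ∈ nb S T (R + M + j / C), ((lns S W C R Λ T y k).card : ℝ) := by
  set f : Γ → ℝ := fun y => ((lns S W C R Λ T y k).card : ℝ) with hf
  have hf0 : ∀ g, 0 ≤ f g := fun g => Nat.cast_nonneg _
  set g : Γ → ℝ := fun y => ∑ h ∈ bl S (j / C), f (y * h) with hg
  have hg0 : ∀ y, 0 ≤ g y := fun y => Finset.sum_nonneg fun _ _ => hf0 _
  have h1 : ∀ x ∈ T, ∑ L ∈ ls W (n + (j + k)),
      (if x * (L.take n).prod ∈ nb S T (R + M) ∧ ((L.drop n).take j).prod ∈ bl S (j / C) ∧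
        L.drop (n + j) ∈ lns S W C R Λ T (x * (L.take (n + j)).prod) k then (1 : ℝ) else 0) ≤
      ∑ L ∈ ls W n, (if x * L.prod ∈ nb S T (R + M) then g (x * L.prod) else 0) := by
    intro x _
    rw [sum_ls_add]
    refine Finset.sum_le_sum fun L₁ hL₁ => ?_
    rw [sum_ls_add]
    have hl₁ : L₁.length = n := (mem_ls.1 hL₁).1
    by_cases hx : x * L₁.prod ∈ nb S T (R + M)
    · rw [if_pos hx]
      refine le_trans ?_ (auxA hfree j (bl S (j / C)) (fun h => f (x * L₁.prod * h))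
        (fun h => hf0 _))
      refine Finset.sum_le_sum fun L₂ hL₂ => ?_
      have hl₂ : L₂.length = j := (mem_ls.1 hL₂).1
      have e1 : ∀ L₃ : List Γ, (L₁ ++ (L₂ ++ L₃)).take n = L₁ := fun L₃ => by
        rw [← hl₁, List.take_left]
      have e2 : ∀ L₃ : List Γ, (L₁ ++ (L₂ ++ L₃)).drop n = L₂ ++ L₃ := fun L₃ => by
        rw [← hl₁, List.drop_left]
      have e3 : ∀ L₃ : List Γ, (L₂ ++ L₃).take j = L₂ := fun L₃ => by
        rw [← hl₂, List.take_left]
      have e4 : ∀ L₃ : List Γ, (L₁ ++ (L₂ ++ L₃)).drop (n + j) = L₃ := fun L₃ => by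
        rw [← hl₁, ← hl₂, ← List.length_append, ← List.append_assoc, List.drop_left]
      have e5 : ∀ L₃ : List Γ, (L₁ ++ (L₂ ++ L₃)).take (n + j) = L₁ ++ L₂ := fun L₃ => by
        rw [← hl₁, ← hl₂, ← List.length_append, ← List.append_assoc, List.take_left]
      by_cases h2 : L₂.prod ∈ bl S (j / C)
      · rw [if_pos h2]
        have h3 : ∀ L₃ ∈ ls W k,
            (if x * ((L₁ ++ (L₂ ++ L₃)).take n).prod ∈ nb S T (R + M) ∧
              (((L₁ ++ (L₂ ++ L₃)).drop n).take j).prod ∈ bl S (j / C) ∧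
              (L₁ ++ (L₂ ++ L₃)).drop (n + j) ∈ lns S W C R Λ T
                (x * ((L₁ ++ (L₂ ++ L₃)).take (n + j)).prod) k then (1 : ℝ) else 0) ≤
            if L₃ ∈ lns S W C R Λ T (x * L₁.prod * L₂.prod) k then (1 : ℝ) else 0 := by
          intro L₃ _
          rw [e1, e2, e3, e4, e5, List.prod_append, ← mul_assoc]
          by_cases h4 : L₃ ∈ lns S W C R Λ T (x * L₁.prod * L₂.prod) k
          · rw [if_pos h4]
            split_ifs
            · exact le_rfl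
            · exact zero_le_one
          · rw [if_neg h4, if_neg (fun h5 => h4 h5.2.2)]
        refine (Finset.sum_le_sum h3).trans ?_
        rw [← Finset.sum_filter, Finset.sum_const, nsmul_eq_mul, mul_one]
        refine Nat.cast_le.2 (Finset.card_le_card ?_)
        intro L hL
        exact (Finset.mem_filter.1 hL).2
      · rw [if_neg h2]
        refine le_of_eq (Finset.sum_eq_zero fun L₃ _ => ?_)
        rw [e2, e3, if_neg (fun h5 => h2 h5.2.1)]
    · rw [if_neg hx]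
      refine le_of_eq (Finset.sum_eq_zero fun L₂ _ => Finset.sum_eq_zero fun L₃ _ => ?_)
      have e1 : (L₁ ++ (L₂ ++ L₃)).take n = L₁ := by
        rw [← hl₁, List.take_left]
      rw [e1, if_neg (fun h5 => hx h5.1)]
  refine (Finset.sum_le_sum h1).trans ?_
  refine (auxB hfree n T (nb S T (R + M)) g hg0).trans ?_
  rw [mul_assoc]
  refine mul_le_mul_of_nonneg_left (auxC T (R + M) (j / C) f hf0) ?_
  exact le_min (by positivity) (by positivity)

theorem exit_count {M R C : ℕ} (hfree : Free W) (hM : ∀ u ∈ W, u ∈ bl S M) (hC : 1 ≤ C)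
    (Λ T : Finset Γ) (K : ℕ) :
    ∑ x ∈ T, (((ls W K).filter (fun L => x * L.prod ∉ Λ ∪ nb S T R)).card : ℝ) ≤
      ∑ m ∈ range K, ∑ j ∈ range (K - m),
        min ((W.card : ℝ) ^ (m + 1)) (T.card : ℝ) * ((bl S (j / C)).card : ℝ) *
          ∑ y ∈ nb S T (R + M + j / C), ((lns S W C R Λ T y (K - (m + 1) - j)).card : ℝ) := by
  classical
  let I : ℕ → ℕ → Γ → List Γ → ℝ := fun m j x L =>
    if x * (L.take (m + 1)).prod ∈ nb S T (R + M) ∧
      ((L.drop (m + 1)).take j).prod ∈ bl S (j / C) ∧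
      L.drop (m + 1 + j) ∈ lns S W C R Λ T (x * (L.take (m + 1 + j)).prod) (K - (m + 1) - j)
    then 1 else 0
  have hI0 : ∀ m j x L, 0 ≤ I m j x L := by
    intro m j x L
    show 0 ≤ ite _ _ _
    split_ifs
    · exact zero_le_one
    · exact le_rfl
  have h1 : ∀ x ∈ T, ∀ L ∈ ls W K, (if x * L.prod ∉ Λ ∪ nb S T R then (1 : ℝ) else 0) ≤
      ∑ m ∈ range K, ∑ j ∈ range (K - m), I m j x L := by
    intro x hx L hL
    by_cases h : x * L.prod ∉ Λ ∪ nb S T R
    · rw [if_pos h]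
      rw [Finset.mem_union, not_or] at h
      obtain ⟨m, j, hm, hmj, ha, hb, hc⟩ := exit_list hM hC hx hL h.1 h.2
      obtain ⟨m, rfl⟩ : ∃ m', m = m' + 1 := ⟨m - 1, by omega⟩
      have hval : I m j x L = 1 := if_pos ⟨ha, hb, hc⟩
      calc (1 : ℝ) = I m j x L := hval.symm
        _ ≤ ∑ j ∈ range (K - m), I m j x L :=
          Finset.single_le_sum (f := fun j => I m j x L) (fun j _ => hI0 _ _ _ _)
            (Finset.mem_range.2 (by omega))
        _ ≤ ∑ m ∈ range K, ∑ j ∈ range (K - m), I m j x L :=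
          Finset.single_le_sum (f := fun m => ∑ j ∈ range (K - m), I m j x L)
            (fun m _ => Finset.sum_nonneg fun j _ => hI0 _ _ _ _)
            (Finset.mem_range.2 (by omega))
    · rw [if_neg h]
      exact Finset.sum_nonneg fun m _ => Finset.sum_nonneg fun j _ => hI0 _ _ _ _
  have h2 : ∑ x ∈ T, (((ls W K).filter (fun L => x * L.prod ∉ Λ ∪ nb S T R)).card : ℝ) ≤
      ∑ m ∈ range K, ∑ j ∈ range (K - m), ∑ x ∈ T, ∑ L ∈ ls W K, I m j x L := by
    have e1 : ∀ x ∈ T, (((ls W K).filter (fun L => x * L.prod ∉ Λ ∪ nb S T R)).card : ℝ) =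
        ∑ L ∈ ls W K, (if x * L.prod ∉ Λ ∪ nb S T R then (1 : ℝ) else 0) := by
      intro x _
      rw [← Finset.sum_filter, Finset.sum_const, nsmul_eq_mul, mul_one]
    rw [Finset.sum_congr rfl e1]
    calc ∑ x ∈ T, ∑ L ∈ ls W K, (if x * L.prod ∉ Λ ∪ nb S T R then (1 : ℝ) else 0)
        ≤ ∑ x ∈ T, ∑ L ∈ ls W K, ∑ m ∈ range K, ∑ j ∈ range (K - m), I m j x L :=
          Finset.sum_le_sum fun x hx => Finset.sum_le_sum fun L hL => h1 x hx L hL
      _ = ∑ x ∈ T, ∑ m ∈ range K, ∑ j ∈ range (K - m), ∑ L ∈ ls W K, I m j x L := by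
          refine Finset.sum_congr rfl fun x _ => ?_
          rw [Finset.sum_comm]
          refine Finset.sum_congr rfl fun m _ => ?_
          rw [Finset.sum_comm]
      _ = ∑ m ∈ range K, ∑ j ∈ range (K - m), ∑ x ∈ T, ∑ L ∈ ls W K, I m j x L := by
          rw [Finset.sum_comm]
          refine Finset.sum_congr rfl fun m _ => ?_
          rw [Finset.sum_comm]
  refine h2.trans (Finset.sum_le_sum fun m hm => Finset.sum_le_sum fun j hj => ?_)
  rw [Finset.mem_range] at hm hj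
  have hK : K = m + 1 + (j + (K - (m + 1) - j)) := by omega
  have h3 := step (S := S) (M := M) (R := R) (C := C) hfree Λ T (m + 1) j (K - (m + 1) - j)
  rw [← hK] at h3
  exact h3

end Pool.Agent.CGA
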