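import Pool.Agent.CGA.Ball

/-!
# CGA/Lists: lists over a finite set, free sets

* `mem_ls`: induction on `K`.
* `card_ls`: `Finset.card_image₂` (the map `(u, L) ↦ u :: L` is injective).
* `sum_ls_add`: the map `(L₁, L₂) ↦ L₁ ++ L₂` is a bijection from `ls W m × ls W k` to `ls W (m + k)`
  (inverse `take m`, `drop m`); `Finset.sum_bij'` or induction on `m`.
* `prod_mem_bl`: induction, `mul_mem_bl`.
* `free_count`: `L ↦ y * L.prod` is injective on `ls W K` (`Free`).
* `count_end`: pairs `(x, L)` with `x ∈ T`, `L ∈ ls W m`, `x * L.prod = y`: for every `L` at most one `x`, for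
  every `x` at most one `L`.
* `free_pow`: `W` = set of the products of the lists of length `l` in `a, b`. By hypothesis the
  product map is injective on the lists in `a, b` (as words in `Bool`), so `|W| = 2^l`; take `l = n`
  (`n ≤ 2^n`). `Free W`: to `L ∈ ls W K` choose for each entry its word of length `l` and concatenate
  (`List.flatten`); two lists with the same product give words with the same product, hence
  the same word, and (blocks of length `l`) the same entries. Convenient: define
  `w : Γ → List Bool` with `w u` a word of length `l` with product `u` for `u ∈ W`; the word of `L` is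
  `(L.map w).flatten`, its product is `L.prod`. If `L = u :: L'`, `M = u' :: M'`, then
  `w u ++ _ = w u' ++ _`, so `w u = w u'` (`List.append_inj`, equal lengths), `u = u'`, and induction.
* `infinite_of_free`: `Free W` for arbitrarily large `W`: `Γ` is not finite.
-/

namespace Pool.Agent.CGA

open Finset Pool.Agent.DLP

variable {Γ : Type} [Group Γ] [DecidableEq Γ] {S W : Finset Γ}

theorem mem_ls {K : ℕ} {L : List Γ} : L ∈ ls W K ↔ L.length = K ∧ ∀ u ∈ L, u ∈ W := by
  induction K generalizing L with
  | zero =>
    rw [ls, Finset.mem_singleton]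
    constructor
    · rintro rfl
      simp
    · rintro ⟨h, -⟩
      exact List.length_eq_zero_iff.1 h
  | succ K ih =>
    rw [ls, Finset.mem_image₂]
    constructor
    · rintro ⟨u, hu, L', hL', rfl⟩
      obtain ⟨h1, h2⟩ := ih.1 hL'
      refine ⟨by rw [List.length_cons, h1], ?_⟩
      intro v hv
      rcases List.mem_cons.1 hv with rfl | hv
      · exact hu
      · exact h2 v hv
    · rintro ⟨h1, h2⟩
      cases L with
      | nil => simp at h1
      | cons u L' =>
        refine ⟨u, h2 u (by simp), L', ih.2 ⟨by simpa using h1, fun v hv => h2 v (by simp [hv])⟩,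
          rfl⟩

theorem card_ls (W : Finset Γ) (K : ℕ) : (ls W K).card = W.card ^ K := by
  induction K with
  | zero => rw [ls, Finset.card_singleton, pow_zero]
  | succ K ih =>
    rw [ls, Finset.card_image₂, ih, pow_succ, mul_comm]
    intro u u' L L' h
    simpa using h

theorem append_mem_ls {m k : ℕ} {L L' : List Γ} (h : L ∈ ls W m) (h' : L' ∈ ls W k) :
    L ++ L' ∈ ls W (m + k) := by
  rw [mem_ls] at h h' ⊢
  refine ⟨by rw [List.length_append, h.1, h'.1], ?_⟩
  intro u hu
  rcases List.mem_append.1 hu with hu | hu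
  · exact h.2 u hu
  · exact h'.2 u hu

theorem take_mem_ls {K m : ℕ} {L : List Γ} (h : L ∈ ls W K) (hm : m ≤ K) :
    L.take m ∈ ls W m := by
  rw [mem_ls] at h ⊢
  refine ⟨by rw [List.length_take, h.1, min_eq_left hm], ?_⟩
  intro u hu
  exact h.2 u (List.mem_of_mem_take hu)

theorem drop_mem_ls {K : ℕ} {L : List Γ} (h : L ∈ ls W K) (m : ℕ) :
    L.drop m ∈ ls W (K - m) := by
  rw [mem_ls] at h ⊢
  refine ⟨by rw [List.length_drop, h.1], ?_⟩
  intro u hu
  exact h.2 u (List.mem_of_mem_drop hu)

theorem sum_ls_add (W : Finset Γ) (m k : ℕ) (f : List Γ → ℝ) :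
    ∑ L ∈ ls W (m + k), f L = ∑ L₁ ∈ ls W m, ∑ L₂ ∈ ls W k, f (L₁ ++ L₂) := by
  rw [← Finset.sum_product']
  refine Finset.sum_nbij' (fun L => (L.take m, L.drop m)) (fun z => z.1 ++ z.2) ?_ ?_ ?_ ?_ ?_
  · intro L hL
    rw [Finset.mem_product]
    refine ⟨take_mem_ls hL (Nat.le_add_right _ _), ?_⟩
    have h := drop_mem_ls hL m
    rw [Nat.add_sub_cancel_left] at h
    exact h
  · intro z hz
    obtain ⟨h1, h2⟩ := Finset.mem_product.1 hz
    exact append_mem_ls h1 h2
  · intro L hL
    exact List.take_append_drop m L
  · intro z hz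
    obtain ⟨h1, h2⟩ := Finset.mem_product.1 hz
    have h3 := (mem_ls.1 h1).1
    have h4 : (z.1 ++ z.2).take m = z.1 := by
      rw [← h3]; exact List.take_left
    have h5 : (z.1 ++ z.2).drop m = z.2 := by
      rw [← h3]; exact List.drop_left
    show ((z.1 ++ z.2).take m, (z.1 ++ z.2).drop m) = z
    rw [h4, h5]
  · intro L hL
    show f L = f (L.take m ++ L.drop m)
    rw [List.take_append_drop]

theorem prod_mem_bl {M : ℕ} (hM : ∀ u ∈ W, u ∈ bl S M) {K : ℕ} {L : List Γ}
    (hL : L ∈ ls W K) : L.prod ∈ bl S (M * K) := by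
  induction K generalizing L with
  | zero =>
    rw [ls, Finset.mem_singleton] at hL
    rw [hL, List.prod_nil]
    exact one_mem_bl S _
  | succ K ih =>
    rw [ls, Finset.mem_image₂] at hL
    obtain ⟨u, hu, L', hL', rfl⟩ := hL
    rw [List.prod_cons, Nat.mul_succ, Nat.add_comm]
    exact mul_mem_bl (hM u hu) (ih hL')

theorem free_count (hF : Free W) (K : ℕ) (A : Finset Γ) (y : Γ) :
    ((ls W K).filter (fun L => y * L.prod ∈ A)).card ≤ A.card := by
  refine Finset.card_le_card_of_injOn (fun L => y * L.prod) ?_ ?_
  · intro L hL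
    exact (Finset.mem_filter.1 (Finset.mem_coe.1 hL)).2
  · intro L hL L' hL' h
    have h1 := (Finset.mem_filter.1 (Finset.mem_coe.1 hL)).1
    have h2 := (Finset.mem_filter.1 (Finset.mem_coe.1 hL')).1
    exact hF K L h1 L' h2 (mul_left_cancel h)

theorem count_end (hF : Free W) (m : ℕ) (T : Finset Γ) (y : Γ) :
    ((T ×ˢ ls W m).filter (fun z => z.1 * z.2.prod = y)).card ≤ min (W.card ^ m) T.card := by
  refine le_min ?_ ?_
  · rw [← card_ls]
    refine Finset.card_le_card_of_injOn (fun z => z.2) ?_ ?_
    · intro z hz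
      exact (Finset.mem_product.1 (Finset.mem_filter.1 (Finset.mem_coe.1 hz)).1).2
    · intro z hz z' hz' h
      have h1 := (Finset.mem_filter.1 (Finset.mem_coe.1 hz)).2
      have h2 := (Finset.mem_filter.1 (Finset.mem_coe.1 hz')).2
      have h' : z.2 = z'.2 := h
      have h3 : z.1 = z'.1 := by
        rw [← h2, h'] at h1
        exact mul_right_cancel h1
      exact Prod.ext h3 h'
  · refine Finset.card_le_card_of_injOn (fun z => z.1) ?_ ?_
    · intro z hz
      exact (Finset.mem_product.1 (Finset.mem_filter.1 (Finset.mem_coe.1 hz)).1).1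
    · intro z hz z' hz' h
      have h1 := (Finset.mem_filter.1 (Finset.mem_coe.1 hz)).2
      have h2 := (Finset.mem_filter.1 (Finset.mem_coe.1 hz')).2
      have h5 := (Finset.mem_product.1 (Finset.mem_filter.1 (Finset.mem_coe.1 hz)).1).2
      have h6 := (Finset.mem_product.1 (Finset.mem_filter.1 (Finset.mem_coe.1 hz')).1).2
      have h' : z.1 = z'.1 := h
      refine Prod.ext h' (hF m _ h5 _ h6 ?_)
      rw [← h2, h'] at h1
      exact mul_left_cancel h1

/-- the words of length `n` -/
private def words (n : ℕ) : Finset (List Bool) :=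
  (Finset.univ : Finset (Fin n → Bool)).image List.ofFn

private theorem mem_words {n : ℕ} {w : List Bool} : w ∈ words n ↔ w.length = n := by
  unfold words
  rw [Finset.mem_image]
  constructor
  · rintro ⟨f, -, rfl⟩
    exact List.length_ofFn
  · rintro rfl
    exact ⟨w.get, Finset.mem_univ _, List.ofFn_get w⟩

private theorem card_words (n : ℕ) : (words n).card = 2 ^ n := by
  unfold words
  rw [Finset.card_image_of_injective _ List.ofFn_injective, Finset.card_univ, Fintype.card_fun,
    Fintype.card_fin, Fintype.card_bool]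

theorem free_pow {a b : Γ} (h : Function.Injective
    (fun w : List Bool => (w.map (fun i => bif i then a else b)).prod)) (n : ℕ) :
    ∃ W : Finset Γ, n ≤ W.card ∧ Free W := by
  obtain ⟨φ, hφ⟩ : ∃ φ : List Bool → Γ,
    φ = fun w : List Bool => (w.map (fun i => bif i then a else b)).prod := ⟨_, rfl⟩
  rw [← hφ] at h
  have hnil : φ [] = 1 := by rw [hφ]; rfl
  have happ : ∀ w w', φ (w ++ w') = φ w * φ w' := by
    intro w w'
    rw [hφ]
    simp only [List.map_append, List.prod_append]
  refine ⟨(words n).image φ, ?_, ?_⟩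
  · rw [Finset.card_image_of_injective _ h, card_words]
    exact Nat.lt_two_pow_self.le
  · have hex : ∀ u : Γ, ∃ w : List Bool, u ∈ (words n).image φ → w.length = n ∧ φ w = u := by
      intro u
      by_cases hu : u ∈ (words n).image φ
      · obtain ⟨w, hw, hwu⟩ := Finset.mem_image.1 hu
        exact ⟨w, fun _ => ⟨mem_words.1 hw, hwu⟩⟩
      · exact ⟨[], fun h => absurd h hu⟩
    choose w hw using hex
    have hprod : ∀ L : List Γ, (∀ u ∈ L, u ∈ (words n).image φ) →
        φ (L.map w).flatten = L.prod := by
      intro L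
      induction L with
      | nil => intro _; simpa using hnil
      | cons u L ih =>
        intro hL
        rw [List.map_cons, List.flatten_cons, happ, ih (fun v hv => hL v (by simp [hv])),
          List.prod_cons, (hw u (hL u (by simp))).2]
    have hinj : ∀ K, ∀ L M : List Γ, L.length = K → M.length = K →
        (∀ u ∈ L, u ∈ (words n).image φ) → (∀ u ∈ M, u ∈ (words n).image φ) →
        (L.map w).flatten = (M.map w).flatten → L = M := by
      intro K
      induction K with
      | zero =>
        intro L M hL hM _ _ _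
        rw [List.length_eq_zero_iff.1 hL, List.length_eq_zero_iff.1 hM]
      | succ K ih =>
        intro L M hL hM hLW hMW hf
        cases L with
        | nil => simp at hL
        | cons u L =>
          cases M with
          | nil => simp at hM
          | cons v M =>
            rw [List.map_cons, List.flatten_cons, List.map_cons, List.flatten_cons] at hf
            obtain ⟨hu1, hu2⟩ := hw u (hLW u (by simp))
            obtain ⟨hv1, hv2⟩ := hw v (hMW v (by simp))
            obtain ⟨h1, h2⟩ := List.append_inj hf (by rw [hu1, hv1])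
            have h3 : u = v := by rw [← hu2, ← hv2, h1]
            rw [h3, ih L M (by simpa using hL) (by simpa using hM)
              (fun z hz => hLW z (by simp [hz])) (fun z hz => hMW z (by simp [hz])) h2]
    intro K L hL L' hL' hLL
    obtain ⟨h1, h2⟩ := mem_ls.1 hL
    obtain ⟨h3, h4⟩ := mem_ls.1 hL'
    refine hinj K L L' h1 h3 h2 h4 (h ?_)
    rw [hprod L h2, hprod L' h4, hLL]

theorem infinite_of_free (h : ∀ n : ℕ, ∃ W : Finset Γ, n ≤ W.card ∧ Free W) : Infinite Γ := by
  by_contra hcon
  rw [not_infinite_iff_finite] at hcon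
  haveI := Fintype.ofFinite Γ
  obtain ⟨W, h1, -⟩ := h (Fintype.card Γ + 1)
  have h2 := Finset.card_le_univ W
  omega

end Pool.Agent.CGA
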