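import Pool.Agent.CGA.TransG
import Pool.Agent.CGA.CpG
import Pool.Agent.CGA.Lists

/-!
# CGA/LineP: the event that a line is open

Everything by induction on the list.
* `dep_OL`: `Gr.dep_reach`, `inn_mono`, `Dep.mono`, `Dep.comp₂`.
* `mem_UL`: `z` is in the ball around one of the starting points `y * (L.take i).prod`, `i < length`.
* `OL_reach`: the first step is a path inside the ball around `y`, which is disjoint from `T`.
* `pL_eq`: `pr_dep` with `dep_OL`.
* `pL_append`: over `F = inn (UL y (L ++ L'))`: `harris_pr`, `OL_append`, `pL_eq`.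
* `pL_ge`: induction with `pL_append` for `[u] ++ L` or directly: the first step has probability
  `cp (sh y (bl S R)) y (y u) = cp (bl S R) 1 u ≥ c` (`cp_sh` with `y * 1 = y`); Harris.
-/

namespace Pool.Agent.CGA

open Finset Pool.Agent.DLP

variable {Γ E : Type} [Group Γ] [DecidableEq Γ] [DecidableEq E] (G : Gr Γ E) (S : Finset Γ)
  {W : Finset Γ}

theorem OL_mono (R : ℕ) (y : Γ) (L : List Γ) {ω ω' : Finset E} (h : ω ⊆ ω')
    (hL : OL G S R y L ω) : OL G S R y L ω' := by
  induction L generalizing y with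
  | nil => trivial
  | cons u L ih =>
    obtain ⟨h1, h2⟩ := hL
    exact ⟨h1.mono (by exact_mod_cast h) (Set.Subset.refl _), ih _ h2⟩

theorem dep_OL (R : ℕ) (y : Γ) (L : List Γ) :
    Dep (↑(G.inn (UL S R y L)) : Set E) (fun ω : Finset E => OL G S R y L ω) := by
  induction L generalizing y with
  | nil => exact fun ω ω' _ => rfl
  | cons u L ih =>
    have h1 : Dep (↑(G.inn (UL S R y (u :: L))) : Set E)
        (fun ω : Finset E => G.Reach (↑ω : Set E) (↑(sh y (bl S R)) : Set Γ) y (y * u)) :=
      (Gr.dep_reach G (sh y (bl S R)) y (y * u)).mono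
        (coe_subset.2 (Gr.inn_mono G subset_union_left))
    have h2 : Dep (↑(G.inn (UL S R y (u :: L))) : Set E)
        (fun ω : Finset E => OL G S R (y * u) L ω) :=
      (ih (y * u)).mono (coe_subset.2 (Gr.inn_mono G subset_union_right))
    exact h1.comp₂ h2 And

theorem mem_UL (R : ℕ) (y : Γ) (L : List Γ) (z : Γ) :
    z ∈ UL S R y L ↔ ∃ i < L.length, z ∈ sh (y * (L.take i).prod) (bl S R) := by
  induction L generalizing y with
  | nil => simp [UL]
  | cons u L ih =>
    have h1 : z ∈ UL S R y (u :: L) ↔ z ∈ sh y (bl S R) ∨ z ∈ UL S R (y * u) L := mem_union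
    rw [h1, ih]
    constructor
    · rintro (h | ⟨i, hi, h⟩)
      · exact ⟨0, by simp, by simpa using h⟩
      · refine ⟨i + 1, by simpa using hi, ?_⟩
        rw [List.take_succ_cons, List.prod_cons, ← mul_assoc]
        exact h
    · rintro ⟨i, hi, h⟩
      cases i with
      | zero => left; simpa using h
      | succ i =>
        right
        refine ⟨i, by simpa using hi, ?_⟩
        rw [List.take_succ_cons, List.prod_cons, ← mul_assoc] at h
        exact h

theorem UL_append (R : ℕ) (y : Γ) (L L' : List Γ) :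
    UL S R y (L ++ L') = UL S R y L ∪ UL S R (y * L.prod) L' := by
  induction L generalizing y with
  | nil => simp [UL]
  | cons u L ih =>
    show sh y (bl S R) ∪ UL S R (y * u) (L ++ L') =
      (sh y (bl S R) ∪ UL S R (y * u) L) ∪ UL S R (y * (u :: L).prod) L'
    rw [ih, List.prod_cons, ← mul_assoc, union_assoc]

theorem OL_append (R : ℕ) (y : Γ) (L L' : List Γ) (ω : Finset E) :
    OL G S R y (L ++ L') ω ↔ OL G S R y L ω ∧ OL G S R (y * L.prod) L' ω := by
  induction L generalizing y with
  | nil =>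
    show OL G S R y L' ω ↔ True ∧ OL G S R (y * ([] : List Γ).prod) L' ω
    rw [List.prod_nil, mul_one, true_and]
  | cons u L ih =>
    show (G.Reach (↑ω : Set E) (↑(sh y (bl S R)) : Set Γ) y (y * u) ∧ OL G S R (y * u) (L ++ L') ω) ↔
      (G.Reach (↑ω : Set E) (↑(sh y (bl S R)) : Set Γ) y (y * u) ∧ OL G S R (y * u) L ω) ∧
        OL G S R (y * (u :: L).prod) L' ω
    rw [ih, List.prod_cons, ← mul_assoc, and_assoc]

theorem OL_reach {R : ℕ} {y : Γ} {L : List Γ} {ω : Finset E} (h : OL G S R y L ω)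
    {T : Finset Γ} (hT : Disjoint (UL S R y L) T) :
    G.Reach (↑ω : Set E) {z | z ∉ T} y (y * L.prod) := by
  induction L generalizing y with
  | nil =>
    rw [List.prod_nil, mul_one]
    exact Relation.ReflTransGen.refl
  | cons u L ih =>
    obtain ⟨h1, h2⟩ := h
    have hT' : Disjoint (sh y (bl S R) ∪ UL S R (y * u) L) T := hT
    rw [disjoint_union_left] at hT'
    rw [List.prod_cons, ← mul_assoc]
    refine (h1.mono (Set.Subset.refl _) ?_).trans (ih h2 hT'.2)
    intro z hz
    exact disjoint_left.1 hT'.1 (mem_coe.1 hz)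

theorem pL_eq (p : ℝ) {R : ℕ} {y : Γ} {L : List Γ} {F : Finset E}
    (hF : G.inn (UL S R y L) ⊆ F) : pr p F (fun ω => OL G S R y L ω) = pL G p S R y L := by
  refine pr_dep (dep_OL G S R y L) fun i hi => ?_
  exact ⟨fun _ => mem_coe.1 hi, fun _ => hF (mem_coe.1 hi)⟩

theorem pL_append {p : ℝ} (h0 : 0 ≤ p) (h1 : p ≤ 1) (R : ℕ) (y : Γ) (L L' : List Γ) :
    pL G p S R y L * pL G p S R (y * L.prod) L' ≤ pL G p S R y (L ++ L') := by
  have hU := UL_append S R y L L'
  have e1 : pr p (G.inn (UL S R y (L ++ L'))) (fun ω => OL G S R y L ω) = pL G p S R y L :=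
    pL_eq G S p (by rw [hU]; exact Gr.inn_mono G subset_union_left)
  have e2 : pr p (G.inn (UL S R y (L ++ L'))) (fun ω => OL G S R (y * L.prod) L' ω) =
      pL G p S R (y * L.prod) L' :=
    pL_eq G S p (by rw [hU]; exact Gr.inn_mono G subset_union_right)
  rw [← e1, ← e2]
  refine (harris_pr h0 h1 _ (fun ω ω' h => OL_mono G S R y L h)
    (fun ω ω' h => OL_mono G S R _ L' h)).trans (le_of_eq ?_)
  exact pr_congr fun ω _ => (OL_append G S R y L L' ω).symm

theorem pL_le_one {p : ℝ} (h0 : 0 ≤ p) (h1 : p ≤ 1) (R : ℕ) (y : Γ) (L : List Γ) :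
    pL G p S R y L ≤ 1 := by
  exact pr_le_one h0 h1 _ _

variable {G S}

theorem pL_ge (hG : IsCay G S) {p c : ℝ} (h0 : 0 ≤ p) (h1 : p ≤ 1) (hc0 : 0 ≤ c) {R : ℕ}
    (hc : ∀ u ∈ W, c ≤ cp G p (bl S R) 1 u) {K : ℕ} {L : List Γ} (hL : L ∈ ls W K) (y : Γ) :
    c ^ K ≤ pL G p S R y L := by
  induction K generalizing L y with
  | zero =>
    have h2 : L = [] := by
      rw [mem_ls] at hL
      exact List.length_eq_zero_iff.1 hL.1
    subst h2
    rw [pow_zero]
    have h3 : pL G p S R y [] = 1 := pr_true p _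
    rw [h3]
  | succ K ih =>
    rw [mem_ls] at hL
    obtain ⟨hlen, hmem⟩ := hL
    cases L with
    | nil => simp at hlen
    | cons u L =>
      have hu : u ∈ W := hmem u (by simp)
      have hL' : L ∈ ls W K := by
        rw [mem_ls]
        exact ⟨by simpa using hlen, fun v hv => hmem v (List.mem_cons_of_mem u hv)⟩
      have h2 := pL_append G S h0 h1 R y [u] L
      have h3 : pL G p S R y [u] = cp G p (sh y (bl S R)) (y * 1) (y * u) := by
        unfold pL cp
        have h4 : UL S R y [u] = sh y (bl S R) := by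
          show sh y (bl S R) ∪ ∅ = _
          exact union_empty _
        rw [h4, mul_one]
        refine pr_congr fun ω _ => ?_
        show (G.Reach (↑ω : Set E) (↑(sh y (bl S R)) : Set Γ) y (y * u) ∧ True) ↔ _
        rw [and_true]
      rw [cp_sh hG] at h3
      have h5 := hc u hu
      have h6 := ih hL' (y * [u].prod)
      calc c ^ (K + 1) = c * c ^ K := by ring
        _ ≤ pL G p S R y [u] * pL G p S R (y * [u].prod) L := by
          rw [h3]
          exact mul_le_mul h5 h6 (pow_nonneg hc0 K) (le_trans hc0 h5)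
        _ ≤ _ := h2

end Pool.Agent.CGA
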