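import Pool.Agent.CGA.CayB

/-!
# CGA/PsiG: the isoperimetric profile of a Cayley graph

Put `d = |inc 1| ≥ 1` (`deg_pos`). The set in the definition of `psi t` is nonempty for every `t` (`Γ` is
infinite: `Infinite.exists_subset_card_eq`) and bounded below by `0`.
* `vol_eq`: `inc_card`.
* `psi_nonneg`: `Real.sInf_nonneg`. `psi_mono`: `csInf_le_csInf`.
* `psi_pos`: every `K` with positive volume is nonempty, `cut_pos`; `le_csInf`.
* `exists_lt_psi`: `exists_lt_of_csInf_lt`.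
* `fol_of_psi`: given `ε > 0` choose `t ≥ 2` with `(max C 0 + 1) * d / log t < ε` (`log t → ∞`). As
  `psi t ≤ C t / log t < (max C 0 + 1) t / log t`, `exists_lt_psi` gives `K` with
  `t ≤ d |K|` and `|cut K| < (max C 0 + 1) t / log t ≤ (max C 0 + 1) d |K| / log t ≤ ε |K|`; `K` is
  nonempty since `t > 0`.
-/

namespace Pool.Agent.CGA

open Finset Pool.Agent.DLP

variable {Γ E : Type} [Group Γ] [DecidableEq Γ] [DecidableEq E] {G : Gr Γ E} {S : Finset Γ}

theorem vol_eq (hG : IsCay G S) (K : Finset Γ) :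
    ∑ u ∈ K, ((G.inc u).card : ℝ) = (G.inc 1).card * K.card := by
  rw [Finset.sum_congr rfl (fun u _ => by rw [inc_card hG u])]
  rw [Finset.sum_const, nsmul_eq_mul]
  ring

private theorem psi_set_nonempty (hG : IsCay G S) [Infinite Γ] (t : ℝ) :
    {m : ℝ | ∃ K : Finset Γ, t ≤ ∑ u ∈ K, ((G.inc u).card : ℝ) ∧
      m = ((G.cut K).card : ℝ)}.Nonempty := by
  obtain ⟨n, hn⟩ := exists_nat_ge t
  obtain ⟨K, hK⟩ := Infinite.exists_subset_card_eq Γ n
  refine ⟨_, K, ?_, rfl⟩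
  rw [vol_eq hG, hK]
  have hd : (1 : ℝ) ≤ ((G.inc 1).card : ℝ) := by exact_mod_cast deg_pos hG
  have hn0 : (0 : ℝ) ≤ n := Nat.cast_nonneg n
  nlinarith

private theorem psi_set_bdd (G : Gr Γ E) (t : ℝ) :
    BddBelow {m : ℝ | ∃ K : Finset Γ, t ≤ ∑ u ∈ K, ((G.inc u).card : ℝ) ∧
      m = ((G.cut K).card : ℝ)} := by
  refine ⟨0, ?_⟩
  rintro m ⟨K, _, rfl⟩
  exact Nat.cast_nonneg _

theorem psi_nonneg (G : Gr Γ E) (t : ℝ) : 0 ≤ G.psi t := by
  unfold Gr.psi
  apply Real.sInf_nonneg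
  rintro m ⟨K, _, rfl⟩
  exact Nat.cast_nonneg _

theorem psi_mono (hG : IsCay G S) [Infinite Γ] {s t : ℝ} (h : s ≤ t) : G.psi s ≤ G.psi t := by
  unfold Gr.psi
  apply csInf_le_csInf (psi_set_bdd G s) (psi_set_nonempty hG t)
  rintro m ⟨K, hK, rfl⟩
  exact ⟨K, h.trans hK, rfl⟩

theorem psi_pos (hG : IsCay G S) [Infinite Γ] {t : ℝ} (ht : 0 < t) : 1 ≤ G.psi t := by
  unfold Gr.psi
  apply le_csInf (psi_set_nonempty hG t)
  rintro m ⟨K, hK, rfl⟩
  have hne : K.Nonempty := by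
    rcases K.eq_empty_or_nonempty with h | h
    · subst h
      simp at hK
      linarith
    · exact h
  exact_mod_cast cut_pos hG hne

theorem exists_lt_psi (hG : IsCay G S) [Infinite Γ] {t m : ℝ} (h : G.psi t < m) :
    ∃ K : Finset Γ, t ≤ (G.inc 1).card * K.card ∧ ((G.cut K).card : ℝ) < m := by
  unfold Gr.psi at h
  obtain ⟨a, ⟨K, hK, rfl⟩, ha⟩ := exists_lt_of_csInf_lt (psi_set_nonempty hG t) h
  refine ⟨K, ?_, ha⟩
  rwa [vol_eq hG] at hK

theorem fol_of_psi (hG : IsCay G S) [Infinite Γ] {C : ℝ}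
    (h : ∀ t : ℝ, 2 ≤ t → G.psi t ≤ C * t / Real.log t) : Fol G := by
  intro ε hε
  have hd : (1 : ℝ) ≤ ((G.inc 1).card : ℝ) := by exact_mod_cast deg_pos hG
  set d : ℝ := ((G.inc 1).card : ℝ) with hddef
  set C' : ℝ := max C 0 + 1 with hC'
  have hC'pos : 0 < C' := by
    have : (0 : ℝ) ≤ max C 0 := le_max_right _ _
    linarith
  have hC'lt : C < C' := by
    have : C ≤ max C 0 := le_max_left _ _
    linarith
  -- choose t
  have hlog := Real.tendsto_log_atTop.eventually (Filter.eventually_gt_atTop (C' * d / ε))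
  obtain ⟨t, ht1, ht2⟩ := (hlog.and (Filter.eventually_ge_atTop (2 : ℝ))).exists
  have ht0 : (0 : ℝ) < t := by linarith
  have hlogpos : 0 < Real.log t := Real.log_pos (by linarith)
  have hlt : G.psi t < C' * t / Real.log t := by
    refine lt_of_le_of_lt (h t ht2) ?_
    apply div_lt_div_of_pos_right _ hlogpos
    exact mul_lt_mul_of_pos_right hC'lt ht0
  obtain ⟨K, hK1, hK2⟩ := exists_lt_psi hG hlt
  have hne : K.Nonempty := by
    rcases K.eq_empty_or_nonempty with h' | h'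
    · subst h'
      simp at hK1
      linarith
    · exact h'
  refine ⟨K, hne, ?_⟩
  have hcard : (0 : ℝ) < K.card := by exact_mod_cast hne.card_pos
  have h1 : C' * t / Real.log t ≤ ε * K.card := by
    rw [div_le_iff₀ hlogpos]
    have h2 : C' * t ≤ C' * (d * K.card) := mul_le_mul_of_nonneg_left hK1 hC'pos.le
    have h3 : C' * d < ε * Real.log t := by
      rw [div_lt_iff₀ hε] at ht1
      linarith
    have h4 : C' * d * K.card ≤ ε * Real.log t * K.card :=
      mul_le_mul_of_nonneg_right h3.le hcard.le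
    nlinarith
  linarith

end Pool.Agent.CGA
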