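import Pool.Agent.CGA.CoreG
import Pool.Agent.CGA.PsiG
import Pool.Agent.DLP.ConvA

/-!
# CGA/MainG: the main theorems for an abstract Cayley graph

Same proofs as `Pool/Agent/DLP/MainB.lean` (finished). `d = |inc 1|`.
* `sub_card_gen`: `A ⊆ U.biUnion inc`, `inc_card`.
* `main_sub`: from `core_gen` (`ε₁`, `C₁`). Let `(U, A)` be a subgraph with `n ≤ |A|`, `n ≥ 1`,
  `m = ⌈n/d⌉ ≥ 1`: `|U| ≥ m`, `U` is connected by open edges (`Gr.sub_reach`), the open edges of `cut U` are in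
  `bdry` (`Gr.cut_subset_bdry`). If `|bdry| ≤ ε n / log (n+1)` with `ε ≤ ε₁ / d`, then, as `m ≥ n/d`,
  `m ≤ n`, `ε n / log (n+1) ≤ ε₁ m / log (m+1)`, so `Bad v ω m (ε₁ m / log (m+1))`, of probability
  `≤ C₁ exp(-ε₁ m/log(m+1)) ≤ C₁ exp(-ε n/log(n+1))`. For `n = 0` the bound is `C ≥ 1`
  (take `C = max C₁ 1`; `Real.log 1 = 0`, `x / 0 = 0`). Almost surely: with `n₀` of `core_gen` take
  `n₀' = d (n₀ + 1)`: `|A| ≥ n₀'` gives `|U| ≥ n₀ + 1`, and
  `|bdry| ≥ |open cut U| > ε₁ |U| / log (|U|+1) ≥ ε |A| / log (|A|+1)` (`div_log_mono` with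
  `⌈|A|/d⌉ ≤ |U|`, and `⌈|A|/d⌉ ≥ |A|/d`, `log (⌈|A|/d⌉+1) ≤ log (|A|+1)`).
* `main_ae`: `Fol G` by `fol_of_psi`. Let `c > 0`; almost surely `n₀` of `main_sub`; for `n` large
  (`n ≥ n₀`, `c n ≥ 2`, `n ≥ 2`) every subgraph with `|A| ≥ n` has
  `|bdry| ≥ ε |A| / log (|A|+1) ≥ ε n / log (n+1)` and `0 < psi (c n) ≤ C₀ c n / log (c n) ≤ C₂ n / log (n+1)`
  (`log (n+1) ≤ C₃ log (c n)` for large `n`); so `|bdry| / psi (c n) ≥ δ := ε / C₂`; the set in the
  definition of `In` is nonempty (`Gr.exists_sub`), so `In ≥ δ` (`le_csInf`).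
* `main_tail`: `psi n ≤ C₂ n / log (n+1)` for `n ≥ 1` (for `n ≥ 2` by hypothesis; for `n = 1`
  enlarge `C₂`); take `a = min (ε / C₂) ..` and use `main_sub`: `|bdry| ≤ a psi n ≤ ε n / log (n+1)`, and
  `exp(-ε n/log(n+1)) ≤ exp(-a psi n)`. For `n = 0`: `psi 0 = 0` (the empty set: `csInf_le`, and
  `psi_nonneg`), the bound is `C`; take `C ≥ 1`.
-/

namespace Pool.Agent.CGA

open Finset Pool.Agent.DLP MeasureTheory

variable {Γ E : Type} [Group Γ] [DecidableEq Γ] [DecidableEq E] {G : Gr Γ E} {S : Finset Γ}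

theorem sub_card_gen (hG : IsCay G S) {ω : E → Bool} {v : Γ} {U : Finset Γ} {A : Finset E}
    (h : G.IsSub ω v U A) : A.card ≤ (G.inc 1).card * U.card := by
  obtain ⟨_, hA, _⟩ := h
  have h1 : A ⊆ U.biUnion G.inc := by
    intro e he
    rw [Finset.mem_biUnion]
    exact ⟨G.a e, (hA e he).2.1, (G.mem_inc _ _).2 (Or.inl rfl)⟩
  refine (Finset.card_le_card h1).trans (Finset.card_biUnion_le.trans ?_)
  rw [Finset.sum_congr rfl fun u _ => inc_card hG u, Finset.sum_const, smul_eq_mul, mul_comm]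

private theorem mg_ratio {q n u : ℕ} (hq : 1 ≤ q) (hu : n ≤ q * u) :
    (n : ℝ) / q / Real.log (n + 1) ≤ (u : ℝ) / Real.log (u + 1) := by
  have hlogu' : 0 ≤ Real.log ((u : ℝ) + 1) := Real.log_nonneg (by
    have := Nat.cast_nonneg (α := ℝ) u
    linarith)
  rcases Nat.eq_zero_or_pos n with hn | hn
  · rw [hn]
    simp only [Nat.cast_zero, zero_div]
    positivity
  have hq0 : (0 : ℝ) < q := by exact_mod_cast hq
  have hn0 : (1 : ℝ) ≤ n := by exact_mod_cast hn
  have hu1 : 1 ≤ u := by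
    rcases Nat.eq_zero_or_pos u with h | h
    · rw [h, mul_zero] at hu; omega
    · exact h
  have hu0 : (1 : ℝ) ≤ u := by exact_mod_cast hu1
  have hnu : (n : ℝ) ≤ q * u := by exact_mod_cast hu
  have h1 : (n : ℝ) / q ≤ u := by
    rw [div_le_iff₀ hq0]; linarith
  have hlogn : 0 < Real.log (n + 1) := Real.log_pos (by linarith)
  have hlogu : 0 < Real.log (u + 1) := Real.log_pos (by linarith)
  rcases le_total n u with h | h
  · have h2 := div_log_mono hn h
    have h3 : (n : ℝ) / q / Real.log (n + 1) ≤ (n : ℝ) / Real.log (n + 1) := by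
      apply div_le_div_of_nonneg_right _ hlogn.le
      apply div_le_self (by linarith)
      exact_mod_cast hq
    exact h3.trans h2
  · have h4 : Real.log (u + 1) ≤ Real.log (n + 1) := by
      apply Real.log_le_log (by linarith)
      have : (u : ℝ) ≤ n := by exact_mod_cast h
      linarith
    calc (n : ℝ) / q / Real.log (n + 1) ≤ (u : ℝ) / Real.log (n + 1) :=
          div_le_div_of_nonneg_right h1 hlogn.le
      _ ≤ (u : ℝ) / Real.log (u + 1) :=
          div_le_div_of_nonneg_left (by linarith) hlogu h4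

/-- `log (x + 1) ≤ C log (c x)` if `c x ≥ 2`. -/
private theorem mg_log {c : ℝ} (hc : 0 < c) : ∃ C : ℝ, 0 < C ∧ ∀ x : ℝ, 0 ≤ x → 2 ≤ c * x →
    Real.log (x + 1) ≤ C * Real.log (c * x) := by
  obtain ⟨M, hM⟩ : ∃ M : ℝ, M = max 1 (1 / c + 1) := ⟨_, rfl⟩
  have hm : 1 ≤ M := by rw [hM]; exact le_max_left _ _
  have hm2 : 1 / c + 1 ≤ M := by rw [hM]; exact le_max_right _ _
  have hlm : 0 ≤ Real.log M := Real.log_nonneg hm
  have hl2 : 0 < Real.log 2 := Real.log_pos (by norm_num)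
  refine ⟨Real.log M / Real.log 2 + 1, by positivity, fun x hx hcx => ?_⟩
  have h1 : x + 1 ≤ M * (c * x) := by
    calc x + 1 ≤ 1 / c * (c * x) + 1 * (c * x) := by
          have h2 : 1 / c * (c * x) = x := by field_simp
          rw [h2]
          linarith
      _ = (1 / c + 1) * (c * x) := by ring
      _ ≤ M * (c * x) := mul_le_mul_of_nonneg_right hm2 (by linarith)
  have h3 : Real.log 2 ≤ Real.log (c * x) :=
    Real.log_le_log (by norm_num) (by linarith)
  calc Real.log (x + 1) ≤ Real.log (M * (c * x)) :=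
        Real.log_le_log (by linarith) h1
    _ = Real.log M + Real.log (c * x) := by
        rw [Real.log_mul (by linarith) (by linarith)]
    _ ≤ Real.log M / Real.log 2 * Real.log (c * x) + Real.log (c * x) := by
        have h4 : Real.log M / Real.log 2 * Real.log 2 ≤
            Real.log M / Real.log 2 * Real.log (c * x) :=
          mul_le_mul_of_nonneg_left h3 (by positivity)
        rw [div_mul_cancel₀ _ hl2.ne'] at h4
        linarith
    _ = (Real.log M / Real.log 2 + 1) * Real.log (c * x) := by ring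

theorem main_sub (hG : IsCay G S) [Infinite Γ] (hF : Fol G)
    (hW : ∀ n : ℕ, ∃ W : Finset Γ, n ≤ W.card ∧ Free W) {p : unitInterval}
    (hp : pcG G 1 < p) (v : Γ) :
    ∃ ε : ℝ, 0 < ε ∧ ∃ C : ℝ, 0 < C ∧
      (∀ n : ℕ, perc E p {ω | ∃ (U : Finset Γ) (A : Finset E), G.IsSub ω v U A ∧
          n ≤ A.card ∧ ((G.bdry ω U A).card : ℝ) ≤ ε * n / Real.log (n + 1)} ≤
        ENNReal.ofReal (C * Real.exp (-(ε * n / Real.log (n + 1))))) ∧
      ∀ᵐ ω ∂(perc E p), ∃ n₀ : ℕ, ∀ (U : Finset Γ) (A : Finset E), G.IsSub ω v U A →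
        n₀ ≤ A.card → ε * A.card / Real.log (A.card + 1) ≤ ((G.bdry ω U A).card : ℝ) := by
  obtain ⟨ε, hε, C, hC, hcore⟩ := core_gen hG hF hW hp
  obtain ⟨q, hqd⟩ : ∃ q, q = (G.inc 1).card := ⟨_, rfl⟩
  have hq : 1 ≤ q := by rw [hqd]; exact deg_pos hG
  have hq0 : (0 : ℝ) < q := by exact_mod_cast hq
  have hrat : ∀ n u : ℕ, n ≤ q * u →
      ε / q * n / Real.log (n + 1) ≤ ε * u / Real.log (u + 1) := by
    intro n u hnu
    have h1 := mul_le_mul_of_nonneg_left (mg_ratio hq hnu) hε.le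
    calc ε / q * n / Real.log (n + 1) = ε * (n / q / Real.log (n + 1)) := by ring
      _ ≤ ε * (u / Real.log (u + 1)) := h1
      _ = ε * u / Real.log (u + 1) := by ring
  refine ⟨ε / q, by positivity, C, hC, fun n => ?_, ?_⟩
  · obtain ⟨m, hm⟩ : ∃ m, m = (n + q - 1) / q := ⟨_, rfl⟩
    have hqm : n ≤ q * m := by
      have h1 := Nat.div_add_mod (n + q - 1) q
      have h2 := Nat.mod_lt (n + q - 1) (show 0 < q by omega)
      rw [← hm] at h1
      omega
    have hmU : ∀ u : ℕ, n ≤ q * u → m ≤ u := by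
      intro u hu
      rw [hm]
      apply Nat.le_of_lt_succ
      rw [Nat.div_lt_iff_lt_mul (by omega)]
      have : q * (u + 1) = q * u + q := by ring
      rw [Nat.succ_eq_add_one, mul_comm]
      omega
    have hkey := hrat n m hqm
    have hsub : {ω : E → Bool | ∃ (U : Finset Γ) (A : Finset E),
        G.IsSub ω v U A ∧ n ≤ A.card ∧
          ((G.bdry ω U A).card : ℝ) ≤ ε / q * n / Real.log (n + 1)} ⊆
        {ω | G.Bad v ω m (ε * m / Real.log (m + 1))} := by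
      rintro ω ⟨U, A, hUA, hA, hb⟩
      have hcard := sub_card_gen hG hUA
      rw [← hqd] at hcard
      refine ⟨U, hUA.1, hmU _ (hA.trans hcard), G.sub_reach hUA, ?_⟩
      have h6 : (((G.cut U).filter (fun e => ω e = true)).card : ℝ) ≤
          (G.bdry ω U A).card := by
        exact_mod_cast Finset.card_le_card (G.cut_subset_bdry hUA)
      linarith
    refine (measure_mono hsub).trans (((hcore v).1 m).trans ?_)
    apply ENNReal.ofReal_le_ofReal
    exact mul_le_mul_of_nonneg_left (Real.exp_le_exp.2 (by linarith)) hC.le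
  · filter_upwards [(hcore v).2] with ω hω
    obtain ⟨n₀, hn₀⟩ := hω
    refine ⟨q * n₀ + 1, fun U A hUA hA => ?_⟩
    have hcard := sub_card_gen hG hUA
    rw [← hqd] at hcard
    have hU₀ : n₀ ≤ U.card := by
      by_contra hcon
      rw [not_le] at hcon
      have : q * U.card ≤ q * n₀ := Nat.mul_le_mul_left _ hcon.le
      omega
    have h5 := hn₀ U hUA.1 hU₀ (G.sub_reach hUA)
    have h6 : (((G.cut U).filter (fun e => ω e = true)).card : ℝ) ≤
        (G.bdry ω U A).card := by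
      exact_mod_cast Finset.card_le_card (G.cut_subset_bdry hUA)
    have h7 := hrat A.card U.card hcard
    linarith

private theorem mg_psi {C₀ : ℝ} (hψ : ∀ t : ℝ, 2 ≤ t → G.psi t ≤ C₀ * t / Real.log t) {c : ℝ}
    (hc : 0 < c) : ∃ C₂ : ℝ, 0 < C₂ ∧ ∀ n : ℕ, 2 ≤ c * n →
      G.psi (c * n) ≤ C₂ * (n / Real.log (n + 1)) := by
  obtain ⟨C₃, hC₃, hlog⟩ := mg_log hc
  refine ⟨max C₀ 1 * c * C₃, by positivity, fun n hcn => ?_⟩
  have hn0 : (0 : ℝ) ≤ n := Nat.cast_nonneg n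
  have hn1 : (0 : ℝ) < n := by
    rcases hn0.eq_or_lt with h | h
    · rw [← h, mul_zero] at hcn
      linarith
    · exact h
  have hlogn : 0 < Real.log (n + 1) := Real.log_pos (by linarith)
  have hlogcn : 0 < Real.log (c * n) := Real.log_pos (by linarith)
  have h2 := hlog n hn0 hcn
  have h0 : C₀ * (c * n) / Real.log (c * n) ≤ max C₀ 1 * (c * n) / Real.log (c * n) := by
    apply div_le_div_of_nonneg_right _ hlogcn.le
    exact mul_le_mul_of_nonneg_right (le_max_left _ _) (by linarith)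
  have h3 : max C₀ 1 * (c * n) / Real.log (c * n) ≤
      max C₀ 1 * (c * n) * C₃ / Real.log (n + 1) := by
    rw [div_le_div_iff₀ hlogcn hlogn]
    have h4 : 0 ≤ max C₀ 1 * (c * n) := by positivity
    calc max C₀ 1 * (c * n) * Real.log (n + 1) ≤
          max C₀ 1 * (c * n) * (C₃ * Real.log (c * n)) :=
          mul_le_mul_of_nonneg_left h2 h4
      _ = max C₀ 1 * (c * n) * C₃ * Real.log (c * n) := by ring
  refine (hψ _ hcn).trans (h0.trans (h3.trans_eq ?_))
  ring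

theorem main_ae (hG : IsCay G S) [Infinite Γ]
    (hW : ∀ n : ℕ, ∃ W : Finset Γ, n ≤ W.card ∧ Free W) {C₀ : ℝ}
    (hψ : ∀ t : ℝ, 2 ≤ t → G.psi t ≤ C₀ * t / Real.log t) {p : unitInterval}
    (hp : pcG G 1 < p) (v : Γ) {c : ℝ} (hc : 0 < c) :
    ∃ δ : ℝ, 0 < δ ∧ ∀ᵐ ω ∂(perc E p), (G.cluster ω v).Infinite →
      ∀ᶠ n : ℕ in Filter.atTop, δ ≤ G.In ω v c n := by
  obtain ⟨ε, hε, C, hC, -, hae⟩ := main_sub hG (fol_of_psi hG hψ) hW hp v
  obtain ⟨C₂, hC₂, hup⟩ := mg_psi hψ hc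
  refine ⟨ε / C₂, by positivity, ?_⟩
  filter_upwards [hae] with ω hω hinf
  obtain ⟨n₀, hn₀⟩ := hω
  filter_upwards [Filter.eventually_ge_atTop (n₀ + 1),
    Filter.eventually_ge_atTop ⌈2 / c⌉₊] with n hn hnc
  have hn1 : 1 ≤ n := by omega
  have hcn : 2 ≤ c * n := by
    have h1 : 2 / c ≤ n := (Nat.le_ceil _).trans (by exact_mod_cast hnc)
    rw [div_le_iff₀ hc] at h1
    linarith
  have hpos : 0 < G.psi (c * n) := by
    have := psi_pos hG (show 0 < c * (n : ℝ) by linarith)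
    linarith
  obtain ⟨U₀, A₀, hUA₀, hA₀⟩ := G.exists_sub hinf n
  refine le_csInf ⟨_, U₀, A₀, hUA₀, hA₀, rfl⟩ ?_
  rintro r ⟨U, A, hUA, hA, rfl⟩
  rw [le_div_iff₀ hpos]
  have h5 := hn₀ U A hUA (by omega)
  have h6 := mul_le_mul_of_nonneg_left (div_log_mono hn1 hA) hε.le
  calc ε / C₂ * G.psi (c * n) ≤ ε / C₂ * (C₂ * (n / Real.log (n + 1))) :=
        mul_le_mul_of_nonneg_left (hup n hcn) (by positivity)
    _ = ε * (n / Real.log (n + 1)) := by field_simp
    _ ≤ ε * (A.card / Real.log (A.card + 1)) := h6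
    _ = ε * A.card / Real.log (A.card + 1) := by ring
    _ ≤ ((G.bdry ω U A).card : ℝ) := h5

theorem main_tail (hG : IsCay G S) [Infinite Γ]
    (hW : ∀ n : ℕ, ∃ W : Finset Γ, n ≤ W.card ∧ Free W) {C₀ : ℝ}
    (hψ : ∀ t : ℝ, 2 ≤ t → G.psi t ≤ C₀ * t / Real.log t) {p : unitInterval}
    (hp : pcG G 1 < p) (v : Γ) :
    ∃ a : ℝ, 0 < a ∧ ∃ C : ℝ, 0 < C ∧ ∀ n : ℕ,
      perc E p {ω | ∃ (U : Finset Γ) (A : Finset E), G.IsSub ω v U A ∧ n ≤ A.card ∧
          ((G.bdry ω U A).card : ℝ) ≤ a * G.psi n} ≤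
        ENNReal.ofReal (C * Real.exp (-(a * G.psi n))) := by
  obtain ⟨ε, hε, C, hC, hpr, -⟩ := main_sub hG (fol_of_psi hG hψ) hW hp v
  obtain ⟨C₂', hC₂', hup'⟩ := mg_psi hψ one_pos
  obtain ⟨C₂, hC₂, hup⟩ : ∃ C₂ : ℝ, 0 < C₂ ∧ ∀ n : ℕ, 1 ≤ n →
      G.psi n ≤ C₂ * (n / Real.log (n + 1)) := by
    have hl2 : 0 < Real.log 2 := Real.log_pos (by norm_num)
    have hp2 : 0 ≤ G.psi 2 := psi_nonneg G 2
    refine ⟨C₂' + G.psi 2 * Real.log 2, by positivity, fun n hn => ?_⟩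
    have hn1 : (1 : ℝ) ≤ n := by exact_mod_cast hn
    have hlogn : 0 < Real.log ((n : ℝ) + 1) := Real.log_pos (by linarith)
    have hr : 0 ≤ (n : ℝ) / Real.log (n + 1) := by positivity
    rcases hn.eq_or_lt with h1 | h1
    · subst h1
      have h2 : G.psi ((1 : ℕ) : ℝ) ≤ G.psi 2 := psi_mono hG (by norm_num)
      refine h2.trans ?_
      have h3 : G.psi 2 * Real.log 2 * ((1 : ℕ) / Real.log (((1 : ℕ) : ℝ) + 1)) = G.psi 2 := by
        rw [Nat.cast_one, one_add_one_eq_two, mul_one_div, mul_div_assoc, div_self hl2.ne', mul_one]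
      rw [add_mul, h3]
      have h4 : 0 ≤ C₂' * (((1 : ℕ) : ℝ) / Real.log (((1 : ℕ) : ℝ) + 1)) :=
        mul_nonneg hC₂'.le hr
      linarith
    · have h2 := hup' n (by
        rw [one_mul]
        exact_mod_cast h1)
      rw [one_mul] at h2
      refine h2.trans (mul_le_mul_of_nonneg_right ?_ hr)
      have : 0 ≤ G.psi 2 * Real.log 2 := by positivity
      linarith
  refine ⟨ε / C₂, by positivity, max C 1, by positivity, fun n => ?_⟩
  rcases Nat.eq_zero_or_pos n with hn | hn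
  · have h0 : G.psi 0 = 0 := by
      refine le_antisymm ?_ (psi_nonneg G 0)
      refine csInf_le ⟨0, ?_⟩ ⟨∅, by simp, by simp [Gr.cut, Gr.touch]⟩
      rintro m ⟨K, _, rfl⟩
      exact Nat.cast_nonneg _
    haveI : IsProbabilityMeasure (perc E p) := by unfold perc; infer_instance
    rw [hn, Nat.cast_zero, h0, mul_zero, neg_zero, Real.exp_zero, mul_one]
    refine prob_le_one.trans ?_
    rw [← ENNReal.ofReal_one]
    exact ENNReal.ofReal_le_ofReal (le_max_right _ _)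
  · have hkey : ε / C₂ * G.psi n ≤ ε * n / Real.log (n + 1) := by
      calc ε / C₂ * G.psi n ≤ ε / C₂ * (C₂ * (n / Real.log (n + 1))) :=
            mul_le_mul_of_nonneg_left (hup n hn) (by positivity)
        _ = ε * n / Real.log (n + 1) := by field_simp
    have hsub : {ω : E → Bool | ∃ (U : Finset Γ) (A : Finset E),
        G.IsSub ω v U A ∧ n ≤ A.card ∧ ((G.bdry ω U A).card : ℝ) ≤ ε / C₂ * G.psi n} ⊆
        {ω | ∃ (U : Finset Γ) (A : Finset E), G.IsSub ω v U A ∧ n ≤ A.card ∧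
          ((G.bdry ω U A).card : ℝ) ≤ ε * n / Real.log (n + 1)} := by
      rintro ω ⟨U, A, hUA, hA, hb⟩
      exact ⟨U, A, hUA, hA, hb.trans hkey⟩
    refine (measure_mono hsub).trans ((hpr n).trans ?_)
    apply ENNReal.ofReal_le_ofReal
    exact mul_le_mul (le_max_left _ _) (Real.exp_le_exp.2 (by linarith)) (Real.exp_pos _).le
      (by positivity)

end Pool.Agent.CGA
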