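import Pool.Agent.CGA.Lists
import Pool.Agent.CGA.LineP

/-!
# CGA/NearG: few lines come near a given non-lingering line at time `i`

Let `L ∈ ls W K` be non-lingering, `z_j = y * (L.take j).prod`. If `L' ∈ ls W K` and the ball of radius
`R` around `w = y * (L'.take i).prod` meets `UL S R y L`, then (`mem_UL`, `meet_ball`) there is `j < K` with
`z_j⁻¹ w ∈ bl S (2R)` (or its inverse; `inv_mem_bl`). As `y⁻¹ w = (L'.take i).prod ∈ bl S (M i)`
(`prod_mem_bl`, `take_mem_ls`) we get `(L.take j).prod = y⁻¹ z_j ∈ bl S (M i + 2 R)` (`mul_mem_bl`). If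
`j ≥ 1` then by `NL` `(L.take j).prod ∉ bl S (j / C)`, so `j / C < M i + 2 R` (`bl_mono`), so
`j < C (M i + 2 R)` (`Nat.div_lt_iff_lt_mul`). Hence `w ∈ Z := ⋃_{j ∈ range (C (M i + 2R) + 1)} sh z_j (bl S (2R))`,
`|Z| ≤ (C (M i + 2R) + 1) |bl S (2R)|`. The number of the prefixes `L'.take i ∈ ls W i` with
`y * prod ∈ Z` is at most `|Z|` (`free_count`), and every prefix has `|W|^{K-i}` continuations
(the filtered set injects into (prefixes) × `ls W (K-i)` by `L' ↦ (take i, drop i)`; `card_ls`).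
-/

namespace Pool.Agent.CGA

open Finset Pool.Agent.DLP

variable {Γ : Type} [Group Γ] [DecidableEq Γ] {S W : Finset Γ}

open Classical in
theorem near_count (hS : ∀ s ∈ S, s⁻¹ ∈ S) (hfree : Free W) {M R C : ℕ}
    (hM : ∀ u ∈ W, u ∈ bl S M) (hC : 1 ≤ C) {K : ℕ} {L : List Γ} (hL : L ∈ ls W K)
    (hNL : NL S C L) (y : Γ) {i : ℕ} (hi : i ≤ K) :
    ((ls W K).filter (fun L' => ¬ Disjoint (sh (y * (L'.take i).prod) (bl S R))
        (UL S R y L))).card ≤
      W.card ^ (K - i) * ((bl S (2 * R)).card * (C * (M * i + 2 * R) + 1)) := by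
  obtain ⟨Z, hZ⟩ : ∃ Z : Finset Γ, Z = (range (C * (M * i + 2 * R) + 1)).biUnion
      (fun j => sh (y * (L.take j).prod) (bl S (2 * R))) := ⟨_, rfl⟩
  have hZc : Z.card ≤ (bl S (2 * R)).card * (C * (M * i + 2 * R) + 1) := by
    rw [hZ]
    refine card_biUnion_le.trans ?_
    rw [sum_congr rfl (fun j _ => card_sh _ _), sum_const, card_range, smul_eq_mul, mul_comm]
  have h1 : ((ls W K).filter (fun L' => ¬ Disjoint (sh (y * (L'.take i).prod) (bl S R))
      (UL S R y L))).card ≤
      (((ls W i).filter (fun P => y * P.prod ∈ Z)) ×ˢ ls W (K - i)).card := by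
    refine card_le_card_of_injOn (fun L' => (L'.take i, L'.drop i)) ?_ ?_
    · intro L' hL'
      obtain ⟨h2, h3⟩ := mem_filter.1 (mem_coe.1 hL')
      refine mem_coe.2 (mem_product.2 ⟨mem_filter.2 ⟨take_mem_ls h2 hi, ?_⟩, drop_mem_ls h2 i⟩)
      show y * (L'.take i).prod ∈ Z
      rw [not_disjoint_iff] at h3
      obtain ⟨v, hv1, hv2⟩ := h3
      obtain ⟨j, hj, hv3⟩ := (mem_UL S R y L v).1 hv2
      have h4 : (y * (L.take j).prod)⁻¹ * (y * (L'.take i).prod) ∈ bl S (R + R) :=
        meet_ball hS (not_disjoint_iff.2 ⟨v, hv3, hv1⟩)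
      rw [← two_mul] at h4
      rw [hZ, mem_biUnion]
      refine ⟨j, ?_, mem_sh.2 h4⟩
      rw [mem_range]
      rcases Nat.eq_zero_or_pos j with hj0 | hj0
      · omega
      · have h5 := hNL j hj0 hj.le
        have h6 : (L.take j).prod ∈ bl S (M * i + 2 * R) := by
          have h7 := mul_mem_bl (prod_mem_bl hM (take_mem_ls h2 hi)) (inv_mem_bl hS h4)
          have e : (L'.take i).prod * ((y * (L.take j).prod)⁻¹ * (y * (L'.take i).prod))⁻¹ =
              (L.take j).prod := by group
          rwa [e] at h7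
        have h8 : j / C < M * i + 2 * R := by
          by_contra hcon
          push Not at hcon
          exact h5 (bl_mono hcon h6)
        have h9 := (Nat.div_lt_iff_lt_mul (by omega)).1 h8
        rw [mul_comm] at h9
        omega
    · intro L' _ L'' _ h
      have h2 := (Prod.mk.inj h).1
      have h3 := (Prod.mk.inj h).2
      rw [← List.take_append_drop i L', ← List.take_append_drop i L'', h2, h3]
  refine h1.trans ?_
  rw [card_product, card_ls, mul_comm]
  exact Nat.mul_le_mul_left _ ((free_count hfree i Z y).trans hZc)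

end Pool.Agent.CGA
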