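import Pool.Agent.CGA.Ball

/-!
# CGA/Pack: disjoint balls deep inside a finite set

`B₀ = bl S n ∋ 1`. `core` = the `g ∈ R` with `sh g B₀ ⊆ R` and `Disjoint (sh g B₀) (bd S R)`.
(a) `|R \ core| ≤ |bd| |B₀|`: for `g ∈ R \ core` there is `b ∈ B₀` with `g b ∈ bd S R` (if `sh g B₀`
is not contained in `R` use `exit_ball`); the map `g ↦ (g b, b)` is injective; or: `R \ core` is
contained in the image of `bd × B₀` under `(x, b) ↦ x b⁻¹`.
(b) Let `P ⊆ core` have the maximal number of elements among the subsets of `core` with pairwise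
disjoint balls `sh g B₀` (`g ∈ P`) (`Finset.exists_max_image` over the powerset; `∅` is allowed). For
`h ∈ core` there is `g ∈ P` with `sh g B₀ ∩ sh h B₀ ≠ ∅` (if `h ∈ P` itself; otherwise
`insert h P` contradicts the maximality), i.e. `h = g b b'⁻¹` with `b, b' ∈ B₀`. So
`|core| ≤ |P| |B₀|²` (image of `P × B₀ × B₀`).
-/

namespace Pool.Agent.CGA

open Finset Pool.Agent.DLP

variable {Γ : Type} [Group Γ] [DecidableEq Γ]

theorem exists_pack (S R : Finset Γ) (n : ℕ) :
    ∃ P : Finset Γ, (∀ g ∈ P, sh g (bl S n) ⊆ R ∧ Disjoint (sh g (bl S n)) (bd S R)) ∧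
      (∀ g ∈ P, ∀ h ∈ P, g ≠ h → Disjoint (sh g (bl S n)) (sh h (bl S n))) ∧
      R.card ≤ (bd S R).card * (bl S n).card + P.card * (bl S n).card ^ 2 := by
  obtain ⟨B, hB⟩ : ∃ B, B = bl S n := ⟨_, rfl⟩
  have h1B : (1 : Γ) ∈ B := by rw [hB]; exact one_mem_bl S n
  obtain ⟨core, hcore⟩ : ∃ core, core = R.filter (fun g => sh g B ⊆ R ∧ Disjoint (sh g B) (bd S R)) :=
    ⟨_, rfl⟩
  have ha : R \ core ⊆ Finset.image₂ (fun x b => x * b⁻¹) (bd S R) B := by
    intro g hg
    rw [mem_sdiff, hcore, mem_filter, not_and] at hg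
    have h2 := hg.2 hg.1
    have h3 : ∃ b ∈ B, g * b ∈ bd S R := by
      by_cases h4 : sh g B ⊆ R
      · have h5 : ¬ Disjoint (sh g B) (bd S R) := fun h => h2 ⟨h4, h⟩
        rw [Finset.not_disjoint_iff] at h5
        obtain ⟨z, hz, hz'⟩ := h5
        rw [mem_sh] at hz
        refine ⟨_, hz, ?_⟩
        rw [mul_inv_cancel_left]
        exact hz'
      · obtain ⟨z, hz, hz'⟩ := Finset.not_subset.1 h4
        rw [mem_sh, hB] at hz
        have h5 := exit_ball (R := R) (b := g⁻¹ * z) hg.1 hz (by rw [mul_inv_cancel_left]; exact hz')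
        rw [hB]
        exact h5
    obtain ⟨b, hb, hb'⟩ := h3
    rw [Finset.mem_image₂]
    exact ⟨g * b, hb', b, hb, mul_inv_cancel_right g b⟩
  obtain ⟨P, hP, hPmax⟩ := Finset.exists_max_image
    (core.powerset.filter (fun P => ∀ g ∈ P, ∀ h ∈ P, g ≠ h → Disjoint (sh g B) (sh h B)))
    Finset.card ⟨∅, by simp⟩
  rw [mem_filter, mem_powerset] at hP
  obtain ⟨hPc, hPd⟩ := hP
  have hmeet : ∀ h ∈ core, ∃ g ∈ P, ¬ Disjoint (sh g B) (sh h B) := by
    intro h hh
    by_contra hcon
    push Not at hcon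
    have hhP : h ∉ P := by
      intro hhP
      have h2 := hcon h hhP
      rw [Finset.disjoint_left] at h2
      have h3 : h * 1 ∈ sh h B := mul_mem_sh.2 h1B
      exact h2 h3 h3
    have h2 := hPmax (insert h P) (by
      rw [mem_filter, mem_powerset]
      refine ⟨Finset.insert_subset hh hPc, ?_⟩
      intro a ha b hb hab
      rw [mem_insert] at ha hb
      rcases ha with ha | ha
      · rcases hb with hb | hb
        · exact absurd (ha.trans hb.symm) hab
        · rw [ha]
          exact (hcon b hb).symm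
      · rcases hb with hb | hb
        · rw [hb]
          exact hcon a ha
        · exact hPd a ha b hb hab)
    rw [Finset.card_insert_of_notMem hhP] at h2
    omega
  have hb : core ⊆ (P ×ˢ (B ×ˢ B)).image (fun q => q.1 * q.2.1 * q.2.2⁻¹) := by
    intro h hh
    obtain ⟨g, hg, hgh⟩ := hmeet h hh
    rw [Finset.not_disjoint_iff] at hgh
    obtain ⟨z, hz, hz'⟩ := hgh
    rw [mem_sh] at hz hz'
    rw [mem_image]
    refine ⟨(g, (g⁻¹ * z, h⁻¹ * z)), ?_, ?_⟩
    · rw [mem_product, mem_product]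
      exact ⟨hg, hz, hz'⟩
    · show g * (g⁻¹ * z) * (h⁻¹ * z)⁻¹ = h
      group
  have hcs : core ⊆ R := by rw [hcore]; exact filter_subset _ _
  refine ⟨P, ?_, ?_, ?_⟩
  · intro g hg
    have h2 := hPc hg
    rw [hcore, mem_filter] at h2
    rw [← hB]
    exact h2.2
  · rw [← hB]
    exact hPd
  · rw [← hB]
    have c1 := (card_le_card ha).trans (Finset.card_image₂_le _ _ _)
    have c2 := (card_le_card hb).trans Finset.card_image_le
    rw [card_product, card_product] at c2
    have c3 := Finset.card_sdiff_add_card_eq_card hcs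
    calc R.card = (R \ core).card + core.card := c3.symm
      _ ≤ (bd S R).card * B.card + P.card * (B.card * B.card) := Nat.add_le_add c1 c2
      _ = _ := by ring

end Pool.Agent.CGA
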