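import Pool.Agent.CGA.LineP

/-!
# CGA/PairG: two open lines from the same point

`pair_le`: `OL y (L₁ ++ L₂)` implies `OL (y L₁.prod) L₂` (`OL_append`). The events `OL y L` and
`OL (y L₁.prod) L₂` depend on disjoint sets of edges (`dep_OL`; disjoint vertex sets have disjoint
`inn`), so the probability is at most `pL y L * pL (y L₁.prod) L₂` (`pr_mono`, `pr_indep`,
`pL_eq`), and `pL y (L₁ ++ L₂) ≥ pL y L₁ * pL (y L₁.prod) L₂ ≥ c^m pL (y L₁.prod) L₂`
(`pL_append`, `pL_ge`).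

`pair_near`: let `m ≤ K` be minimal such that `UL (y * (L'.take m).prod) (L'.drop m)` is disjoint from
`UL y L` (`m = K` works: the set is empty). `pair_le` with `L₁ = L'.take m`, `L₂ = L'.drop m` gives the bound
`(c⁻¹)^m`. If `m = 0` it is at most the term `1`. If `m ≥ 1` then `UL` from `m - 1` on is the union of the
ball around `y * (L'.take (m-1)).prod` and `UL` from `m` on (`L'.drop (m-1) = u :: L'.drop m`), so
this ball meets `UL y L`, and `(c⁻¹)^m` is the summand `i = m - 1`. All summands are `≥ 0`.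
-/

namespace Pool.Agent.CGA

open Finset Pool.Agent.DLP

variable {Γ E : Type} [Group Γ] [DecidableEq Γ] [DecidableEq E] {G : Gr Γ E}
  {S W : Finset Γ}

theorem pair_le (hG : IsCay G S) {p c : ℝ} (h0 : 0 ≤ p) (h1 : p ≤ 1) (hc0 : 0 < c) {R : ℕ}
    (hc : ∀ u ∈ W, c ≤ cp G p (bl S R) 1 u) {m k : ℕ} {y : Γ} {L L₁ L₂ : List Γ}
    (hL₁ : L₁ ∈ ls W m) (hL₂ : L₂ ∈ ls W k)
    (hdis : Disjoint (UL S R y L) (UL S R (y * L₁.prod) L₂)) {F : Finset E}
    (hF : G.inn (UL S R y L) ⊆ F) (hF' : G.inn (UL S R y (L₁ ++ L₂)) ⊆ F) :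
    pr p F (fun ω => OL G S R y L ω ∧ OL G S R y (L₁ ++ L₂) ω) ≤
      c⁻¹ ^ m * (pL G p S R y L * pL G p S R y (L₁ ++ L₂)) := by
  have hd : Disjoint (↑(G.inn (UL S R y L)) : Set E)
      (↑(G.inn (UL S R (y * L₁.prod) L₂)) : Set E) := by
    rw [Set.disjoint_left]
    intro e he he'
    have e1 := ((Gr.mem_inn G).1 (mem_coe.1 he)).1
    have e2 := ((Gr.mem_inn G).1 (mem_coe.1 he')).1
    exact (Finset.disjoint_left.1 hdis) e1 e2
  have h2 : G.inn (UL S R (y * L₁.prod) L₂) ⊆ F := by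
    refine (Gr.inn_mono G ?_).trans hF'
    rw [UL_append]
    exact subset_union_right
  have h3 : pr p F (fun ω => OL G S R y L ω ∧ OL G S R y (L₁ ++ L₂) ω) ≤
      pr p F (fun ω => OL G S R y L ω ∧ OL G S R (y * L₁.prod) L₂ ω) :=
    pr_mono h0 h1 fun ω _ h => ⟨h.1, ((OL_append G S R y L₁ L₂ ω).1 h.2).2⟩
  rw [pr_indep (dep_OL G S R y L) (dep_OL G S R (y * L₁.prod) L₂) hd, pL_eq G S p hF,
    pL_eq G S p h2] at h3
  have h4 := pL_append G S h0 h1 R y L₁ L₂
  have h5 := pL_ge hG h0 h1 hc0.le hc hL₁ y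
  have h6 : 0 ≤ pL G p S R y L := pr_nonneg h0 h1 _ _
  have h7 : 0 ≤ pL G p S R (y * L₁.prod) L₂ := pr_nonneg h0 h1 _ _
  have h8 : c ^ m * pL G p S R (y * L₁.prod) L₂ ≤ pL G p S R y (L₁ ++ L₂) :=
    (mul_le_mul_of_nonneg_right h5 h7).trans h4
  have h9 : pL G p S R (y * L₁.prod) L₂ ≤ c⁻¹ ^ m * pL G p S R y (L₁ ++ L₂) := by
    rw [inv_pow, ← div_eq_inv_mul, le_div_iff₀ (pow_pos hc0 m), mul_comm]
    exact h8
  refine h3.trans ?_
  calc pL G p S R y L * pL G p S R (y * L₁.prod) L₂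
      ≤ pL G p S R y L * (c⁻¹ ^ m * pL G p S R y (L₁ ++ L₂)) :=
        mul_le_mul_of_nonneg_left h9 h6
    _ = c⁻¹ ^ m * (pL G p S R y L * pL G p S R y (L₁ ++ L₂)) := by ring

open Classical in
theorem pair_near (hG : IsCay G S) {p c : ℝ} (h0 : 0 ≤ p) (h1 : p ≤ 1) (hc0 : 0 < c) {R : ℕ}
    (hc : ∀ u ∈ W, c ≤ cp G p (bl S R) 1 u) {K : ℕ} {y : Γ} {L L' : List Γ}
    (hL' : L' ∈ ls W K) {F : Finset E}
    (hF : G.inn (UL S R y L) ⊆ F) (hF' : G.inn (UL S R y L') ⊆ F) :
    pr p F (fun ω => OL G S R y L ω ∧ OL G S R y L' ω) ≤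
      (1 + ∑ i ∈ range K, c⁻¹ ^ (i + 1) *
        (if ¬ Disjoint (sh (y * (L'.take i).prod) (bl S R)) (UL S R y L) then 1 else 0)) *
      (pL G p S R y L * pL G p S R y L') := by
  have hlen : L'.length = K := (mem_ls.1 hL').1
  have hex : ∃ m, m ≤ K ∧
      Disjoint (UL S R y L) (UL S R (y * (L'.take m).prod) (L'.drop m)) := by
    refine ⟨K, le_rfl, ?_⟩
    have e1 : L'.drop K = [] := List.drop_eq_nil_of_le (by omega)
    rw [e1]
    exact Finset.disjoint_empty_right _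
  obtain ⟨hmK, hdis⟩ := Nat.find_spec hex
  set m := Nat.find hex with hm
  have key := pair_le hG h0 h1 hc0 hc (F := F) (y := y) (L := L) (take_mem_ls hL' hmK)
    (drop_mem_ls hL' m) hdis hF (by rw [List.take_append_drop]; exact hF')
  rw [List.take_append_drop] at key
  refine key.trans ?_
  have hci : 0 ≤ c⁻¹ := (inv_pos.2 hc0).le
  have hnn : ∀ i ∈ range K, (0 : ℝ) ≤ c⁻¹ ^ (i + 1) *
      (if ¬ Disjoint (sh (y * (L'.take i).prod) (bl S R)) (UL S R y L) then 1 else 0) := by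
    intro i _
    refine mul_nonneg (pow_nonneg hci _) ?_
    split_ifs
    · exact le_rfl
    · exact zero_le_one
  refine mul_le_mul_of_nonneg_right ?_
    (mul_nonneg (pr_nonneg h0 h1 _ _) (pr_nonneg h0 h1 _ _))
  rcases Nat.eq_zero_or_pos m with h | h
  · rw [h, pow_zero]
    linarith [Finset.sum_nonneg hnn]
  · have hi : m - 1 ∈ range K := mem_range.2 (by omega)
    have hle := Finset.single_le_sum hnn hi
    have hnot : ¬ Disjoint (sh (y * (L'.take (m - 1)).prod) (bl S R)) (UL S R y L) := by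
      intro hD
      have hmin := Nat.find_min hex (m := m - 1) (by omega)
      apply hmin
      refine ⟨by omega, ?_⟩
      have hlt : m - 1 < L'.length := by omega
      have e1 : L'.drop (m - 1) = L'[m - 1] :: L'.drop m := by
        have e2 := List.drop_eq_getElem_cons hlt
        rw [show m - 1 + 1 = m from by omega] at e2
        exact e2
      have e3 : (L'.take m).prod = (L'.take (m - 1)).prod * L'[m - 1] := by
        have e4 := List.prod_take_succ L' (m - 1) hlt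
        rw [show m - 1 + 1 = m from by omega] at e4
        exact e4
      rw [e1]
      show Disjoint _ (sh (y * (L'.take (m - 1)).prod) (bl S R) ∪
        UL S R (y * (L'.take (m - 1)).prod * L'[m - 1]) (L'.drop m))
      rw [Finset.disjoint_union_right]
      refine ⟨hD.symm, ?_⟩
      rw [mul_assoc, ← e3]
      exact hdis
    rw [if_pos hnot, mul_one, show m - 1 + 1 = m from by omega] at hle
    linarith

end Pool.Agent.CGA
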