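import Pool.Agent.CGA.ThreeG
import Pool.Agent.CGA.CpG

/-!
# CGA/TauG: the two point function is bounded below

`arm_ge`: for `x ∈ Λ`, `Exit Λ ω univ x` implies `Arm G S Λ (ω ∩ inn Λ) x`: `Reach.first_exit` with
`B = Λ`: `x` is joined inside `Λ` to `u ∈ Λ`, an edge joins `u` to `w ∉ Λ`, `u⁻¹ w ∈ S` (`hG.adj`, `cay_adj'`),
so `u ∈ bd S Λ`; `Reach.restrict`. `Arm` depends only on `inn Λ ⊆ touch Λ` (`Gr.dep_reach`,
`pr_dep`), `pr_mono`.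

`dichotomy`: let `δ = θ³/4`; `three_small` with `x = 1, u, v`, `ε = δ`, gives `Λ`. By `arm_ge` and Harris
(`harris_pr` twice; `Arm` is increasing) the three arms exist with probability `≥ θ³`
over `inn Λ`. Then either `Three` holds or one of the three pairs is joined inside `Λ`:
`θ³ ≤ δ + cp(1,u) + cp(1,v) + cp(u,v)` (`pr_or_le`). So one of them is `≥ θ³/4`.

`tau_pos`: let `δ = θ³/4`. If for every `g` there is `Λ` with `δ ≤ cp Λ 1 g`, take `c = δ`. Otherwise fix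
`u₀` with `cp Λ 1 u₀ < δ` for all `Λ`, `u₀ ∈ bl S n` (`gen`), `c = p^n δ` (`≤ δ`). Let `g : Γ`. Dichotomy
for `u₀, g`: either `δ ≤ cp Λ 1 g`, or `δ ≤ cp Λ u₀ g`, and then with `D = sh 1 (bl S n) ∪ Λ`
(`sh_one`) `cp D 1 g ≥ cp (bl S n) 1 u₀ * cp Λ u₀ g ≥ p^n δ` (`cp_path`, `cp_trans`).

`exists_radius`: for every `u ∈ W` choose `Λ_u`, and `R_u` with `Λ_u ⊆ bl S R_u` (`gen`, `bl_mono`, finite);
`R` = maximum; `cp_mono`.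
-/

namespace Pool.Agent.CGA

open Finset Pool.Agent.DLP

variable {Γ E : Type} [Group Γ] [DecidableEq Γ] [DecidableEq E] {G : Gr Γ E} {S : Finset Γ}

private theorem dep_arm (S Λ : Finset Γ) (x : Γ) :
    Dep (↑(G.inn Λ) : Set E) (fun ω => Arm G S Λ ω x) := by
  intro ω ω' h
  have h1 : ∀ y, G.Reach (↑ω : Set E) (↑Λ : Set Γ) x y = G.Reach (↑ω' : Set E) (↑Λ : Set Γ) x y :=
    fun y => Gr.dep_reach G Λ x y ω ω' h
  show Arm G S Λ ω x = Arm G S Λ ω' x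
  unfold Arm
  simp only [h1]

private theorem arm_mono {S Λ : Finset Γ} {x : Γ} {ω ω' : Finset E} (h : ω ⊆ ω')
    (hA : Arm G S Λ ω x) : Arm G S Λ ω' x := by
  obtain ⟨y, hy, hr⟩ := hA
  exact ⟨y, hy, hr.mono (Finset.coe_subset.2 h) (Set.Subset.refl _)⟩

theorem arm_ge (hG : IsCay G S) {p : ℝ} (h0 : 0 ≤ p) (h1 : p ≤ 1) {Λ : Finset Γ} {x : Γ}
    (hx : x ∈ Λ) : xt G p Λ x ≤ pr p (G.inn Λ) (fun ω => Arm G S Λ ω x) := by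
  have h2 : pr p (G.inn Λ) (fun ω => Arm G S Λ ω x) =
      pr p (G.touch Λ) (fun ω => Arm G S Λ ω x) := by
    refine pr_dep (dep_arm S Λ x) fun i hi => ?_
    have hi' : i ∈ G.inn Λ := mem_coe.1 hi
    exact ⟨fun _ => (Finset.mem_filter.1 hi').1, fun _ => hi'⟩
  rw [h2]
  unfold xt
  refine pr_mono h0 h1 fun ω _ hE => ?_
  obtain ⟨y, hy, hr⟩ := hE
  obtain ⟨e, he, u, w, hu, hw, hab, -, -, hr1, -⟩ := hr.first_exit hx hy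
  refine ⟨u, ?_, hr1.mono (Set.Subset.refl _) Set.inter_subset_right⟩
  unfold bd
  rw [Finset.mem_filter]
  refine ⟨hu, u⁻¹ * w, ?_, ?_⟩
  · rcases hab with ⟨rfl, rfl⟩ | ⟨rfl, rfl⟩
    · exact hG.adj e
    · exact cay_adj' hG e
  · rw [mul_inv_cancel_left]
    exact hw

theorem dichotomy (hG : IsCay G S) (hF : Fol G) {p θ : ℝ} (h0 : 0 < p) (h1 : p ≤ 1)
    (hθ : 0 < θ) (hx : ∀ Λ : Finset Γ, ∀ x ∈ Λ, θ ≤ xt G p Λ x) (u v : Γ) :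
    ∃ Λ : Finset Γ, θ ^ 3 / 4 ≤ cp G p Λ 1 u ∨ θ ^ 3 / 4 ≤ cp G p Λ 1 v ∨
      θ ^ 3 / 4 ≤ cp G p Λ u v := by
  obtain ⟨Λ, hm1, hmu, hmv, hT⟩ := three_small hG hF h0 h1 1 u v (ε := θ ^ 3 / 4) (by positivity)
  refine ⟨Λ, ?_⟩
  by_contra hcon
  push Not at hcon
  obtain ⟨hc1, hc2, hc3⟩ := hcon
  have ha : ∀ x ∈ Λ, θ ≤ pr p (G.inn Λ) (fun ω => Arm G S Λ ω x) := fun x hxΛ =>
    (hx Λ x hxΛ).trans (arm_ge hG h0.le h1 hxΛ)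
  have hh1 := harris_pr (p := p) h0.le h1 (G.inn Λ) (A := fun ω => Arm G S Λ ω 1)
    (B := fun ω => Arm G S Λ ω u) (fun ω ω' h => arm_mono h) (fun ω ω' h => arm_mono h)
  have hh2 := harris_pr (p := p) h0.le h1 (G.inn Λ)
    (A := fun ω => Arm G S Λ ω 1 ∧ Arm G S Λ ω u) (B := fun ω => Arm G S Λ ω v)
    (fun ω ω' h hA => ⟨arm_mono h hA.1, arm_mono h hA.2⟩) (fun ω ω' h => arm_mono h)
  have h3 : θ * θ * θ ≤ pr p (G.inn Λ)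
      (fun ω => (Arm G S Λ ω 1 ∧ Arm G S Λ ω u) ∧ Arm G S Λ ω v) := by
    refine le_trans ?_ hh2
    refine mul_le_mul ?_ (ha v hmv) hθ.le (pr_nonneg h0.le h1 _ _)
    exact le_trans (mul_le_mul (ha 1 hm1) (ha u hmu) hθ.le (pr_nonneg h0.le h1 _ _)) hh1
  have h4 : pr p (G.inn Λ) (fun ω => (Arm G S Λ ω 1 ∧ Arm G S Λ ω u) ∧ Arm G S Λ ω v) ≤
      pr p (G.inn Λ) (fun ω => Three G S Λ 1 u v ω ∨
        (G.Reach (↑ω : Set E) (↑Λ : Set Γ) 1 u ∨ (G.Reach (↑ω : Set E) (↑Λ : Set Γ) 1 v ∨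
          G.Reach (↑ω : Set E) (↑Λ : Set Γ) u v))) := by
    refine pr_mono h0.le h1 ?_
    rintro ω _ ⟨⟨hA1, hA2⟩, hA3⟩
    by_cases hr1 : G.Reach (↑ω : Set E) (↑Λ : Set Γ) 1 u
    · exact Or.inr (Or.inl hr1)
    by_cases hr2 : G.Reach (↑ω : Set E) (↑Λ : Set Γ) 1 v
    · exact Or.inr (Or.inr (Or.inl hr2))
    by_cases hr3 : G.Reach (↑ω : Set E) (↑Λ : Set Γ) u v
    · exact Or.inr (Or.inr (Or.inr hr3))
    exact Or.inl ⟨hA1, hA2, hA3, hr1, hr2, hr3⟩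
  have h5 := pr_or_le (p := p) h0.le h1 (G.inn Λ) (Three G S Λ 1 u v)
    (fun ω => G.Reach (↑ω : Set E) (↑Λ : Set Γ) 1 u ∨ (G.Reach (↑ω : Set E) (↑Λ : Set Γ) 1 v ∨
          G.Reach (↑ω : Set E) (↑Λ : Set Γ) u v))
  have h6 := pr_or_le (p := p) h0.le h1 (G.inn Λ)
    (fun ω => G.Reach (↑ω : Set E) (↑Λ : Set Γ) 1 u)
    (fun ω => G.Reach (↑ω : Set E) (↑Λ : Set Γ) 1 v ∨ G.Reach (↑ω : Set E) (↑Λ : Set Γ) u v)
  have h7 := pr_or_le (p := p) h0.le h1 (G.inn Λ)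
    (fun ω => G.Reach (↑ω : Set E) (↑Λ : Set Γ) 1 v)
    (fun ω => G.Reach (↑ω : Set E) (↑Λ : Set Γ) u v)
  have e1 : cp G p Λ 1 u = pr p (G.inn Λ) (fun ω => G.Reach (↑ω : Set E) (↑Λ : Set Γ) 1 u) := rfl
  have e2 : cp G p Λ 1 v = pr p (G.inn Λ) (fun ω => G.Reach (↑ω : Set E) (↑Λ : Set Γ) 1 v) := rfl
  have e3 : cp G p Λ u v = pr p (G.inn Λ) (fun ω => G.Reach (↑ω : Set E) (↑Λ : Set Γ) u v) := rfl
  rw [← e1] at h6
  rw [← e2, ← e3] at h7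
  have h8 : θ ^ 3 = θ * θ * θ := by ring
  linarith

theorem tau_pos (hG : IsCay G S) (hF : Fol G) {p θ : ℝ} (h0 : 0 < p) (h1 : p ≤ 1)
    (hθ : 0 < θ) (hx : ∀ Λ : Finset Γ, ∀ x ∈ Λ, θ ≤ xt G p Λ x) :
    ∃ c : ℝ, 0 < c ∧ ∀ g : Γ, ∃ Λ : Finset Γ, c ≤ cp G p Λ 1 g := by
  have hδ : 0 < θ ^ 3 / 4 := by positivity
  by_cases hall : ∀ g : Γ, ∃ Λ : Finset Γ, θ ^ 3 / 4 ≤ cp G p Λ 1 g
  · exact ⟨_, hδ, hall⟩
  push Not at hall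
  obtain ⟨u₀, hu₀⟩ := hall
  obtain ⟨n, hn⟩ := hG.gen u₀
  refine ⟨p ^ n * (θ ^ 3 / 4), by positivity, fun g => ?_⟩
  obtain ⟨Λ, h | h | h⟩ := dichotomy hG hF h0 h1 hθ hx u₀ g
  · exact absurd h (not_le.2 (hu₀ Λ))
  · refine ⟨Λ, le_trans ?_ h⟩
    exact mul_le_of_le_one_left hδ.le (pow_le_one₀ h0.le h1)
  · refine ⟨sh 1 (bl S n) ∪ Λ, ?_⟩
    have h2 := cp_path hG h0.le h1 1 hn
    rw [one_mul] at h2
    have h3 := cp_trans G h0.le h1 (B := sh 1 (bl S n)) (B' := Λ) (D := sh 1 (bl S n) ∪ Λ)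
      Finset.subset_union_left Finset.subset_union_right 1 u₀ g
    exact le_trans (mul_le_mul h2 h hδ.le (cp_nonneg G h0.le h1 _ _ _)) h3

private theorem subset_bl (hG : IsCay G S) (D : Finset Γ) : ∃ R : ℕ, D ⊆ bl S R := by
  induction D using Finset.induction_on with
  | empty => exact ⟨0, Finset.empty_subset _⟩
  | insert a D _ ih =>
    obtain ⟨R, hR⟩ := ih
    obtain ⟨n, hn⟩ := hG.gen a
    refine ⟨max R n, ?_⟩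
    rw [Finset.insert_subset_iff]
    exact ⟨bl_mono (le_max_right R n) hn, hR.trans (bl_mono (le_max_left R n))⟩

theorem exists_radius (hG : IsCay G S) {p c : ℝ} (h0 : 0 ≤ p) (h1 : p ≤ 1)
    (hc : ∀ g : Γ, ∃ Λ : Finset Γ, c ≤ cp G p Λ 1 g) (W : Finset Γ) :
    ∃ R : ℕ, ∀ u ∈ W, c ≤ cp G p (bl S R) 1 u := by
  choose Λ hΛ using hc
  obtain ⟨R, hR⟩ := subset_bl hG (W.biUnion Λ)
  refine ⟨R, fun u hu => (hΛ u).trans (cp_mono G h0 h1 ?_ 1 u)⟩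
  exact (Finset.subset_biUnion_of_mem Λ hu).trans hR

end Pool.Agent.CGA
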