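import Pool.Agent.CGA.SecM
import Pool.Agent.CGA.ExitS
import Pool.Agent.CGA.AccG
import Pool.Agent.CGA.TauG
import Pool.Agent.DLP.FlowB

/-!
# CGA/PhiG: the accessible boundary of every finite set

Choose `W` free with `b = |W| ≥ 4` and `2 ≤ c b`; `R` from `exists_radius`; `M` with `W ⊆ bl S M` (`gen`,
`bl_mono`); `D = |S| + 1`; `C ≥ 1` with `D² / p ≤ 2^C`; `Q` from `sec_mom`.
Let `T ⊆ Λ`, `T` nonempty, `Φ = ∑ acc ≥ 0`, `Λ' = Λ ∪ nb S T R`, `K` with `b^K ≥ 2 |Λ'|`.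
* Left side of `exit_count` `≥ ∑_{x ∈ T} (b^K - |Λ'|) ≥ |T| b^K / 2` (`free_count`, `card_ls`).
* If `y ∈ T` then `lns .. y K'' = ∅`: for `K'' ≥ 1` its points at time `0` would be off `nb S T R ⊇ T`; for
  `K'' = 0` the end point `y * 1 ∉ Λ ⊇ T`. So with `n_j = R + M + j / C`, `K'' = K - (m+1) - j`,
  `∑_{y ∈ nb S T n_j} |lns y K''| ≤ Q b^K'' ∑_{y ∈ nb S T n_j, y ∉ T} gx y`
  `≤ Q b^K'' p⁻¹^{n_j} |bl S n_j| Φ` (`sec_mom`, `sum_gx_le`).
* Right side `≤ Q Φ b^K ∑_{m<K} min 1 (|T| b⁻¹^(m+1)) ∑_j b⁻¹^j |bl (j/C)| |bl n_j| p⁻¹^{n_j}`.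
  With `|bl S n| ≤ D^n` (`card_bl_le`):
  `|bl (j/C)| |bl n_j| p⁻¹^{n_j} ≤ (D/p)^{R+M} (D²/p)^{j/C} ≤ (D/p)^{R+M} 2^{C (j/C)} ≤ (D/p)^{R+M} 2^j`, and
  `∑_j (2/b)^j ≤ ∑_j 2⁻¹^j ≤ 2`.
* `sum_min_le` (in `Pool/Agent/DLP/FlowB.lean`, with `M = b`):
  `∑_{m<K} min 1 (|T| b⁻¹^(m+1)) ≤ C₁ log (|T| + 1)`.
So `|T| / 2 ≤ 2 Q (D/p)^{R+M} C₁ log (|T| + 1) Φ`.
-/

namespace Pool.Agent.CGA

open Finset Pool.Agent.DLP

variable {Γ E : Type} [Group Γ] [DecidableEq Γ] [DecidableEq E] {G : Gr Γ E} {S : Finset Γ}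

omit [Group Γ] in
private theorem pg_log {n : ℕ} (hn : 1 ≤ n) : 0 < Real.log ((n : ℝ) + 1) := by
  apply Real.log_pos
  have : (1 : ℝ) ≤ n := by exact_mod_cast hn
  linarith

private theorem pg_empty {W : Finset Γ} {C R : ℕ} {Λ T : Finset Γ} (hT : T ⊆ Λ) {y : Γ}
    (hy : y ∈ T) (K : ℕ) : lns S W C R Λ T y K = ∅ := by
  classical
  unfold lns
  rw [filter_eq_empty_iff]
  rintro L hL ⟨-, h2, h3⟩
  rw [mem_ls] at hL
  rcases Nat.eq_zero_or_pos K with hK | hK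
  · subst hK
    have hL0 : L = [] := List.length_eq_zero_iff.1 hL.1
    subst hL0
    rw [List.prod_nil, mul_one] at h3
    exact h3 (hT hy)
  · have h4 := h2 0 hK
    rw [List.take_zero, List.prod_nil, mul_one] at h4
    exact h4 (subset_nb S T R hy)

private theorem pg_radius (hG : IsCay G S) (W : Finset Γ) : ∃ M, ∀ u ∈ W, u ∈ bl S M := by
  classical
  choose f hf using hG.gen
  refine ⟨W.sup f, fun u hu => ?_⟩
  exact bl_mono (le_sup (f := f) hu) (hf u)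

private theorem pg_geom {b : ℝ} (hb : 4 ≤ b) (K : ℕ) : ∑ j ∈ range K, (2 / b) ^ j ≤ 2 := by
  have h1 : ∀ j ∈ range K, (2 / b) ^ j ≤ (1 / 2 : ℝ) ^ j := by
    intro j _
    refine pow_le_pow_left₀ (by positivity) ?_ j
    rw [div_le_div_iff₀ (by linarith) (by norm_num)]
    linarith
  refine (sum_le_sum h1).trans ?_
  have h2 : ∑ j ∈ range K, (1 / 2 : ℝ) ^ j = 2 - 2 * (1 / 2) ^ K := by
    induction K with
    | zero => simp
    | succ K ih =>
      rw [sum_range_succ, ih (fun j hj => h1 j (mem_range.2 (by rw [mem_range] at hj; omega)))]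
      ring
  rw [h2]
  have : (0 : ℝ) ≤ (1 / 2) ^ K := by positivity
  linarith

private theorem pg_term (hG : IsCay G S) {W : Finset Γ} {p c : ℝ} (h0 : 0 < p) (h1 : p ≤ 1)
    {R M C : ℕ} (hC : 1 ≤ C) {Q D : ℝ} (hQ : 0 < Q) (hD : D = (S.card : ℝ) + 1)
    (hDC : D ^ 2 / p ≤ 2 ^ C)
    (hsec : ∀ (Λ T : Finset Γ) (y : Γ) (K : ℕ),
      ((lns S W C R Λ T y K).card : ℝ) ≤ Q * (W.card : ℝ) ^ K * gx G p Λ T y)
    {Λ T : Finset Γ} (hT : T ⊆ Λ) (j K : ℕ) :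
    ((bl S (j / C)).card : ℝ) *
        ∑ y ∈ nb S T (R + M + j / C), ((lns S W C R Λ T y K).card : ℝ) ≤
      Q * (D / p) ^ (R + M) * (∑ e ∈ G.cut T, G.acc p Λ T e) * (W.card : ℝ) ^ K * 2 ^ j := by
  classical
  obtain ⟨Φ, hΦ⟩ : ∃ Φ, ∑ e ∈ G.cut T, G.acc p Λ T e = Φ := ⟨_, rfl⟩
  have hΦ0 : 0 ≤ Φ := by
    rw [← hΦ]
    exact sum_nonneg fun e _ => pr_nonneg h0.le h1 _ _
  have hD1 : 1 ≤ D := by
    rw [hD]
    have : (0 : ℝ) ≤ S.card := by positivity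
    linarith
  have hD0 : 0 < D := by linarith
  have hbl : ∀ n, ((bl S n).card : ℝ) ≤ D ^ n := by
    intro n
    rw [hD]
    exact_mod_cast card_bl_le S n
  rw [hΦ]
  have e1 : ∑ y ∈ nb S T (R + M + j / C), ((lns S W C R Λ T y K).card : ℝ) =
      ∑ y ∈ (nb S T (R + M + j / C)).filter (fun y => y ∉ T),
        ((lns S W C R Λ T y K).card : ℝ) := by
    rw [sum_filter]
    refine sum_congr rfl fun y _ => ?_
    split_ifs with hy
    · rw [pg_empty hT hy, card_empty, Nat.cast_zero]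
    · rfl
  have e2 : ∑ y ∈ (nb S T (R + M + j / C)).filter (fun y => y ∉ T),
        ((lns S W C R Λ T y K).card : ℝ) ≤
      Q * (W.card : ℝ) ^ K * (p⁻¹ ^ (R + M + j / C) * ((bl S (R + M + j / C)).card : ℝ) * Φ) := by
    refine (sum_le_sum fun y _ => hsec Λ T y K).trans ?_
    rw [← mul_sum]
    refine mul_le_mul_of_nonneg_left ?_ (by positivity)
    have := sum_gx_le hG h0 h1 Λ T (R + M + j / C)
    rw [hΦ] at this
    exact this
  have e3 : p⁻¹ ^ (R + M + j / C) * ((bl S (R + M + j / C)).card : ℝ) ≤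
      (D / p) ^ (R + M + j / C) := by
    rw [div_eq_mul_inv, mul_pow, mul_comm]
    exact mul_le_mul_of_nonneg_right (hbl _) (by positivity)
  have e4 : D ^ (j / C) * (D / p) ^ (R + M + j / C) ≤ (D / p) ^ (R + M) * 2 ^ j := by
    have e5 : D ^ (j / C) * (D / p) ^ (R + M + j / C) =
        (D / p) ^ (R + M) * (D ^ 2 / p) ^ (j / C) := by
      rw [pow_add (D / p) (R + M), mul_left_comm, ← mul_pow]
      congr 2
      ring
    rw [e5]
    refine mul_le_mul_of_nonneg_left ?_ (by positivity)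
    refine (pow_le_pow_left₀ (by positivity) hDC _).trans ?_
    rw [← pow_mul]
    exact pow_le_pow_right₀ (by norm_num) (Nat.mul_div_le j C)
  have hW0 : (0 : ℝ) ≤ (W.card : ℝ) ^ K := by positivity
  calc ((bl S (j / C)).card : ℝ) *
        ∑ y ∈ nb S T (R + M + j / C), ((lns S W C R Λ T y K).card : ℝ)
      ≤ D ^ (j / C) * (Q * (W.card : ℝ) ^ K * ((D / p) ^ (R + M + j / C) * Φ)) := by
        rw [e1]
        refine mul_le_mul (hbl _) (e2.trans ?_) (sum_nonneg fun y _ => by positivity)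
          (by positivity)
        exact mul_le_mul_of_nonneg_left (mul_le_mul_of_nonneg_right e3 hΦ0) (by positivity)
    _ = Q * (W.card : ℝ) ^ K * Φ * (D ^ (j / C) * (D / p) ^ (R + M + j / C)) := by ring
    _ ≤ Q * (W.card : ℝ) ^ K * Φ * ((D / p) ^ (R + M) * 2 ^ j) :=
        mul_le_mul_of_nonneg_left e4 (by positivity)
    _ = Q * (D / p) ^ (R + M) * Φ * (W.card : ℝ) ^ K * 2 ^ j := by ring

theorem phi_gen (hG : IsCay G S) (hW : ∀ n : ℕ, ∃ W : Finset Γ, n ≤ W.card ∧ Free W)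
    {p c : ℝ} (h0 : 0 < p) (h1 : p ≤ 1) (hc0 : 0 < c)
    (hc : ∀ g : Γ, ∃ Λ : Finset Γ, c ≤ cp G p Λ 1 g) :
    ∃ κ : ℝ, 0 < κ ∧ ∀ Λ T : Finset Γ, T ⊆ Λ → T.Nonempty →
      κ * T.card / Real.log (T.card + 1) ≤ ∑ e ∈ G.cut T, G.acc p Λ T e := by
  classical
  obtain ⟨n0, hn0⟩ := exists_nat_ge (2 / c)
  obtain ⟨W, hWn, hfree⟩ := hW (max 4 n0)
  have hb4 : (4 : ℝ) ≤ W.card := by
    exact_mod_cast (le_max_left 4 n0).trans hWn
  have hb0 : (0 : ℝ) < W.card := by linarith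
  have hcb : 2 ≤ c * W.card := by
    have h2 : (n0 : ℝ) ≤ W.card := by exact_mod_cast (le_max_right 4 n0).trans hWn
    have h3 := hn0.trans h2
    rw [div_le_iff₀ hc0] at h3
    linarith
  obtain ⟨R, hR⟩ := exists_radius hG h0.le h1 hc W
  obtain ⟨M, hM⟩ := pg_radius hG W
  obtain ⟨D, hD⟩ : ∃ D : ℝ, D = (S.card : ℝ) + 1 := ⟨_, rfl⟩
  obtain ⟨C0, hC0⟩ := pow_unbounded_of_one_lt (D ^ 2 / p) (one_lt_two (α := ℝ))
  obtain ⟨C, hCdef⟩ : ∃ C, C = max 1 C0 := ⟨_, rfl⟩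
  have hC : 1 ≤ C := by
    rw [hCdef]
    exact le_max_left _ _
  have hDC : D ^ 2 / p ≤ 2 ^ C := by
    refine hC0.le.trans (pow_le_pow_right₀ (by norm_num) ?_)
    rw [hCdef]
    exact le_max_right _ _
  obtain ⟨Q, hQ, hsec⟩ := sec_mom hG h0.le h1 hc0 hfree hC hR hM hcb
  obtain ⟨C1, hC1, hmin⟩ := sum_min_le (show (1 : ℝ) < W.card by linarith)
  have hD0 : 0 < D := by
    rw [hD]
    positivity
  refine ⟨1 / (4 * Q * (D / p) ^ (R + M) * C1), by positivity, ?_⟩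
  intro Λ T hT hTne
  have hcard : 1 ≤ T.card := hTne.card_pos
  have hlog := pg_log hcard
  obtain ⟨Φ, hΦ⟩ : ∃ Φ, ∑ e ∈ G.cut T, G.acc p Λ T e = Φ := ⟨_, rfl⟩
  have hΦ0 : 0 ≤ Φ := by
    rw [← hΦ]
    exact sum_nonneg fun e _ => pr_nonneg h0.le h1 _ _
  obtain ⟨K, hK⟩ := pow_unbounded_of_one_lt (2 * ((Λ ∪ nb S T R).card : ℝ))
    (show (1 : ℝ) < W.card by linarith)
  have hex := exit_count (R := R) hfree hM hC Λ T K
  have hbK : (0 : ℝ) < (W.card : ℝ) ^ K := by positivity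
  -- lower bound
  have hlow : (T.card : ℝ) * ((W.card : ℝ) ^ K / 2) ≤
      ∑ x ∈ T, (((ls W K).filter (fun L => x * L.prod ∉ Λ ∪ nb S T R)).card : ℝ) := by
    rw [← nsmul_eq_mul, ← sum_const]
    refine sum_le_sum fun x _ => ?_
    have h2 := card_filter_add_card_filter_not (s := ls W K)
      (fun L : List Γ => x * L.prod ∈ Λ ∪ nb S T R)
    have h3 := free_count hfree K (Λ ∪ nb S T R) x
    rw [card_ls] at h2
    have h4 : (((ls W K).filter (fun L => x * L.prod ∈ Λ ∪ nb S T R)).card : ℝ) +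
        (((ls W K).filter (fun L => x * L.prod ∉ Λ ∪ nb S T R)).card : ℝ) =
          (W.card : ℝ) ^ K := by exact_mod_cast h2
    have h5 : (((ls W K).filter (fun L => x * L.prod ∈ Λ ∪ nb S T R)).card : ℝ) ≤
        ((Λ ∪ nb S T R).card : ℝ) := by exact_mod_cast h3
    linarith
  -- upper bound
  obtain ⟨A, hA⟩ : ∃ A, A = Q * (D / p) ^ (R + M) * Φ := ⟨_, rfl⟩
  have hA0 : 0 ≤ A := by
    rw [hA]
    positivity
  have hup : ∑ m ∈ range K, ∑ j ∈ range (K - m),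
        min ((W.card : ℝ) ^ (m + 1)) (T.card : ℝ) * ((bl S (j / C)).card : ℝ) *
          ∑ y ∈ nb S T (R + M + j / C), ((lns S W C R Λ T y (K - (m + 1) - j)).card : ℝ) ≤
      A * (W.card : ℝ) ^ K * (2 * (C1 * Real.log (T.card + 1))) := by
    have h2 : ∀ m ∈ range K, ∑ j ∈ range (K - m),
        min ((W.card : ℝ) ^ (m + 1)) (T.card : ℝ) * ((bl S (j / C)).card : ℝ) *
          ∑ y ∈ nb S T (R + M + j / C), ((lns S W C R Λ T y (K - (m + 1) - j)).card : ℝ) ≤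
        A * (W.card : ℝ) ^ K * 2 * min 1 ((T.card : ℝ) * (W.card : ℝ)⁻¹ ^ (m + 1)) := by
      intro m hm
      rw [mem_range] at hm
      obtain ⟨μ, hμ⟩ : ∃ μ, μ = min 1 ((T.card : ℝ) * (W.card : ℝ)⁻¹ ^ (m + 1)) := ⟨_, rfl⟩
      have hμ0 : 0 ≤ μ := by
        rw [hμ]
        positivity
      have hμ1 : min ((W.card : ℝ) ^ (m + 1)) (T.card : ℝ) = (W.card : ℝ) ^ (m + 1) * μ := by
        rw [hμ, mul_min_of_nonneg _ _ (by positivity), mul_one]
        congr 1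
        rw [inv_pow]
        field_simp
      have h3 : ∀ j ∈ range (K - m),
          min ((W.card : ℝ) ^ (m + 1)) (T.card : ℝ) * ((bl S (j / C)).card : ℝ) *
            ∑ y ∈ nb S T (R + M + j / C), ((lns S W C R Λ T y (K - (m + 1) - j)).card : ℝ) ≤
          A * (W.card : ℝ) ^ K * μ * (2 / (W.card : ℝ)) ^ j := by
        intro j hj
        rw [mem_range] at hj
        have h4 := pg_term (c := c) hG h0 h1 (M := M) hC hQ hD hDC hsec hT j (K - (m + 1) - j)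
        rw [hΦ, ← hA] at h4
        have h5 : (W.card : ℝ) ^ (m + 1) * (W.card : ℝ) ^ (K - (m + 1) - j) * (W.card : ℝ) ^ j =
            (W.card : ℝ) ^ K := by
          rw [← pow_add, ← pow_add]
          congr 1
          omega
        rw [mul_assoc, hμ1]
        refine (mul_le_mul_of_nonneg_left h4 (by positivity)).trans (le_of_eq ?_)
        rw [← h5, div_pow]
        field_simp
      refine (sum_le_sum h3).trans ?_
      rw [← mul_sum, ← hμ]
      have h6 := pg_geom hb4 (K - m)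
      calc A * (W.card : ℝ) ^ K * μ * ∑ j ∈ range (K - m), (2 / (W.card : ℝ)) ^ j
          ≤ A * (W.card : ℝ) ^ K * μ * 2 := mul_le_mul_of_nonneg_left h6 (by positivity)
        _ = A * (W.card : ℝ) ^ K * 2 * μ := by ring
    refine (sum_le_sum h2).trans ?_
    rw [← mul_sum]
    have h7 := hmin T.card hcard K
    calc A * (W.card : ℝ) ^ K * 2 *
          ∑ m ∈ range K, min 1 ((T.card : ℝ) * (W.card : ℝ)⁻¹ ^ (m + 1))
        ≤ A * (W.card : ℝ) ^ K * 2 * (C1 * Real.log (T.card + 1)) :=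
          mul_le_mul_of_nonneg_left h7 (by positivity)
      _ = A * (W.card : ℝ) ^ K * (2 * (C1 * Real.log (T.card + 1))) := by ring
  have hfin := hlow.trans (hex.trans hup)
  rw [hΦ, div_le_iff₀ hlog, one_div_mul_eq_div, div_le_iff₀ (by positivity)]
  have h8 : (T.card : ℝ) * (W.card : ℝ) ^ K ≤
      (4 * Q * (D / p) ^ (R + M) * C1 * (Φ * Real.log (T.card + 1))) * (W.card : ℝ) ^ K := by
    rw [hA] at hfin
    linarith
  have h9 := le_of_mul_le_mul_right h8 hbK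
  refine h9.trans (le_of_eq ?_)
  ring

end Pool.Agent.CGA
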