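import Pool.Agent.CGA.Defs

/-!
# Cayley graphs as simple graphs: definitions (COMPLETE FILE)

* `cay S`: the (right) Cayley graph of `Γ` for the finite set `S`: `g ~ h` iff `g ≠ h` and
  `g⁻¹ h ∈ S` or `h⁻¹ g ∈ S`.
* `ofSG G hG`: the locally finite simple graph `G` as a `Gr`, with edge set `G.edgeSet`.
* `cayG S`: the Cayley graph as a `Gr`.
-/

namespace Pool.Agent.CGA

open Finset Pool.Agent.DLP

theorem edge_out {V : Type} {G : SimpleGraph V} (e : G.edgeSet) :
    (e.1 : Sym2 V) = s((Quot.out e.1).1, (Quot.out e.1).2) :=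
  (Quot.out_eq e.1).symm

theorem inc_finite {V : Type} (G : SimpleGraph V) (hG : ∀ v, (G.neighborSet v).Finite) (v : V) :
    {e : G.edgeSet | v ∈ (e.1 : Sym2 V)}.Finite := by
  refine Set.Finite.of_finite_image (f := fun e : G.edgeSet => (e.1 : Sym2 V))
    (((hG v).image (fun w => s(v, w))).subset ?_) Subtype.val_injective.injOn
  rintro _ ⟨e, he, rfl⟩
  obtain ⟨w, hw⟩ := Sym2.mem_iff_exists.1 he
  refine ⟨w, ?_, hw.symm⟩
  have h1 := e.2
  rw [hw] at h1
  exact h1

/-- A locally finite simple graph as a `Gr`; `a e`, `b e` are the two end points of the edge `e`. -/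
noncomputable def ofSG {V : Type} (G : SimpleGraph V) (hG : ∀ v, (G.neighborSet v).Finite) :
    Gr V G.edgeSet where
  a e := (Quot.out e.1).1
  b e := (Quot.out e.1).2
  inc v := (inc_finite G hG v).toFinset
  mem_inc v e := by
    have h : v ∈ (e.1 : Sym2 V) ↔ v = (Quot.out e.1).1 ∨ v = (Quot.out e.1).2 := by
      conv_lhs => rw [edge_out e]
      exact Sym2.mem_iff
    rw [Set.Finite.mem_toFinset]
    exact h.trans (or_congr eq_comm eq_comm)

variable {Γ : Type} [Group Γ]

/-- The Cayley graph of `Γ` for the finite set `S`. -/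
def cay (S : Finset Γ) : SimpleGraph Γ := SimpleGraph.fromRel (fun g h => g⁻¹ * h ∈ S)

theorem cay_finite (S : Finset Γ) (v : Γ) : ((cay S).neighborSet v).Finite := by
  classical
  refine ((S.image (fun s => v * s)) ∪ (S.image (fun s => v * s⁻¹))).finite_toSet.subset ?_
  intro w hw
  simp only [cay, SimpleGraph.mem_neighborSet, SimpleGraph.fromRel_adj] at hw
  simp only [Finset.coe_union, Finset.coe_image, Set.mem_union, Set.mem_image, Finset.mem_coe]
  rcases hw.2 with h | h
  · exact Or.inl ⟨_, h, by group⟩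
  · exact Or.inr ⟨_, h, by group⟩

/-- The Cayley graph as a graph with vertex set `Γ` and edge set `(cay S).edgeSet`. -/
noncomputable def cayG (S : Finset Γ) : Gr Γ (cay S).edgeSet := ofSG (cay S) (cay_finite S)

end Pool.Agent.CGA
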