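import Pool.Agent.CGA.SGDefs
import Pool.Agent.CGA.Ball

/-!
# CGA/SGr: the Cayley graph `cayG S` satisfies `IsCay`

The symmetric generating set is `S' = (S ∪ S.image (·⁻¹)).erase 1`.
* `edge_ends`: for `e : (cay S).edgeSet` the two end points `a e`, `b e` are adjacent in `cay S`
  (`edge_out`, `SimpleGraph.mem_edgeSet`); adjacency of `g, h` in `cay S` means `g ≠ h` and
  `g⁻¹ h ∈ S` or `h⁻¹ g ∈ S`, i.e. `g⁻¹ h ∈ S'`.
* `gen`: the set of the `g` which are in some `bl S' n` contains `1`, `S`, and is closed under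
  multiplication and inverses (`mul_mem_bl`, `inv_mem_bl`): `Subgroup.closure_induction`. (`1 ∈ S`
  is in `bl S' 0`.)
* `edge`: the edge `⟨s(g, g s), _⟩`; `s(a, b) = s(g, g s)` gives the two cases (`Sym2.eq_iff`).
* `act`: `v = Equiv.mulLeft γ`; `e` = the map `⟨e, h⟩ ↦ ⟨Sym2.map (γ * ·) e, _⟩` with inverse for `γ⁻¹`
  (left multiplication preserves adjacency: `(γ g)⁻¹ (γ h) = g⁻¹ h`); the end points:
  `s(a (φ e), b (φ e)) = Sym2.map (γ * ·) s(a e, b e) = s(γ a e, γ b e)`, `Sym2.eq_iff`.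
-/

namespace Pool.Agent.CGA

open Finset Pool.Agent.DLP

variable {Γ : Type} [Group Γ] [DecidableEq Γ]

private theorem mem_gs {S : Finset Γ} {s : Γ} :
    s ∈ (S ∪ S.image (fun s => s⁻¹)).erase 1 ↔ s ≠ 1 ∧ (s ∈ S ∨ s⁻¹ ∈ S) := by
  rw [Finset.mem_erase, Finset.mem_union, Finset.mem_image]
  refine and_congr_right fun _ => or_congr_right ⟨?_, fun h => ⟨_, h, inv_inv s⟩⟩
  rintro ⟨t, ht, rfl⟩
  rwa [inv_inv]

private theorem adj_iff {S : Finset Γ} {g h : Γ} :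
    (cay S).Adj g h ↔ g⁻¹ * h ∈ (S ∪ S.image (fun s => s⁻¹)).erase 1 := by
  rw [mem_gs]
  unfold cay
  rw [SimpleGraph.fromRel_adj]
  have h1 : g ≠ h ↔ g⁻¹ * h ≠ 1 := by
    rw [Ne, Ne, inv_mul_eq_one]
  have h2 : (g⁻¹ * h)⁻¹ = h⁻¹ * g := by group
  rw [h1, h2]

theorem isCay_cayG (S : Finset Γ) (hS : Subgroup.closure (S : Set Γ) = ⊤) :
    IsCay (cayG S) ((S ∪ S.image (fun s => s⁻¹)).erase 1) := by
  have hsymm : ∀ s ∈ (S ∪ S.image (fun s => s⁻¹)).erase 1,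
      s⁻¹ ∈ (S ∪ S.image (fun s => s⁻¹)).erase 1 := by
    intro s hs
    rw [mem_gs] at hs ⊢
    refine ⟨inv_ne_one.2 hs.1, ?_⟩
    rw [inv_inv]
    exact hs.2.symm
  refine ⟨hsymm, ?_, ?_, ?_, ?_⟩
  · intro g
    have hg : g ∈ Subgroup.closure (S : Set Γ) := by
      rw [hS]
      exact Subgroup.mem_top g
    induction hg using Subgroup.closure_induction with
    | mem x hx =>
      by_cases h1 : x = 1
      · rw [h1]
        exact ⟨0, one_mem_bl _ 0⟩
      · exact ⟨1, mem_bl_one (mem_gs.2 ⟨h1, Or.inl hx⟩)⟩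
    | one => exact ⟨0, one_mem_bl _ 0⟩
    | mul x y _ _ hx hy =>
      obtain ⟨m, hm⟩ := hx
      obtain ⟨n, hn⟩ := hy
      exact ⟨m + n, mul_mem_bl hm hn⟩
    | inv x _ hx =>
      obtain ⟨m, hm⟩ := hx
      exact ⟨m, inv_mem_bl hsymm hm⟩
  · intro e
    have h := e.2
    rw [edge_out e, SimpleGraph.mem_edgeSet] at h
    exact adj_iff.1 h
  · intro g s hs
    have h1 : (cay S).Adj g (g * s) := by
      rw [adj_iff, inv_mul_cancel_left]
      exact hs
    have h2 := edge_out (⟨s(g, g * s), (SimpleGraph.mem_edgeSet _).2 h1⟩ : (cay S).edgeSet)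
    refine ⟨⟨s(g, g * s), (SimpleGraph.mem_edgeSet _).2 h1⟩, ?_⟩
    rcases Sym2.eq_iff.1 h2 with h3 | h3
    · exact Or.inl ⟨h3.1.symm, h3.2.symm⟩
    · exact Or.inr ⟨h3.2.symm, h3.1.symm⟩
  · intro γ
    let f : cay S ≃g cay S :=
      { Equiv.mulLeft γ with
        map_rel_iff' := by
          intro g h
          show (cay S).Adj (γ * g) (γ * h) ↔ (cay S).Adj g h
          rw [adj_iff, adj_iff]
          have h1 : (γ * g)⁻¹ * (γ * h) = g⁻¹ * h := by group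
          rw [h1] }
    refine ⟨⟨Equiv.mulLeft γ, f.mapEdgeSet, ?_⟩, fun x => rfl⟩
    intro x
    have h1 : ((f.mapEdgeSet x : (cay S).edgeSet) : Sym2 Γ) =
        s(γ * (Quot.out x.1).1, γ * (Quot.out x.1).2) := by
      have h2 : ((f.mapEdgeSet x : (cay S).edgeSet) : Sym2 Γ) = Sym2.map f x.1 := rfl
      rw [h2]
      conv_lhs => rw [edge_out x]
      rfl
    have h3 := (edge_out (f.mapEdgeSet x)).symm.trans h1
    rcases Sym2.eq_iff.1 h3 with h4 | h4
    · exact Or.inl h4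
    · exact Or.inr h4

end Pool.Agent.CGA
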