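import Pool.Agent.CGA.PairG
import Pool.Agent.CGA.NearG

/-!
# CGA/SecM: the second moment bound for non-lingering lines

`sum_Q`: `c⁻¹^(i+1) b⁻¹^i = c⁻¹ (c b)⁻¹^i ≤ c⁻¹ 2⁻¹^i`, and `∑ 2⁻¹^i (A i + B) ≤ 2 A + 2 B`
(for example by induction on `K`: `∑_{i<K} 2⁻¹^i (A i + B) ≤ 2A + 2B - 2⁻¹^K (...)`, or summability).

`sec_mom`. Put `b = |W|`, `𝓛 = lns S W C R Λ T y K`, `π L = pL y L ≥ c^K > 0` (`pL_ge`).
`F = G.off Λ T ∪ 𝓛.biUnion (fun L => inn (UL y L))`, `N ω = ∑_{L ∈ 𝓛} [OL y L ω] / π L`.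
* `ex p F N = |𝓛|` (`ex_sum`, `pL_eq`).
* `ex p F N² = ∑_{L ∈ 𝓛} ∑_{L' ∈ 𝓛} P(OL y L ∧ OL y L') / (π L π L')`
  `≤ ∑_{L ∈ 𝓛} ∑_{L' ∈ ls W K} (1 + ∑_{i<K} c⁻¹^(i+1) [ball around z'_i meets UL y L])` (`pair_near`)
  `≤ |𝓛| (b^K + ∑_{i<K} c⁻¹^(i+1) b^(K-i) β (C (M i + 2R) + 1))`, `β = |bl S (2R)|` (`near_count`)
  `≤ |𝓛| b^K Q`, `Q = 1 + (bound of sum_Q with A = β C M, B = β (2 C R + 1))`.
* `N ω > 0` implies that some `L ∈ 𝓛` is open; the balls of `UL y L` are disjoint from `T` (`mem_UL`,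
  `notMem_nb_iff`), so `OL_reach` joins `y` to `y * L.prod ∉ Λ` off `T`: `Exit Λ ω {z | z ∉ T} y`, which
  depends only on the edges of `off Λ T` (`Gr.dep_exit`, `Gr.mem_off`, `pr_dep`): `pr p F (0 < N) ≤ gx`.
* Cauchy–Schwarz (`ex_sq_le`): `|𝓛|² ≤ |𝓛| b^K Q * gx`; divide by `|𝓛|` (if `|𝓛| = 0` the claim is
  `0 ≤ ...`).
-/

namespace Pool.Agent.CGA

open Finset Pool.Agent.DLP

variable {Γ E : Type} [Group Γ] [DecidableEq Γ] [DecidableEq E] {G : Gr Γ E}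
  {S W : Finset Γ}

theorem sum_Q {c b A B : ℝ} (hc : 0 < c) (hcb : 2 ≤ c * b) (hA : 0 ≤ A) (hB : 0 ≤ B) (K : ℕ) :
    ∑ i ∈ range K, c⁻¹ ^ (i + 1) * b⁻¹ ^ i * (A * i + B) ≤ c⁻¹ * (2 * A + 2 * B) := by
  have hci : 0 < c⁻¹ := inv_pos.2 hc
  have h1 : ∀ i ∈ range K, c⁻¹ ^ (i + 1) * b⁻¹ ^ i * (A * i + B) ≤
      c⁻¹ * ((1 / 2 : ℝ) ^ i * (A * i + B)) := by
    intro i _
    have e1 : c⁻¹ ^ (i + 1) * b⁻¹ ^ i = c⁻¹ * ((c * b)⁻¹) ^ i := by
      rw [mul_inv, mul_pow, pow_succ]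
      ring
    have e2 : ((c * b)⁻¹) ^ i ≤ (1 / 2 : ℝ) ^ i := by
      refine pow_le_pow_left₀ (inv_nonneg.2 (by linarith)) ?_ i
      rw [one_div]
      exact inv_anti₀ (by norm_num) hcb
    have e3 : 0 ≤ A * (i : ℝ) + B := by positivity
    rw [e1, mul_assoc]
    exact mul_le_mul_of_nonneg_left (mul_le_mul_of_nonneg_right e2 e3) hci.le
  refine (Finset.sum_le_sum h1).trans ?_
  rw [← Finset.mul_sum]
  refine mul_le_mul_of_nonneg_left ?_ hci.le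
  have h2 : ∀ K : ℕ, ∑ i ∈ range K, (1 / 2 : ℝ) ^ i * (A * i + B) =
      2 * A + 2 * B - (1 / 2 : ℝ) ^ K * (2 * A * K + 2 * A + 2 * B) := by
    intro K
    induction K with
    | zero => simp
    | succ K ih =>
      rw [Finset.sum_range_succ, ih, pow_succ]
      push_cast
      ring
  rw [h2 K]
  have h3 : 0 ≤ (1 / 2 : ℝ) ^ K * (2 * A * K + 2 * A + 2 * B) := by positivity
  linarith

private theorem exit_of_line (hG : IsCay G S) {R C K : ℕ} {Λ T : Finset Γ} {y : Γ}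
    {L : List Γ} (hL : L ∈ lns S W C R Λ T y K) {ω : Finset E} (h : OL G S R y L ω) :
    G.Exit Λ (↑ω : Set E) {z | z ∉ T} y := by
  classical
  rw [lns, Finset.mem_filter] at hL
  obtain ⟨h1, h2, h3, h4⟩ := hL
  refine ⟨y * L.prod, h4, OL_reach G S h ?_⟩
  rw [disjoint_left]
  intro z hz hzT
  rw [mem_UL] at hz
  obtain ⟨i, hi, hz⟩ := hz
  rw [(mem_ls.1 h1).1] at hi
  have h5 := (notMem_nb_iff hG.symm).1 (h3 i hi)
  exact (disjoint_left.1 h5) hz hzT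

omit [Group Γ] in
private theorem pr_exit (p : ℝ) (Λ T : Finset Γ) (y : Γ) {F : Finset E} (hF : G.off Λ T ⊆ F) :
    pr p F (fun ω : Finset E => G.Exit Λ (↑ω : Set E) {z | z ∉ T} y) = gx G p Λ T y := by
  rw [gx]
  refine pr_dep (Gr.dep_exit G Λ T y) fun i hi => ?_
  have hi' : i ∈ G.off Λ T := by
    rw [Gr.mem_off]
    obtain ⟨hi1, hi2, hi3⟩ := hi
    rw [Gr.mem_touch] at hi1
    exact ⟨hi1, hi2, hi3⟩
  exact ⟨fun _ => hi', fun _ => hF hi'⟩

open Classical in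
private theorem row_sum (hG : IsCay G S) {c : ℝ} (hc0 : 0 < c)
    (hfree : Free W) {R M C : ℕ} (hC : 1 ≤ C)
    (hM : ∀ u ∈ W, u ∈ bl S M) (hcb : 2 ≤ c * W.card) {K : ℕ} {L : List Γ} (hL : L ∈ ls W K)
    (hNL : NL S C L) (y : Γ) :
    ∑ L' ∈ ls W K, (1 + ∑ i ∈ range K, c⁻¹ ^ (i + 1) *
        (if ¬ Disjoint (sh (y * (L'.take i).prod) (bl S R)) (UL S R y L) then (1 : ℝ) else 0)) ≤
      (W.card : ℝ) ^ K * (1 + c⁻¹ * (2 * (((bl S (2 * R)).card : ℝ) * C * M) +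
        2 * (((bl S (2 * R)).card : ℝ) * (2 * C * R + 1)))) := by
  set b : ℝ := (W.card : ℝ) with hb
  set β : ℝ := ((bl S (2 * R)).card : ℝ) with hβ
  have hb0 : 0 < b := by
    by_contra hcon
    have : c * b ≤ 0 := mul_nonpos_of_nonneg_of_nonpos hc0.le (not_lt.1 hcon)
    linarith
  have hβ0 : 0 ≤ β := by positivity
  have hci : 0 < c⁻¹ := inv_pos.2 hc0
  rw [Finset.sum_add_distrib, Finset.sum_comm]
  have e1 : ∑ L' ∈ ls W K, (1 : ℝ) = b ^ K := by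
    rw [Finset.sum_const, card_ls, nsmul_eq_mul, mul_one]
    push_cast
    rfl
  have e2 : ∀ i ∈ range K, ∑ L' ∈ ls W K, c⁻¹ ^ (i + 1) *
      (if ¬ Disjoint (sh (y * (L'.take i).prod) (bl S R)) (UL S R y L) then (1 : ℝ) else 0) ≤
      b ^ K * (c⁻¹ ^ (i + 1) * b⁻¹ ^ i * ((β * C * M) * i + β * (2 * C * R + 1))) := by
    intro i hi
    rw [Finset.mem_range] at hi
    rw [← Finset.mul_sum, Finset.sum_boole]
    have h1 := near_count (W := W) (R := R) hG.symm hfree hM hC hL hNL y hi.le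
    have h2 : ((((ls W K).filter (fun L' => ¬ Disjoint (sh (y * (L'.take i).prod) (bl S R))
        (UL S R y L))).card : ℕ) : ℝ) ≤ b ^ (K - i) * (β * (C * (M * i + 2 * R) + 1)) := by
      rw [hb, hβ]
      exact_mod_cast h1
    have h3 : b ^ K * b⁻¹ ^ i = b ^ (K - i) := by
      have h4 : b ^ K = b ^ (K - i) * b ^ i := by
        rw [← pow_add, Nat.sub_add_cancel hi.le]
      rw [h4, mul_assoc, ← mul_pow, mul_inv_cancel₀ hb0.ne', one_pow, mul_one]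
    calc c⁻¹ ^ (i + 1) * ((((ls W K).filter (fun L' => ¬ Disjoint
          (sh (y * (L'.take i).prod) (bl S R)) (UL S R y L))).card : ℕ) : ℝ)
        ≤ c⁻¹ ^ (i + 1) * (b ^ (K - i) * (β * (C * (M * i + 2 * R) + 1))) :=
          mul_le_mul_of_nonneg_left h2 (pow_nonneg hci.le _)
      _ = b ^ K * (c⁻¹ ^ (i + 1) * b⁻¹ ^ i * ((β * C * M) * i + β * (2 * C * R + 1))) := by
          rw [← h3]
          ring
  have e3 := sum_Q (c := c) (b := b) (A := β * C * M) (B := β * (2 * C * R + 1)) hc0 hcb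
    (by positivity) (by positivity) K
  calc ∑ L' ∈ ls W K, (1 : ℝ) + ∑ i ∈ range K, ∑ L' ∈ ls W K, c⁻¹ ^ (i + 1) *
      (if ¬ Disjoint (sh (y * (L'.take i).prod) (bl S R)) (UL S R y L) then (1 : ℝ) else 0)
      ≤ b ^ K + ∑ i ∈ range K,
        b ^ K * (c⁻¹ ^ (i + 1) * b⁻¹ ^ i * ((β * C * M) * i + β * (2 * C * R + 1))) := by
        rw [e1]
        exact add_le_add le_rfl (Finset.sum_le_sum e2)
    _ = b ^ K * (1 + ∑ i ∈ range K,
        c⁻¹ ^ (i + 1) * b⁻¹ ^ i * ((β * C * M) * i + β * (2 * C * R + 1))) := by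
        rw [← Finset.mul_sum]
        ring
    _ ≤ _ := by
        refine mul_le_mul_of_nonneg_left ?_ (pow_nonneg hb0.le _)
        linarith

theorem sec_mom (hG : IsCay G S) {p c : ℝ} (h0 : 0 ≤ p) (h1 : p ≤ 1) (hc0 : 0 < c)
    (hfree : Free W) {R M C : ℕ} (hC : 1 ≤ C) (hc : ∀ u ∈ W, c ≤ cp G p (bl S R) 1 u)
    (hM : ∀ u ∈ W, u ∈ bl S M) (hcb : 2 ≤ c * W.card) :
    ∃ Q : ℝ, 0 < Q ∧ ∀ (Λ T : Finset Γ) (y : Γ) (K : ℕ),
      ((lns S W C R Λ T y K).card : ℝ) ≤ Q * (W.card : ℝ) ^ K * gx G p Λ T y := by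
  classical
  set b : ℝ := (W.card : ℝ) with hb
  set β : ℝ := ((bl S (2 * R)).card : ℝ) with hβ
  set Q : ℝ := 1 + c⁻¹ * (2 * (β * C * M) + 2 * (β * (2 * C * R + 1))) with hQ
  have hci : 0 < c⁻¹ := inv_pos.2 hc0
  have hβ0 : 0 ≤ β := by positivity
  have hQ0 : 0 < Q := by positivity
  refine ⟨Q, hQ0, fun Λ T y K => ?_⟩
  set 𝓛 := lns S W C R Λ T y K with h𝓛
  have hL : ∀ L ∈ 𝓛, L ∈ ls W K ∧ NL S C L := by
    intro L hL
    rw [h𝓛, lns, Finset.mem_filter] at hL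
    exact ⟨hL.1, hL.2.1⟩
  have hπ : ∀ L ∈ 𝓛, 0 < pL G p S R y L := fun L h =>
    lt_of_lt_of_le (pow_pos hc0 K) (pL_ge hG h0 h1 hc0.le hc (hL L h).1 y)
  set F : Finset E := G.off Λ T ∪ 𝓛.biUnion (fun L => G.inn (UL S R y L)) with hF
  have hFL : ∀ L ∈ 𝓛, G.inn (UL S R y L) ⊆ F := by
    intro L h
    exact (Finset.subset_biUnion_of_mem (fun L => G.inn (UL S R y L)) h).trans
      subset_union_right
  set N : Finset E → ℝ := fun ω => ∑ L ∈ 𝓛, (pL G p S R y L)⁻¹ *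
    (if OL G S R y L ω then (1 : ℝ) else 0) with hN
  have hN0 : ∀ ω, ω ⊆ F → 0 ≤ N ω := by
    intro ω _
    refine Finset.sum_nonneg fun L h => mul_nonneg (inv_nonneg.2 (hπ L h).le) ?_
    split_ifs
    · exact zero_le_one
    · exact le_rfl
  have E1 : ex p F N = 𝓛.card := by
    rw [hN, ex_sum]
    have : ∀ L ∈ 𝓛, ex p F (fun ω => (pL G p S R y L)⁻¹ *
        (if OL G S R y L ω then (1 : ℝ) else 0)) = 1 := by
      intro L h
      rw [ex_mul_left]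
      have h2 : ex p F (fun ω => if OL G S R y L ω then (1 : ℝ) else 0) = pL G p S R y L := by
        rw [← pL_eq G S p (hFL L h)]
        unfold pr
        refine ex_congr fun ω _ => ?_
        congr
      rw [h2, inv_mul_cancel₀ (hπ L h).ne']
    rw [Finset.sum_congr rfl this, Finset.sum_const, nsmul_eq_mul, mul_one]
  have E2 : ex p F (fun ω => N ω ^ 2) ≤ 𝓛.card * (b ^ K * Q) := by
    have e1 : ∀ ω, N ω ^ 2 = ∑ L ∈ 𝓛, ∑ L' ∈ 𝓛, ((pL G p S R y L)⁻¹ * (pL G p S R y L')⁻¹) *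
        (if OL G S R y L ω ∧ OL G S R y L' ω then (1 : ℝ) else 0) := by
      intro ω
      rw [hN, sq, Finset.sum_mul_sum]
      refine Finset.sum_congr rfl fun L _ => Finset.sum_congr rfl fun L' _ => ?_
      by_cases h2 : OL G S R y L ω
      · by_cases h3 : OL G S R y L' ω
        · simp [h2, h3]
        · simp [h3]
      · simp [h2]
    have e2 : ex p F (fun ω => N ω ^ 2) = ∑ L ∈ 𝓛, ∑ L' ∈ 𝓛,
        ((pL G p S R y L)⁻¹ * (pL G p S R y L')⁻¹) *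
          pr p F (fun ω => OL G S R y L ω ∧ OL G S R y L' ω) := by
      rw [ex_congr (fun ω _ => e1 ω), ex_sum]
      refine Finset.sum_congr rfl fun L _ => ?_
      rw [ex_sum]
      refine Finset.sum_congr rfl fun L' _ => ?_
      rw [ex_mul_left]
      unfold pr
      congr 1
      refine ex_congr fun ω _ => ?_
      congr
    rw [e2]
    have e3 : ∀ L ∈ 𝓛, ∑ L' ∈ 𝓛, ((pL G p S R y L)⁻¹ * (pL G p S R y L')⁻¹) *
          pr p F (fun ω => OL G S R y L ω ∧ OL G S R y L' ω) ≤ b ^ K * Q := by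
      intro L hL1
      refine le_trans ?_ (row_sum hG hc0 hfree hC hM hcb (hL L hL1).1 (hL L hL1).2 y (R := R))
      have e4 : ∀ L' ∈ 𝓛, ((pL G p S R y L)⁻¹ * (pL G p S R y L')⁻¹) *
          pr p F (fun ω => OL G S R y L ω ∧ OL G S R y L' ω) ≤
          1 + ∑ i ∈ range K, c⁻¹ ^ (i + 1) *
        (if ¬ Disjoint (sh (y * (L'.take i).prod) (bl S R)) (UL S R y L) then (1 : ℝ) else 0) := by
        intro L' hL2
        have h2 := pair_near hG h0 h1 hc0 hc (hL L' hL2).1 (hFL L hL1) (hFL L' hL2)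
        have h3 : 0 ≤ (pL G p S R y L)⁻¹ * (pL G p S R y L')⁻¹ :=
          mul_nonneg (inv_nonneg.2 (hπ L hL1).le) (inv_nonneg.2 (hπ L' hL2).le)
        refine (mul_le_mul_of_nonneg_left h2 h3).trans (le_of_eq ?_)
        have h4 := (hπ L hL1).ne'
        have h5 := (hπ L' hL2).ne'
        have h6 : (pL G p S R y L)⁻¹ * (pL G p S R y L')⁻¹ *
            (pL G p S R y L * pL G p S R y L') = 1 := by
          field_simp
        rw [mul_left_comm, h6, mul_one]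
      refine (Finset.sum_le_sum e4).trans ?_
      refine Finset.sum_le_sum_of_subset_of_nonneg (fun L' h => (hL L' h).1) fun L' _ _ => ?_
      have : 0 ≤ ∑ i ∈ range K, c⁻¹ ^ (i + 1) *
        (if ¬ Disjoint (sh (y * (L'.take i).prod) (bl S R)) (UL S R y L) then (1 : ℝ) else 0) := by
        refine Finset.sum_nonneg fun i _ => mul_nonneg (pow_nonneg hci.le _) ?_
        split_ifs
        · exact le_rfl
        · exact zero_le_one
      linarith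
    refine (Finset.sum_le_sum e3).trans (le_of_eq ?_)
    rw [Finset.sum_const, nsmul_eq_mul]
  have E3 : pr p F (fun ω => 0 < N ω) ≤ gx G p Λ T y := by
    rw [← pr_exit p Λ T y (show G.off Λ T ⊆ F from subset_union_left)]
    refine pr_mono h0 h1 fun ω _ hω => ?_
    have h2 : ∃ L ∈ 𝓛, OL G S R y L ω := by
      by_contra hcon
      push Not at hcon
      have : N ω = 0 := by
        refine Finset.sum_eq_zero fun L h => ?_
        rw [if_neg (hcon L h), mul_zero]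
      rw [this] at hω
      exact lt_irrefl _ hω
    obtain ⟨L, h3, h4⟩ := h2
    exact exit_of_line hG h3 h4
  have E4 := ex_sq_le h0 h1 hN0
  rw [E1] at E4
  have hg0 : 0 ≤ gx G p Λ T y := pr_nonneg h0 h1 _ _
  have hb0 : 0 ≤ b := by positivity
  have E5 : (𝓛.card : ℝ) ^ 2 ≤ 𝓛.card * (b ^ K * Q) * gx G p Λ T y := by
    refine E4.trans ?_
    refine mul_le_mul E2 E3 (pr_nonneg h0 h1 _ _) (by positivity)
  by_cases hz : (𝓛.card : ℝ) = 0
  · rw [hz]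
    positivity
  · have hpos : 0 < (𝓛.card : ℝ) := lt_of_le_of_ne (by positivity) (Ne.symm hz)
    have E6 : (𝓛.card : ℝ) * 𝓛.card ≤ 𝓛.card * (Q * b ^ K * gx G p Λ T y) := by
      calc (𝓛.card : ℝ) * 𝓛.card = (𝓛.card : ℝ) ^ 2 := by ring
        _ ≤ 𝓛.card * (b ^ K * Q) * gx G p Λ T y := E5
        _ = 𝓛.card * (Q * b ^ K * gx G p Λ T y) := by ring
    exact le_of_mul_le_mul_left E6 hpos

end Pool.Agent.CGA
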