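import Pool.Agent.CGA.Defs
import Pool.Agent.DLP.ExC

/-!
# CGA/TriG: trifurcation sets

Compare `Pool/Agent/DLP/BKA.lean`, `BKB.lean` (finished; blocks instead of general sets).

`tri_of_three`. Let `T₃ ω` := there are `u₁ u₂ u₃ ∈ bd S R`, `Att (rel G R ω) B u_i`, pairwise not
`OffR (rel G R ω) B`-joined, so `TriE = (inn B ⊆ ω) ∧ T₃`. (i) `Three` implies `T₃`: `x_i ∈ B` is
joined inside `R` to `y_i ∈ bd S R`, `y_i ∉ B` (`hbd`); last exit from `B` (`Reach.last_exit` with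
`U = R`): an edge of `ω` from `u ∈ B` to `w ∉ B`, `u, w ∈ R`, and `w` is joined to `y_i` off `B` inside
`R`; so `Att (rel G R ω) B y_i` (reverse the path) and `x_i` is joined to `y_i` inside `R`. If
`OffR B y_i y_j` then `x_i` is joined to `x_j` inside `R`, contradiction. Take `u_i = y_i`.
(ii) `T₃` depends only on the edges which do not belong to `inn B`: `OffR` uses edges without
end point in `B`, the last step of `Att` uses an edge `u — b` with `u ∉ B`. So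
`Dep {e | e ∉ inn B} T₃` and `inn B ⊆ ω` depends on `inn B`: `pr_indep`, `pr_contain`
(`inn B ⊆ inn R`), `pr_mono`.

`sum_tri_le`. For every `ω ⊆ inn R` the sets `B ∈ P` with `TriE G S R B ω` are at most
`|bd S R|` many: `tri_count` with `r = rel G R ω` (symmetric; inside `R`; `B` is connected because
`inn B ⊆ ω`: `hconn`, converted to `rel`). Take the expectation (`ex_sum`, `ex_mono`,
`ex_const`).
-/

namespace Pool.Agent.CGA

open Finset Pool.Agent.DLP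

variable {Γ E : Type} [Group Γ] [DecidableEq Γ] [DecidableEq E] (G : Gr Γ E) {S : Finset Γ}

/-- Joined off `B` inside `R`, as `Reach`. -/
private theorem offR_iff {R B : Finset Γ} {ω : Finset E} {x y : Γ} :
    OffR (rel G R ω) B x y ↔
      G.Reach (↑ω : Set E) ((↑R : Set Γ) ∩ {z | z ∉ B}) x y := by
  constructor
  · intro h
    exact Relation.ReflTransGen.mono
      (fun a b hab => ⟨hab.1.1, ⟨hab.1.2.1, hab.2.1⟩, ⟨hab.1.2.2, hab.2.2⟩⟩) _ _ h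
  · intro h
    exact Relation.ReflTransGen.mono
      (fun a b hab => ⟨⟨hab.1, hab.2.1.1, hab.2.2.1⟩, hab.2.1.2, hab.2.2.2⟩) _ _ h

private theorem rel_mono {R B : Finset Γ} {ω ω' : Finset E}
    (h : ∀ e, e ∈ G.inn R → e ∉ G.inn B → e ∈ ω → e ∈ ω') {x y : Γ}
    (hx : x ∉ B) (hr : rel G R ω x y) : rel G R ω' x y := by
  obtain ⟨⟨e, he, hab⟩, hxR, hyR⟩ := hr
  refine ⟨⟨e, mem_coe.2 (h e ?_ ?_ (mem_coe.1 he)), hab⟩, hxR, hyR⟩
  · rw [Gr.mem_inn]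
    rcases hab with ⟨h1, h2⟩ | ⟨h1, h2⟩
    · rw [h1, h2]; exact ⟨hxR, hyR⟩
    · rw [h1, h2]; exact ⟨hyR, hxR⟩
  · rw [Gr.mem_inn]
    rintro ⟨h3, h4⟩
    rcases hab with ⟨h1, h2⟩ | ⟨h1, h2⟩
    · exact hx (h1 ▸ h3)
    · exact hx (h2 ▸ h4)

private theorem offR_mono {R B : Finset Γ} {ω ω' : Finset E}
    (h : ∀ e, e ∈ G.inn R → e ∉ G.inn B → e ∈ ω → e ∈ ω') {x y : Γ}
    (hr : OffR (rel G R ω) B x y) : OffR (rel G R ω') B x y :=
  Relation.ReflTransGen.mono (fun _ _ hab => ⟨rel_mono G h hab.2.1 hab.1, hab.2⟩) _ _ hr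

private theorem att_mono {R B : Finset Γ} {ω ω' : Finset E}
    (h : ∀ e, e ∈ G.inn R → e ∉ G.inn B → e ∈ ω → e ∈ ω') {x : Γ}
    (hr : Att (rel G R ω) B x) : Att (rel G R ω') B x := by
  obtain ⟨hx, u, hu, hxu, b, hb, hub⟩ := hr
  exact ⟨hx, u, hu, offR_mono G h hxu, b, hb, rel_mono G h hu hub⟩

/-- The event `TriE` without the condition `inn B ⊆ ω`. -/
private def Tri3 (S R B : Finset Γ) (ω : Finset E) : Prop :=
  ∃ x₁ ∈ bd S R, ∃ x₂ ∈ bd S R, ∃ x₃ ∈ bd S R,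
    Att (rel G R ω) B x₁ ∧ Att (rel G R ω) B x₂ ∧ Att (rel G R ω) B x₃ ∧
    ¬ OffR (rel G R ω) B x₁ x₂ ∧ ¬ OffR (rel G R ω) B x₁ x₃ ∧ ¬ OffR (rel G R ω) B x₂ x₃

private theorem dep_tri3 (S R B : Finset Γ) :
    Dep {e : E | e ∈ G.inn R ∧ e ∉ G.inn B} (fun ω => Tri3 G S R B ω) := by
  have key : ∀ ω ω' : Finset E,
      (∀ i ∈ {e : E | e ∈ G.inn R ∧ e ∉ G.inn B}, (i ∈ ω ↔ i ∈ ω')) →
        Tri3 G S R B ω → Tri3 G S R B ω' := by
    rintro ω ω' h ⟨x₁, m₁, x₂, m₂, x₃, m₃, a₁, a₂, a₃, h12, h13, h23⟩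
    have hf : ∀ e, e ∈ G.inn R → e ∉ G.inn B → e ∈ ω → e ∈ ω' :=
      fun e h1 h2 h3 => (h e ⟨h1, h2⟩).1 h3
    have hb : ∀ e, e ∈ G.inn R → e ∉ G.inn B → e ∈ ω' → e ∈ ω :=
      fun e h1 h2 h3 => (h e ⟨h1, h2⟩).2 h3
    exact ⟨x₁, m₁, x₂, m₂, x₃, m₃, att_mono G hf a₁, att_mono G hf a₂, att_mono G hf a₃,
      fun h' => h12 (offR_mono G hb h'), fun h' => h13 (offR_mono G hb h'),
      fun h' => h23 (offR_mono G hb h')⟩
  intro ω ω' h
  exact propext ⟨key ω ω' h, key ω' ω fun i hi => (h i hi).symm⟩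

/-- An arm of a vertex of `B` gives an attached vertex at the boundary of `R`. -/
private theorem arm_exit {R B : Finset Γ} (hbd : Disjoint B (bd S R))
    {ω : Finset E} {y : Γ} (hy : y ∈ B) (h : Arm G S R ω y) :
    ∃ u ∈ bd S R, Att (rel G R ω) B u ∧ G.Reach (↑ω : Set E) (↑R : Set Γ) y u := by
  obtain ⟨u, hub, hu⟩ := h
  have huB : u ∉ B := fun huB => disjoint_left.1 hbd huB hub
  refine ⟨u, hub, ⟨huB, ?_⟩, hu⟩
  obtain ⟨e, he, b, w, hb, hw, hab, hbU, hwU, -, hwu⟩ := hu.last_exit hy huB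
  refine ⟨w, hw, ?_, b, hb, ⟨e, he, hab.symm⟩, hwU, hbU⟩
  rw [offR_iff]
  exact hwu.symm

private theorem three_imp {R B : Finset Γ} (hbd : Disjoint B (bd S R))
    {ω : Finset E} {y₁ y₂ y₃ : Γ} (hy₁ : y₁ ∈ B) (hy₂ : y₂ ∈ B) (hy₃ : y₃ ∈ B)
    (h : Three G S R y₁ y₂ y₃ ω) : Tri3 G S R B ω := by
  obtain ⟨hr₁, hr₂, hr₃, h12, h13, h23⟩ := h
  obtain ⟨u₁, hu₁, hA₁, hs₁⟩ := arm_exit G hbd hy₁ hr₁
  obtain ⟨u₂, hu₂, hA₂, hs₂⟩ := arm_exit G hbd hy₂ hr₂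
  obtain ⟨u₃, hu₃, hA₃, hs₃⟩ := arm_exit G hbd hy₃ hr₃
  have hoff : ∀ u u' : Γ, OffR (rel G R ω) B u u' →
      G.Reach (↑ω : Set E) (↑R : Set Γ) u u' := by
    intro u u' h
    rw [offR_iff] at h
    exact h.mono subset_rfl Set.inter_subset_left
  exact ⟨u₁, hu₁, u₂, hu₂, u₃, hu₃, hA₁, hA₂, hA₃,
    fun h => h12 ((hs₁.trans (hoff _ _ h)).trans hs₂.symm),
    fun h => h13 ((hs₁.trans (hoff _ _ h)).trans hs₃.symm),
    fun h => h23 ((hs₂.trans (hoff _ _ h)).trans hs₃.symm)⟩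

theorem tri_of_three {p : ℝ} (h0 : 0 ≤ p) (h1 : p ≤ 1) {R B : Finset Γ} (hB : B ⊆ R)
    (hbd : Disjoint B (bd S R)) {x₁ x₂ x₃ : Γ} (hx₁ : x₁ ∈ B) (hx₂ : x₂ ∈ B) (hx₃ : x₃ ∈ B) :
    p ^ (G.inn B).card * pr p (G.inn R) (Three G S R x₁ x₂ x₃) ≤
      pr p (G.inn R) (TriE G S R B) := by
  have hI : pr p (G.inn R) (TriE G S R B) =
      p ^ (G.inn B).card * pr p (G.inn R) (fun ω => Tri3 G S R B ω) := by
    rw [← pr_contain p (Gr.inn_mono G hB)]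
    have hdc : Dep (↑(G.inn B) : Set E) (fun ω : Finset E => G.inn B ⊆ ω) := by
      intro ω ω' h
      refine propext ⟨fun h' e he => (h e (mem_coe.2 he)).1 (h' he),
        fun h' e he => (h e (mem_coe.2 he)).2 (h' he)⟩
    rw [← pr_indep hdc (dep_tri3 G S R B)
      (Set.disjoint_left.2 fun e he he' => he'.2 (mem_coe.1 he))]
    exact pr_congr fun ω _ => Iff.rfl
  rw [hI]
  exact mul_le_mul_of_nonneg_left
    (pr_mono h0 h1 fun ω _ h => three_imp G hbd hx₁ hx₂ hx₃ h) (pow_nonneg h0 _)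

theorem sum_tri_le {p : ℝ} (h0 : 0 ≤ p) (h1 : p ≤ 1) (R : Finset Γ) (P : Finset (Finset Γ))
    (hne : ∀ B ∈ P, B.Nonempty) (hdis : ∀ B ∈ P, ∀ B' ∈ P, B ≠ B' → Disjoint B B')
    (hsub : ∀ B ∈ P, B ⊆ R)
    (hconn : ∀ B ∈ P, ∀ ω : Finset E, G.inn B ⊆ ω → ∀ x ∈ B, ∀ y ∈ B,
      G.Reach (↑ω : Set E) (↑B : Set Γ) x y) :
    ∑ B ∈ P, pr p (G.inn R) (TriE G S R B) ≤ ((bd S R).card : ℝ) := by
  classical
  have hcount : ∀ ω : Finset E,
      ((P.filter (fun B => TriE G S R B ω)).card : ℝ) ≤ ((bd S R).card : ℝ) := by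
    intro ω
    have htri := tri_count (rel G R ω)
      (fun x y h => ⟨Gr.Step.symm h.1, h.2.2, h.2.1⟩) R (fun x y h => h.2)
      (P.filter (fun B => TriE G S R B ω)) (bd S R)
      (fun C hC => hne C (mem_filter.1 hC).1)
      (fun C hC C' hC' hCC => hdis C (mem_filter.1 hC).1 C' (mem_filter.1 hC').1 hCC)
      ?_ ?_
    · exact_mod_cast htri
    · intro C hC u hu v hv
      have hr := hconn C (mem_filter.1 hC).1 ω (mem_filter.1 hC).2.1 u hu v hv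
      refine Relation.ReflTransGen.mono ?_ _ _ hr
      rintro c d ⟨e1, e2, e3⟩
      have hCR := hsub C (mem_filter.1 hC).1
      exact ⟨⟨e1, hCR (mem_coe.1 e2), hCR (mem_coe.1 e3)⟩, mem_coe.1 e2, mem_coe.1 e3⟩
    · intro C hC
      exact (mem_filter.1 hC).2.2
  calc ∑ B ∈ P, pr p (G.inn R) (TriE G S R B)
      = ex p (G.inn R) (fun ω => ∑ B ∈ P, if TriE G S R B ω then (1 : ℝ) else 0) := by
          rw [ex_sum p (G.inn R) P (fun B ω => if TriE G S R B ω then (1 : ℝ) else 0)]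
          refine sum_congr rfl fun x _ => ?_
          unfold pr
          congr 1
    _ ≤ ex p (G.inn R) (fun _ => ((bd S R).card : ℝ)) := by
          refine ex_mono h0 h1 fun ω _ => ?_
          rw [sum_boole]
          exact hcount ω
    _ = ((bd S R).card : ℝ) := ex_const _ _ _

end Pool.Agent.CGA
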