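import Pool.Agent.CGA.TransG
import Pool.Agent.CGA.TriG
import Pool.Agent.CGA.Pack

/-!
# CGA/ThreeG: three disjoint arms have small probability in suitable finite sets (amenability)

Let `n` be such that `x₁, x₂, x₃ ∈ B₀ := bl S n` (`gen`, `bl_mono`); `k = |inn B₀|`, `β = |B₀| ≥ 1`.
Choose `η > 0` with `η β ≤ 1/2` and `2 η β² ≤ ε p^k`, and (`Fol`) `R` nonempty with
`|cut R| ≤ η |R|`; so `|bd S R| ≤ η |R|` (`bd_card_le`). `exists_pack` gives `P` with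
`|R| ≤ η β |R| + |P| β²`, hence `|P| ≥ |R| / (2 β²) > 0`.
`sum_tri_le` for the family `P.image (fun g => sh g B₀)` (`g ↦ sh g B₀` is injective on `P`:
disjoint nonempty sets; connected by `ball_conn`; nonempty) and `tri_of_three` for
`B = sh g B₀` and the points `g x_i` (`|inn (sh g B₀)| = k`, `card_inn_sh`):
`∑_{g ∈ P} p^k pr p (inn R) (Three R (g x₁) (g x₂) (g x₃)) ≤ |bd S R| ≤ η |R| ≤ 2 η β² |P|`.
So some `g ∈ P` has `pr p (inn R) (Three R (g x_i)) ≤ 2 η β² p^{-k} ≤ ε`. Let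
`Λ = sh g⁻¹ R`; `x_i ∈ Λ` because `g x_i ∈ sh g B₀ ⊆ R`; `three_sh` with `g⁻¹`:
`pr p (inn Λ) (Three Λ x_i) = pr p (inn R) (Three R (g x_i))`.
-/

namespace Pool.Agent.CGA

open Finset Pool.Agent.DLP

variable {Γ E : Type} [Group Γ] [DecidableEq Γ] [DecidableEq E] {G : Gr Γ E} {S : Finset Γ}

theorem three_small (hG : IsCay G S) (hF : Fol G) {p : ℝ} (h0 : 0 < p) (h1 : p ≤ 1)
    (x₁ x₂ x₃ : Γ) {ε : ℝ} (hε : 0 < ε) :
    ∃ Λ : Finset Γ, x₁ ∈ Λ ∧ x₂ ∈ Λ ∧ x₃ ∈ Λ ∧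
      pr p (G.inn Λ) (Three G S Λ x₁ x₂ x₃) ≤ ε := by
  obtain ⟨n₁, hn₁⟩ := hG.gen x₁
  obtain ⟨n₂, hn₂⟩ := hG.gen x₂
  obtain ⟨n₃, hn₃⟩ := hG.gen x₃
  obtain ⟨n, hn⟩ : ∃ n, n = max n₁ (max n₂ n₃) := ⟨_, rfl⟩
  have hx₁ : x₁ ∈ bl S n := bl_mono (by rw [hn]; exact le_max_left _ _) hn₁
  have hx₂ : x₂ ∈ bl S n :=
    bl_mono (by rw [hn]; exact (le_max_left _ _).trans (le_max_right _ _)) hn₂
  have hx₃ : x₃ ∈ bl S n :=
    bl_mono (by rw [hn]; exact (le_max_right _ _).trans (le_max_right _ _)) hn₃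
  obtain ⟨k, hk⟩ : ∃ k, k = (G.inn (bl S n)).card := ⟨_, rfl⟩
  obtain ⟨β, hβ⟩ : ∃ β, β = (bl S n).card := ⟨_, rfl⟩
  have hβ1 : 1 ≤ β := by
    rw [hβ]
    exact Finset.card_pos.2 ⟨1, one_mem_bl S n⟩
  have hβR : (1 : ℝ) ≤ β := by exact_mod_cast hβ1
  have hpk : 0 < p ^ k := pow_pos h0 k
  obtain ⟨η, hη0, hη1, hη2⟩ : ∃ η : ℝ, 0 < η ∧ η * β ≤ 1 / 2 ∧ 2 * η * β ^ 2 ≤ ε * p ^ k := by
    refine ⟨min (1 / (2 * β)) (ε * p ^ k / (2 * β ^ 2)), ?_, ?_, ?_⟩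
    · exact lt_min (by positivity) (by positivity)
    · have h2 := min_le_left (1 / (2 * (β : ℝ))) (ε * p ^ k / (2 * β ^ 2))
      calc min (1 / (2 * (β : ℝ))) (ε * p ^ k / (2 * β ^ 2)) * β ≤ 1 / (2 * β) * β :=
            mul_le_mul_of_nonneg_right h2 (by positivity)
        _ = 1 / 2 := by field_simp
    · have h2 := min_le_right (1 / (2 * (β : ℝ))) (ε * p ^ k / (2 * β ^ 2))
      calc 2 * min (1 / (2 * (β : ℝ))) (ε * p ^ k / (2 * β ^ 2)) * β ^ 2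
          = min (1 / (2 * (β : ℝ))) (ε * p ^ k / (2 * β ^ 2)) * (2 * β ^ 2) := by ring
        _ ≤ ε * p ^ k / (2 * β ^ 2) * (2 * β ^ 2) :=
            mul_le_mul_of_nonneg_right h2 (by positivity)
        _ = ε * p ^ k := by field_simp
  obtain ⟨R, hRne, hRcut⟩ := hF η hη0
  have hbd : ((bd S R).card : ℝ) ≤ η * R.card := by
    refine le_trans ?_ hRcut
    exact_mod_cast bd_card_le hG R
  obtain ⟨P, hP1, hP2, hP3⟩ := exists_pack S R n
  have hRpos : (0 : ℝ) < R.card := by exact_mod_cast Finset.card_pos.2 hRne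
  have hP3' : (R.card : ℝ) ≤ (bd S R).card * β + P.card * β ^ 2 := by
    rw [hβ]
    exact_mod_cast hP3
  have hRP : (R.card : ℝ) ≤ 2 * (P.card * β ^ 2) := by
    have h2 : ((bd S R).card : ℝ) * β ≤ R.card * (1 / 2) := by
      calc ((bd S R).card : ℝ) * β ≤ η * R.card * β :=
            mul_le_mul_of_nonneg_right hbd (by positivity)
        _ = R.card * (η * β) := by ring
        _ ≤ R.card * (1 / 2) := mul_le_mul_of_nonneg_left hη1 hRpos.le
    linarith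
  have hPne : P.Nonempty := by
    by_contra hc
    rw [Finset.not_nonempty_iff_eq_empty] at hc
    rw [hc] at hRP
    simp at hRP
    exact absurd hRne (by rw [hRP]; simp)
  have hinj : Set.InjOn (fun g => sh g (bl S n)) (P : Set Γ) := by
    intro g hg h hh he
    by_contra hne
    have h2 := hP2 g hg h hh hne
    simp only at he
    rw [← he, Finset.disjoint_self_iff_empty] at h2
    have h3 : g * 1 ∈ sh g (bl S n) := mul_mem_sh.2 (one_mem_bl S n)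
    rw [h2] at h3
    simp at h3
  have hsum := sum_tri_le (S := S) G h0.le h1 R (P.image fun g => sh g (bl S n))
    (by
      intro B hB
      obtain ⟨g, hg, rfl⟩ := Finset.mem_image.1 hB
      exact ⟨g * 1, mul_mem_sh.2 (one_mem_bl S n)⟩)
    (by
      intro B hB B' hB' hne
      obtain ⟨g, hg, rfl⟩ := Finset.mem_image.1 hB
      obtain ⟨h, hh, rfl⟩ := Finset.mem_image.1 hB'
      exact hP2 g hg h hh (fun e => hne (by rw [e])))
    (by
      intro B hB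
      obtain ⟨g, hg, rfl⟩ := Finset.mem_image.1 hB
      exact (hP1 g hg).1)
    (by
      intro B hB ω hω x hx y hy
      obtain ⟨g, hg, rfl⟩ := Finset.mem_image.1 hB
      exact ball_conn hG g n hω hx hy)
  rw [Finset.sum_image (fun g hg h hh he => hinj hg hh he)] at hsum
  have hle : ∑ g ∈ P, p ^ k * pr p (G.inn R) (Three G S R (g * x₁) (g * x₂) (g * x₃)) ≤
      ∑ g ∈ P, (2 * η * β ^ 2) := by
    calc ∑ g ∈ P, p ^ k * pr p (G.inn R) (Three G S R (g * x₁) (g * x₂) (g * x₃))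
        ≤ ∑ g ∈ P, pr p (G.inn R) (TriE G S R (sh g (bl S n))) := by
          apply Finset.sum_le_sum
          intro g hg
          have h2 := tri_of_three (S := S) G h0.le h1 (hP1 g hg).1 (hP1 g hg).2
            (mul_mem_sh.2 hx₁ : g * x₁ ∈ sh g (bl S n)) (mul_mem_sh.2 hx₂)
            (mul_mem_sh.2 hx₃)
          rw [card_inn_sh hG, ← hk] at h2
          exact h2
      _ ≤ ((bd S R).card : ℝ) := hsum
      _ ≤ η * R.card := hbd
      _ ≤ η * (2 * (P.card * β ^ 2)) := mul_le_mul_of_nonneg_left hRP hη0.le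
      _ = ∑ g ∈ P, (2 * η * β ^ 2) := by
          rw [Finset.sum_const, nsmul_eq_mul]
          ring
  obtain ⟨g, hg, hgle⟩ := Finset.exists_le_of_sum_le hPne hle
  have hgR : ∀ x ∈ bl S n, g * x ∈ R := fun x hx => (hP1 g hg).1 (mul_mem_sh.2 hx)
  refine ⟨sh g⁻¹ R, ?_, ?_, ?_, ?_⟩
  · rw [mem_sh, inv_inv]
    exact hgR _ hx₁
  · rw [mem_sh, inv_inv]
    exact hgR _ hx₂
  · rw [mem_sh, inv_inv]
    exact hgR _ hx₃
  · have h2 := three_sh hG p g⁻¹ R (g * x₁) (g * x₂) (g * x₃)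
    rw [inv_mul_cancel_left, inv_mul_cancel_left, inv_mul_cancel_left] at h2
    rw [h2]
    have h3 : p ^ k * pr p (G.inn R) (Three G S R (g * x₁) (g * x₂) (g * x₃)) ≤ p ^ k * ε := by
      linarith
    exact le_of_mul_le_mul_left h3 hpk

end Pool.Agent.CGA
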