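import Pool.Agent.CGA.CayB

/-!
# CGA/TransG: invariance of the probabilities under left translations

For `g : Γ` let `φ` be the automorphism of `act g` (`φ.v x = g x`); `sh g B = B.map φ.v.toEmbedding`
(extensionality, `Finset.map_eq_image`). Everything follows from `AutS`.
* `cp_sh`: `pr_inn_autS` and `reach_autS` (`↑(ω.map φ.e.toEmbedding) = φ.e '' ↑ω`,
  `Finset.coe_map`).
* `xt_sh`: `pr_touch_autS` and `Exit`: `y ∉ Λ` iff `g y ∉ sh g Λ`; every vertex is `g y`;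
  `φ.v '' univ = univ`.
* `three_sh`: `Arm` and `Reach` for the translated configuration (`bd_sh`).
* `card_inn_sh`, `card_cut_sh`: `inn_mapS`, `cut_mapS`, `Finset.card_map`.
-/

namespace Pool.Agent.CGA

open Finset Pool.Agent.DLP

variable {Γ E : Type} [Group Γ] [DecidableEq Γ] [DecidableEq E] {G : Gr Γ E} {S : Finset Γ}

private theorem sh_eq_map (φ : AutS G) {g : Γ} (hφ : ∀ x, φ.v x = g * x) (B : Finset Γ) :
    sh g B = B.map φ.v.toEmbedding := by
  unfold sh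
  rw [Finset.map_eq_image]
  refine Finset.image_congr fun x _ => ?_
  exact (hφ x).symm

private theorem coe_mape (φ : AutS G) (ω : Finset E) :
    (↑(ω.map φ.e.toEmbedding) : Set E) = φ.e '' (↑ω : Set E) :=
  Finset.coe_map _ _

private theorem coe_mapv (φ : AutS G) (B : Finset Γ) :
    (↑(B.map φ.v.toEmbedding) : Set Γ) = φ.v '' (↑B : Set Γ) :=
  Finset.coe_map _ _

private theorem reach_sh (φ : AutS G) {g : Γ} (hφ : ∀ x, φ.v x = g * x) (B : Finset Γ)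
    (ω : Finset E) (x y : Γ) :
    G.Reach (↑(ω.map φ.e.toEmbedding) : Set E) (↑(sh g B) : Set Γ) (g * x) (g * y) ↔
      G.Reach (↑ω : Set E) (↑B : Set Γ) x y := by
  rw [sh_eq_map φ hφ, coe_mape, coe_mapv, ← hφ x, ← hφ y]
  exact reach_autS φ _ _ x y

theorem cp_sh (hG : IsCay G S) (p : ℝ) (g : Γ) (B : Finset Γ) (x y : Γ) :
    cp G p (sh g B) (g * x) (g * y) = cp G p B x y := by
  obtain ⟨φ, hφ⟩ := hG.act g
  unfold cp
  have h1 : G.inn (sh g B) = G.inn (B.map φ.v.toEmbedding) := by rw [sh_eq_map φ hφ]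
  rw [h1, pr_inn_autS]
  exact pr_congr fun ω _ => reach_sh φ hφ B ω x y

theorem xt_sh (hG : IsCay G S) (p : ℝ) (g : Γ) (Λ : Finset Γ) (x : Γ) :
    xt G p (sh g Λ) (g * x) = xt G p Λ x := by
  obtain ⟨φ, hφ⟩ := hG.act g
  unfold xt
  have h1 : G.touch (sh g Λ) = G.touch (Λ.map φ.v.toEmbedding) := by rw [sh_eq_map φ hφ]
  rw [h1, pr_touch_autS]
  refine pr_congr fun ω _ => ?_
  have hu : (Set.univ : Set Γ) = φ.v '' Set.univ :=
    (Set.image_univ_of_surjective φ.v.surjective).symm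
  unfold Gr.Exit
  rw [coe_mape]
  constructor
  · rintro ⟨y, hy, h⟩
    obtain ⟨y, rfl⟩ := φ.v.surjective y
    refine ⟨y, fun h1 => hy ?_, ?_⟩
    · rw [hφ]
      exact mul_mem_sh.2 h1
    · rw [hu, ← hφ x] at h
      exact (reach_autS φ _ _ x y).1 h
  · rintro ⟨y, hy, h⟩
    refine ⟨φ.v y, fun h1 => hy ?_, ?_⟩
    · rw [hφ] at h1
      exact mul_mem_sh.1 h1
    · rw [hu, ← hφ x]
      exact (reach_autS φ _ _ x y).2 h

private theorem arm_sh (φ : AutS G) {g : Γ} (hφ : ∀ x, φ.v x = g * x) (R : Finset Γ)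
    (ω : Finset E) (x : Γ) :
    Arm G S (sh g R) (ω.map φ.e.toEmbedding) (g * x) ↔ Arm G S R ω x := by
  unfold Arm
  rw [bd_sh]
  constructor
  · rintro ⟨y, hy, h⟩
    have h1 : g * (g⁻¹ * y) = y := mul_inv_cancel_left g y
    rw [← h1] at h
    exact ⟨g⁻¹ * y, mem_sh.1 hy, (reach_sh φ hφ R ω x _).1 h⟩
  · rintro ⟨y, hy, h⟩
    exact ⟨g * y, mul_mem_sh.2 hy, (reach_sh φ hφ R ω x y).2 h⟩

theorem three_sh (hG : IsCay G S) (p : ℝ) (g : Γ) (R : Finset Γ) (x₁ x₂ x₃ : Γ) :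
    pr p (G.inn (sh g R)) (Three G S (sh g R) (g * x₁) (g * x₂) (g * x₃)) =
      pr p (G.inn R) (Three G S R x₁ x₂ x₃) := by
  obtain ⟨φ, hφ⟩ := hG.act g
  have h1 : G.inn (sh g R) = G.inn (R.map φ.v.toEmbedding) := by rw [sh_eq_map φ hφ]
  rw [h1, pr_inn_autS]
  refine pr_congr fun ω _ => ?_
  unfold Three
  rw [arm_sh φ hφ, arm_sh φ hφ, arm_sh φ hφ, reach_sh φ hφ, reach_sh φ hφ, reach_sh φ hφ]

theorem card_inn_sh (hG : IsCay G S) (g : Γ) (B : Finset Γ) :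
    (G.inn (sh g B)).card = (G.inn B).card := by
  obtain ⟨φ, hφ⟩ := hG.act g
  rw [sh_eq_map φ hφ, inn_mapS, Finset.card_map]

theorem card_cut_sh (hG : IsCay G S) (g : Γ) (B : Finset Γ) :
    (G.cut (sh g B)).card = (G.cut B).card := by
  obtain ⟨φ, hφ⟩ := hG.act g
  rw [sh_eq_map φ hφ, cut_mapS, Finset.card_map]

end Pool.Agent.CGA
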